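import Pool.Agent.Lib.MP_0775d3_lc.Sl2.Rect

/-! Block matrices. -/

set_option linter.unusedSectionVars false

namespace MP0775d3.Solv

open Matrix MP0775d3.Sl2

private theorem rank_add_le3 {F X Y : Type} [Field F] [Fintype X] [Fintype Y]
    (A B : Matrix X Y F) : (A + B).rank ≤ A.rank + B.rank := by
  unfold Matrix.rank
  have h : LinearMap.range (A + B).mulVecLin ≤
      LinearMap.range A.mulVecLin ⊔ LinearMap.range B.mulVecLin := by
    rintro _ ⟨v, rfl⟩
    rw [Matrix.mulVecLin_add, LinearMap.add_apply]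
    exact Submodule.add_mem_sup ⟨v, rfl⟩ ⟨v, rfl⟩
  exact (Submodule.finrank_mono h).trans (Submodule.finrank_add_le_finrank_add_finrank _ _)

private theorem rank_sum_le3 {F X Y ι : Type} [Field F] [Fintype X] [Fintype Y]
    (s : Finset ι) (A : ι → Matrix X Y F) : (∑ i ∈ s, A i).rank ≤ ∑ i ∈ s, (A i).rank := by
  classical
  induction s using Finset.induction_on with
  | empty => simp
  | insert i s hi ih =>
    rw [Finset.sum_insert hi, Finset.sum_insert hi]
    exact (rank_add_le3 _ _).trans (Nat.add_le_add_left ih _)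

/-- extension by zero of a matrix on subtypes -/
private noncomputable def ext0 {F X Y : Type} [Field F] {p : X → Prop} {q : Y → Prop}
    (B : Matrix {x // p x} {y // q y} F) : Matrix X Y F := by
  classical
  exact Matrix.of fun x y => if h : p x then if h' : q y then B ⟨x, h⟩ ⟨y, h'⟩ else 0 else 0

private theorem ext0_rank {F X Y : Type} [Field F] [Fintype X] [Fintype Y] {p : X → Prop}
    {q : Y → Prop} [Fintype {x // p x}] [Fintype {y // q y}]
    (B : Matrix {x // p x} {y // q y} F) : (ext0 B).rank ≤ B.rank := by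
  classical
  have h : ext0 B = (Matrix.of fun (x : X) (a : {x // p x}) => if x = a.1 then (1 : F) else 0) * B *
      (Matrix.of fun (b : {y // q y}) (y : Y) => if b.1 = y then (1 : F) else 0) := by
    ext x y
    rw [Matrix.mul_apply]
    by_cases hy : q y
    · rw [Finset.sum_eq_single (⟨y, hy⟩ : {y // q y})]
      · rw [Matrix.mul_apply]
        by_cases hx : p x
        · rw [Finset.sum_eq_single (⟨x, hx⟩ : {x // p x})]
          · simp [ext0, hx, hy]
          · intro b _ hb
            have : x ≠ b.1 := fun hc => hb (Subtype.ext hc.symm)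
            simp [this]
          · intro hc
            exact absurd (Finset.mem_univ _) hc
        · rw [Finset.sum_eq_zero]
          · simp [ext0, hx]
          · intro b _
            have : x ≠ b.1 := fun hc => hx (hc ▸ b.2)
            simp [this]
      · intro b _ hb
        have : b.1 ≠ y := fun hc => hb (Subtype.ext hc)
        simp [this]
      · intro hc
        exact absurd (Finset.mem_univ _) hc
    · rw [Finset.sum_eq_zero]
      · simp only [ext0, Matrix.of_apply]
        split_ifs <;> rfl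
      · intro b _
        have : b.1 ≠ y := fun hc => hy (hc ▸ b.2)
        simp [this]
  rw [h]
  exact (Matrix.rank_mul_le_left _ _).trans (Matrix.rank_mul_le_right _ _)

private theorem ext0_sum {F X Y ι : Type} [Field F] [Fintype ι] (s : X → ι) (t : Y → ι)
    (B : ∀ i, Matrix {x // s x = i} {y // t y = i} F) (x : X) (y : Y) (hxy : t y = s x) :
    (∑ i, ext0 (B i)) x y = B (s x) ⟨x, rfl⟩ ⟨y, hxy⟩ := by
  classical
  rw [Matrix.sum_apply, Finset.sum_eq_single (s x)]
  · simp [ext0, hxy]
  · intro i _ hi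
    have : ¬ s x = i := fun h => hi h.symm
    simp [ext0, this]
  · intro hc
    exact absurd (Finset.mem_univ _) hc

private theorem ext0_sum_ne {F X Y ι : Type} [Field F] [Fintype ι] (s : X → ι) (t : Y → ι)
    (B : ∀ i, Matrix {x // s x = i} {y // t y = i} F) (x : X) (y : Y) (hxy : t y ≠ s x) :
    (∑ i, ext0 (B i)) x y = 0 := by
  classical
  rw [Matrix.sum_apply]
  refine Finset.sum_eq_zero fun i _ => ?_
  simp only [ext0, Matrix.of_apply]
  split_ifs with h1 h2
  · exact absurd (h2.trans h1.symm) hxy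
  · rfl
  · rfl

/-- Block matrices: the blocks are given by the fibres of `s` and `t`. PROOF. Take `R i, S i` from
`hB i`; `R x y = if h : s x = t y then R (t y) ⟨x, h⟩ ⟨y, rfl⟩ else 0`, the same for `S`. The matrix
`R` is the sum over `i` of the extensions by zero of `R i`, each of rank at most `rank (R i)` (write
it as `E * R i * E'` with 0/1 matrices `E`, `E'`); rank is subadditive. A row of `S` is the extension
by zero of a row of `S (s x)`. -/
theorem rdec_blocks {F : Type} [Field F] {X Y ι : Type} [Fintype X] [Fintype Y] [Fintype ι]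
    [DecidableEq ι] (A : Matrix X Y F) (s : X → ι) (t : Y → ι)
    (h0 : ∀ x y, s x ≠ t y → A x y = 0) (r : ι → ℝ) (σ : ℝ) (hσ : 0 ≤ σ)
    (hB : ∀ i, RDec (A.submatrix (Subtype.val : {x // s x = i} → X)
      (Subtype.val : {y // t y = i} → Y)) (r i) σ) : RDec A (∑ i, r i) σ := by
  classical
  choose R S h1 h2 h3 h4 using hB
  refine ⟨∑ i, ext0 (R i), ∑ i, ext0 (S i), ?_, ?_, ?_, ?_⟩
  · ext x y
    rw [Matrix.add_apply]
    by_cases hxy : t y = s x
    · rw [ext0_sum s t R x y hxy, ext0_sum s t S x y hxy]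
      have h5 := congrFun (congrFun (h1 (s x)) ⟨x, rfl⟩) ⟨y, hxy⟩
      rw [Matrix.add_apply] at h5
      rw [← h5]
      rfl
    · rw [ext0_sum_ne s t R x y hxy, ext0_sum_ne s t S x y hxy, add_zero]
      exact h0 x y fun h => hxy h.symm
  · have h5 : ((∑ i, ext0 (R i)).rank : ℝ) ≤ ∑ i, ((R i).rank : ℝ) := by
      have h6 : (∑ i, ext0 (R i)).rank ≤ ∑ i, (R i).rank :=
        (rank_sum_le3 _ _).trans (Finset.sum_le_sum fun i _ => ext0_rank (R i))
      exact_mod_cast h6
    exact h5.trans (Finset.sum_le_sum fun i _ => h2 i)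
  · intro x
    have h5 : ({y | (∑ i, ext0 (S i)) x y ≠ 0} : Set Y) ⊆
        (Subtype.val : {y // t y = s x} → Y) '' {q | S (s x) ⟨x, rfl⟩ q ≠ 0} := by
      intro y hy
      by_cases hxy : t y = s x
      · refine ⟨⟨y, hxy⟩, ?_, rfl⟩
        rw [Set.mem_setOf_eq, ext0_sum s t S x y hxy] at hy
        exact hy
      · exact absurd (ext0_sum_ne s t S x y hxy) hy
    have h6 := (Set.ncard_le_ncard h5 (Set.toFinite _)).trans
      (Set.ncard_image_le (Set.toFinite _))
    exact le_trans (by exact_mod_cast h6) (h3 (s x) ⟨x, rfl⟩)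
  · intro y
    have h5 : ({x | (∑ i, ext0 (S i)) x y ≠ 0} : Set X) ⊆
        (Subtype.val : {x // s x = t y} → X) '' {p | S (t y) p ⟨y, rfl⟩ ≠ 0} := by
      intro x hx
      by_cases hxy : t y = s x
      · refine ⟨⟨x, hxy.symm⟩, ?_, rfl⟩
        rw [Set.mem_setOf_eq, ext0_sum s t S x y hxy] at hx
        rw [Set.mem_setOf_eq]
        intro hc
        apply hx
        have key : ∀ (i : ι) (hi : t y = i) (hs : s x = i),
            S i ⟨x, hs⟩ ⟨y, hi⟩ = S (t y) ⟨x, hxy.symm⟩ ⟨y, rfl⟩ := by
          intro i hi hs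
          subst hi
          rfl
        rw [key (s x) hxy rfl]
        exact hc
      · exact absurd (ext0_sum_ne s t S x y hxy) hx
    have h6 := (Set.ncard_le_ncard h5 (Set.toFinite _)).trans
      (Set.ncard_image_le (Set.toFinite _))
    exact le_trans (by exact_mod_cast h6) (h4 (t y) ⟨y, rfl⟩)

/-- The form in which it is used: every block is, up to row and column factors, a part of a
matrix `B i`. -/
theorem rdec_blocks' {F : Type} [Field F] {X Y ι : Type} [Fintype X] [Fintype Y] [Fintype ι]
    [DecidableEq ι] (A : Matrix X Y F) (s : X → ι) (t : Y → ι)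
    (h0 : ∀ x y, s x ≠ t y → A x y = 0) (r : ι → ℝ) (σ : ℝ) (hσ : 0 ≤ σ)
    (X' Y' : ι → Type) [∀ i, Fintype (X' i)] [∀ i, Fintype (Y' i)]
    (B : ∀ i, Matrix (X' i) (Y' i) F) (hB : ∀ i, RDec (B i) (r i) σ)
    (f : ∀ i, X → X' i) (g : ∀ i, Y → Y' i)
    (hf : ∀ i x x', s x = i → s x' = i → f i x = f i x' → x = x')
    (hg : ∀ i y y', t y = i → t y' = i → g i y = g i y' → y = y')
    (u : X → F) (v : Y → F)
    (hA : ∀ i x y, s x = i → t y = i → A x y = u x * B i (f i x) (g i y) * v y) :
    RDec A (∑ i, r i) σ := by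
  classical
  refine rdec_blocks A s t h0 r σ hσ fun i => ?_
  have e1 : A.submatrix (Subtype.val : {x // s x = i} → X) (Subtype.val : {y // t y = i} → Y) =
      Matrix.of fun (x : {x // s x = i}) (y : {y // t y = i}) => u x.1 *
        ((B i).submatrix (fun x : {x // s x = i} => f i x.1)
          (fun y : {y // t y = i} => g i y.1)) x y * v y.1 := by
    ext x y
    rw [Matrix.submatrix_apply, Matrix.of_apply, Matrix.submatrix_apply, hA i x.1 y.1 x.2 y.2]
  rw [e1]
  have h2 := RDec.submatrix (hB i) hσ (zero_le_one) (fun x : {x // s x = i} => f i x.1)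
    (fun y : {y // t y = i} => g i y.1) ?_ ?_
  · have h3 := RDec.diag h2 (fun x : {x // s x = i} => u x.1) (fun y : {y // t y = i} => v y.1)
    rw [one_mul] at h3
    exact h3
  · intro z
    have h4 : ({x' : {x // s x = i} | f i x'.1 = z} : Set _).ncard ≤ 1 := by
      rw [Set.ncard_le_one_iff]
      intro a b ha hb
      exact Subtype.ext (hf i a.1 b.1 a.2 b.2 (ha.trans hb.symm))
    exact_mod_cast h4
  · intro z
    have h4 : ({y' : {y // t y = i} | g i y'.1 = z} : Set _).ncard ≤ 1 := by
      rw [Set.ncard_le_one_iff]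
      intro a b ha hb
      exact Subtype.ext (hg i a.1 b.1 a.2 b.2 (ha.trans hb.symm))
    exact_mod_cast h4

end MP0775d3.Solv
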