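import Pool.Agent.Lib.MP_0775d3_lc.Solv.Chars
import Pool.Agent.Lib.MP_0775d3_lc.Solv.Blocks

/-! The radical step. -/

set_option linter.unusedSectionVars false

namespace MP0775d3.Solv

open Matrix MP0775d3.Sl2

section
variable {Q : Type} [Group Q] [Fintype Q] [DecidableEq Q] {F : TFam Q Q} {A R : Subgroup Q}
  {ι : Type} [Fintype ι] {M : ι → Q → ℂ}

private theorem T_mul_inv (hR : Reg F A) (g : Q) :
    F.T g * F.T g⁻¹ = (F.c.a g g⁻¹ * F.c.a 1 1) • (1 : Matrix Q Q ℂ) := by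
  rw [F.mul, mul_inv_cancel, hR.one, smul_smul]

/-- PROOF. The set of these `g` is closed under products since `T g * T h` is a nonzero multiple of
`T (g * h)`, and under inverses since `T g⁻¹` is a nonzero multiple of `(T g)⁻¹`. -/
theorem exists_stab (hR : Reg F A) (e : Matrix Q Q ℂ) : ∃ Q₁ : Subgroup Q, ∀ g,
    g ∈ Q₁ ↔ F.T g * e = e * F.T g := by
  refine ⟨{ carrier := {g | F.T g * e = e * F.T g}
            mul_mem' := ?_
            one_mem' := ?_
            inv_mem' := ?_ }, fun g => Iff.rfl⟩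
  · intro g h hg hh
    have hg' : F.T g * e = e * F.T g := hg
    have hh' : F.T h * e = e * F.T h := hh
    show F.T (g * h) * e = e * F.T (g * h)
    have h1 : F.T (g * h) = (F.c.a g h)⁻¹ • (F.T g * F.T h) := by
      rw [F.mul, smul_smul, inv_mul_cancel₀ (F.c.ne g h), one_smul]
    rw [h1, Matrix.smul_mul, Matrix.mul_smul, Matrix.mul_assoc, hh', ← Matrix.mul_assoc, hg',
      Matrix.mul_assoc]
  · show F.T 1 * e = e * F.T 1
    rw [hR.one, Matrix.smul_mul, Matrix.mul_smul, Matrix.one_mul, Matrix.mul_one]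
  · intro g hg
    have hg' : F.T g * e = e * F.T g := hg
    show F.T g⁻¹ * e = e * F.T g⁻¹
    refine (hR.unit g).mul_left_cancel ?_
    rw [← Matrix.mul_assoc, T_mul_inv hR, ← Matrix.mul_assoc, hg', Matrix.mul_assoc, T_mul_inv hR,
      Matrix.smul_mul, Matrix.mul_smul, Matrix.one_mul, Matrix.mul_one]

private theorem sum_subgroup (i1 i2 : Fintype R) (f : R → Matrix Q Q ℂ) :
    (@Finset.sum R (Matrix Q Q ℂ) _ (@Finset.univ R i1) f) =
      @Finset.sum R (Matrix Q Q ℂ) _ (@Finset.univ R i2) f := by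
  have h : i1 = i2 := Subsingleton.elim _ _
  rw [h]

/-- PROOF. Put `e = idem F R (M i)`, `T' x = e * F.T x.out` for `x : Q₁ ⧸ R.subgroupOf Q₁`. If
`g = r * x.out` or `g = x.out * r`, `r ∈ R`, then `e * T g` is a nonzero multiple of `T' x`
(`idem_right`). Products: `e` commutes with `T x.out` and `e * e = e`, so
`T' x * T' y = e * T x.out * T y.out` is a nonzero multiple of `e * T (x.out * y.out)`. Independence:
`e * T g` is a combination of the `T (r * g)`, `r ∈ R`, with all coefficients different from zero, and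
the cosets `R g` are disjoint. Use `exists_tfam`. The pairing: `e * T a * (e * T b)` and
`e * T b * (e * T a)` for `a, b ∈ A`, `a b = b a`. -/
theorem exists_fam1 (hR : Reg F A) [R.Normal] (hRA : R ≤ A)
    (h : ∀ r ∈ R, ∀ a ∈ A, F.c.a r a = F.c.a a r) (hM : Chars F.c R ι M) (i : ι)
    (Q₁ : Subgroup Q) (hQ₁ : ∀ g, g ∈ Q₁ ↔ F.T g * idem F R (M i) = idem F R (M i) * F.T g) :
    ∃ F' : TFam (Q₁ ⧸ R.subgroupOf Q₁) Q,
      (∀ g : Q₁, ∃ ω : ℂ, ω ≠ 0 ∧
        idem F R (M i) * F.T g = ω • F'.T (g : Q₁ ⧸ R.subgroupOf Q₁)) ∧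
      (∀ a b : Q₁, (a : Q) ∈ A → (b : Q) ∈ A →
        F'.c.a (a : Q₁ ⧸ R.subgroupOf Q₁) (b : Q₁ ⧸ R.subgroupOf Q₁) * F.c.a b a =
          F'.c.a (b : Q₁ ⧸ R.subgroupOf Q₁) (a : Q₁ ⧸ R.subgroupOf Q₁) * F.c.a a b) := by
  classical
  set e := idem F R (M i) with he
  have hRR : ∀ r ∈ R, ∀ s ∈ R, F.c.a r s = F.c.a s r := fun r hr s hs => h r hr s (hRA hs)
  have hsq : e * e = e := idem_sq hR hM i
  have hir : ∀ r ∈ R, e * F.T r = M i r • e := fun r hr => idem_right hR hRA hRR hM i r hr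
  let T' : (Q₁ ⧸ R.subgroupOf Q₁) → Matrix Q Q ℂ := fun x => e * F.T ((Quotient.out x : Q₁) : Q)
  have hout : ∀ x : Q₁ ⧸ R.subgroupOf Q₁, ((Quotient.out x : Q₁) : Q₁ ⧸ R.subgroupOf Q₁) = x :=
    fun x => Quotient.out_eq' x
  -- every `e * T g` is a multiple of `T'`
  have hA : ∀ g : Q₁, ∃ ω : ℂ, ω ≠ 0 ∧ e * F.T g = ω • T' (g : Q₁ ⧸ R.subgroupOf Q₁) := by
    intro g
    set x : Q₁ ⧸ R.subgroupOf Q₁ := (g : Q₁ ⧸ R.subgroupOf Q₁) with hx
    have h1 : g * (Quotient.out x : Q₁)⁻¹ ∈ R.subgroupOf Q₁ := by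
      rw [← QuotientGroup.eq_one_iff, QuotientGroup.mk_mul, QuotientGroup.mk_inv, hout, ← hx,
        mul_inv_cancel]
    have h2 : (g : Q) * ((Quotient.out x : Q₁) : Q)⁻¹ ∈ R := by
      have h3 := Subgroup.mem_subgroupOf.1 h1
      simpa using h3
    set r : Q := (g : Q) * ((Quotient.out x : Q₁) : Q)⁻¹ with hr
    have h4 : r * ((Quotient.out x : Q₁) : Q) = (g : Q) := by
      rw [hr, inv_mul_cancel_right]
    have h5 : F.T (g : Q) = (F.c.a r ((Quotient.out x : Q₁) : Q))⁻¹ •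
        (F.T r * F.T ((Quotient.out x : Q₁) : Q)) := by
      rw [F.mul, smul_smul, inv_mul_cancel₀ (F.c.ne _ _), one_smul, h4]
    refine ⟨(F.c.a r ((Quotient.out x : Q₁) : Q))⁻¹ * M i r,
      mul_ne_zero (inv_ne_zero (F.c.ne _ _)) (hM.ne i r h2), ?_⟩
    rw [h5, Matrix.mul_smul, ← Matrix.mul_assoc, hir r h2, Matrix.smul_mul, smul_smul]
  -- products
  have hprod : ∀ g g' : Q₁, (e * F.T g) * (e * F.T g') = F.c.a g g' • (e * F.T ((g * g' : Q₁) : Q)) := by
    intro g g'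
    have h1 : F.T (g : Q) * e = e * F.T g := (hQ₁ g).1 g.2
    calc (e * F.T g) * (e * F.T g') = e * (F.T g * e) * F.T g' := by
          simp only [Matrix.mul_assoc]
      _ = (e * e) * (F.T g * F.T g') := by
          rw [h1]
          simp only [Matrix.mul_assoc]
      _ = F.c.a g g' • (e * F.T ((g * g' : Q₁) : Q)) := by
          rw [hsq, F.mul, Matrix.mul_smul]
          rfl
  have hmul : ∀ x y, ∃ a : ℂ, a ≠ 0 ∧ T' x * T' y = a • T' (x * y) := by
    intro x y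
    obtain ⟨ω, hω, h1⟩ := hA (Quotient.out x * Quotient.out y)
    refine ⟨F.c.a ((Quotient.out x : Q₁) : Q) ((Quotient.out y : Q₁) : Q) * ω,
      mul_ne_zero (F.c.ne _ _) hω, ?_⟩
    have h2 := hprod (Quotient.out x) (Quotient.out y)
    rw [h1, QuotientGroup.mk_mul, hout, hout, smul_smul] at h2
    exact h2
  -- independence
  have hind : LinearIndependent ℂ T' := by
    let f : (Q₁ ⧸ R.subgroupOf Q₁) × R → Q := fun p => (p.2 : Q) * ((Quotient.out p.1 : Q₁) : Q)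
    have hf : Function.Injective f := by
      rintro ⟨x, r⟩ ⟨x', r'⟩ h1
      have h1' : (r : Q) * ((Quotient.out x : Q₁) : Q) = (r' : Q) * ((Quotient.out x' : Q₁) : Q) := h1
      have h2 : ((Quotient.out x : Q₁) : Q) * ((Quotient.out x' : Q₁) : Q)⁻¹ = (r : Q)⁻¹ * r' := by
        rw [mul_inv_eq_iff_eq_mul, mul_assoc, ← h1', inv_mul_cancel_left]
      have h3 : (Quotient.out x : Q₁) * (Quotient.out x' : Q₁)⁻¹ ∈ R.subgroupOf Q₁ := by
        rw [Subgroup.mem_subgroupOf]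
        have h4 : ((Quotient.out x : Q₁) : Q) * ((Quotient.out x' : Q₁) : Q)⁻¹ ∈ R := by
          rw [h2]
          exact R.mul_mem (R.inv_mem r.2) r'.2
        simpa using h4
      have h5 : x = x' := by
        rw [← QuotientGroup.eq_one_iff, QuotientGroup.mk_mul, QuotientGroup.mk_inv, hout, hout] at h3
        exact mul_inv_eq_one.1 h3
      subst h5
      have h6 : (r : Q) = r' := mul_right_cancel h1'
      rw [Subtype.ext h6]
    have hli := F.indep.comp f hf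
    rw [Fintype.linearIndependent_iff] at hli ⊢
    intro c hc x
    have hcard : (Nat.card R : ℂ) ≠ 0 := by
      exact_mod_cast Nat.card_pos.ne'
    have key : ∀ x : Q₁ ⧸ R.subgroupOf Q₁, T' x = ∑ r : R,
        ((Nat.card R : ℂ)⁻¹ * ((M i r)⁻¹ * F.c.a r ((Quotient.out x : Q₁) : Q))) • F.T (f (x, r)) := by
      intro x
      show e * F.T ((Quotient.out x : Q₁) : Q) = _
      rw [he, idem, Matrix.smul_mul, Finset.sum_mul, Finset.smul_sum]
      refine (sum_subgroup _ _ _).trans (Finset.sum_congr rfl fun r _ => ?_)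
      rw [Matrix.smul_mul, F.mul, smul_smul, smul_smul, mul_assoc]
    have h1 := hli (fun p => c p.1 * ((Nat.card R : ℂ)⁻¹ *
      ((M i p.2)⁻¹ * F.c.a p.2 ((Quotient.out p.1 : Q₁) : Q)))) (by
        rw [Fintype.sum_prod_type, ← hc]
        refine Finset.sum_congr rfl fun x _ => ?_
        rw [key, Finset.smul_sum]
        refine Finset.sum_congr rfl fun r _ => ?_
        rw [smul_smul]
        rfl) (x, 1)
    have h2 : M i ((1 : R) : Q) ≠ 0 := hM.ne i _ (1 : R).2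
    have h3 : (Nat.card R : ℂ)⁻¹ * ((M i ((1 : R) : Q))⁻¹ *
        F.c.a ((1 : R) : Q) ((Quotient.out x : Q₁) : Q)) ≠ 0 :=
      mul_ne_zero (inv_ne_zero hcard) (mul_ne_zero (inv_ne_zero h2) (F.c.ne _ _))
    exact (mul_eq_zero.1 h1).resolve_right h3
  obtain ⟨F', hF'⟩ := exists_tfam T' hind hmul
  refine ⟨F', ?_, ?_⟩
  · intro g
    obtain ⟨ω, hω, h1⟩ := hA g
    exact ⟨ω, hω, by rw [hF']; exact h1⟩
  · intro a b ha hb
    obtain ⟨ωa, hωa, h1⟩ := hA a
    obtain ⟨ωb, hωb, h2⟩ := hA b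
    have hab : (a * b : Q₁) = b * a := Subtype.ext (hR.comm a ha b hb)
    have h3 := hprod a b
    have h4 := hprod b a
    rw [← hab] at h4
    rw [h1, h2, ← hF', Matrix.smul_mul, Matrix.mul_smul, F'.mul, smul_smul, smul_smul] at h3
    rw [h1, h2, ← hF', Matrix.smul_mul, Matrix.mul_smul, F'.mul, smul_smul, smul_smul] at h4
    have h5 : ((b : Q₁ ⧸ R.subgroupOf Q₁) * (a : Q₁ ⧸ R.subgroupOf Q₁)) =
        (a : Q₁ ⧸ R.subgroupOf Q₁) * (b : Q₁ ⧸ R.subgroupOf Q₁) := by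
      rw [← QuotientGroup.mk_mul, ← QuotientGroup.mk_mul, hab]
    rw [h5] at h4
    have hne : F'.T ((a : Q₁ ⧸ R.subgroupOf Q₁) * (b : Q₁ ⧸ R.subgroupOf Q₁)) ≠ 0 :=
      F'.indep.ne_zero _
    have h6 : (F.c.a b a * (ωa * ωb * F'.c.a (a : Q₁ ⧸ R.subgroupOf Q₁)
        (b : Q₁ ⧸ R.subgroupOf Q₁))) •
          F'.T ((a : Q₁ ⧸ R.subgroupOf Q₁) * (b : Q₁ ⧸ R.subgroupOf Q₁)) =
        (F.c.a a b * (ωb * ωa * F'.c.a (b : Q₁ ⧸ R.subgroupOf Q₁)
        (a : Q₁ ⧸ R.subgroupOf Q₁))) •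
          F'.T ((a : Q₁ ⧸ R.subgroupOf Q₁) * (b : Q₁ ⧸ R.subgroupOf Q₁)) := by
      rw [← smul_smul (F.c.a b a), ← smul_smul (F.c.a a b), h3, h4, smul_smul, smul_smul, mul_comm]
    have h7 := smul_left_injective ℂ hne h6
    have h8 : (ωa * ωb) * (F'.c.a (a : Q₁ ⧸ R.subgroupOf Q₁) (b : Q₁ ⧸ R.subgroupOf Q₁) *
        F.c.a b a) = (ωa * ωb) * (F'.c.a (b : Q₁ ⧸ R.subgroupOf Q₁)
        (a : Q₁ ⧸ R.subgroupOf Q₁) * F.c.a a b) := by
      linear_combination h7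
    exact mul_left_cancel₀ (mul_ne_zero hωa hωb) h8

end

end MP0775d3.Solv
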