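import Mathlib

/-! Finite abelian groups have a symmetric nondegenerate bicharacter with a quadratic
refinement. -/

set_option linter.unusedSectionVars false

namespace MP0775d3.Solv

/-- The quadratic function on `ZMod m`. -/
private noncomputable def qf (m : ℕ) (x : ZMod m) : ℂ :=
  Complex.exp (Real.pi * Complex.I * ((m + 1) * (x.val : ℂ) ^ 2) / m)

private theorem exp_period (m : ℕ) (hm : (m : ℂ) ≠ 0) (z w : ℂ) (t : ℤ)
    (h : z = w + 2 * m * t) :
    Complex.exp (Real.pi * Complex.I * z / m) = Complex.exp (Real.pi * Complex.I * w / m) := by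
  rw [Complex.exp_eq_exp_iff_exists_int]
  refine ⟨t, ?_⟩
  rw [h]
  field_simp

private theorem qf_add (m : ℕ) [NeZero m] (x y : ZMod m) :
    qf m (x + y) = qf m x * qf m y * ZMod.stdAddChar (x * y) := by
  have hm : (m : ℂ) ≠ 0 := by exact_mod_cast NeZero.ne m
  obtain ⟨t, ht⟩ : ∃ t : ℤ, ((x + y).val : ℤ) = x.val + y.val - m * t := by
    refine ⟨((x.val + y.val) / m : ℕ), ?_⟩
    rw [ZMod.val_add]
    have h := Nat.mod_add_div (x.val + y.val) m
    have h' : (((x.val + y.val) % m : ℕ) : ℤ) + m * ((x.val + y.val) / m : ℕ) =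
        x.val + y.val := by exact_mod_cast h
    linarith
  obtain ⟨k, hk⟩ : ∃ k : ℤ, (m : ℤ) * (m + 1) = 2 * k := by
    obtain ⟨k, hk⟩ := Int.even_mul_succ_self (m : ℤ)
    exact ⟨k, by rw [hk]; ring⟩
  have hB : (ZMod.stdAddChar (x * y) : ℂ) =
      Complex.exp (Real.pi * Complex.I * (2 * (x.val * y.val)) / m) := by
    have h1 : x * y = (((x.val : ℤ) * (y.val : ℤ) : ℤ) : ZMod m) := by
      push_cast
      rw [ZMod.natCast_zmod_val, ZMod.natCast_zmod_val]
    rw [h1, ZMod.stdAddChar_coe]
    congr 1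
    push_cast
    ring
  rw [hB]
  unfold qf
  rw [← Complex.exp_add, ← Complex.exp_add, ← add_div, ← add_div, ← mul_add, ← mul_add]
  refine exp_period m hm _ _ ((x.val : ℤ) * y.val - (m + 1) * (x.val + y.val) * t + k * t ^ 2) ?_
  have hc : ((x + y).val : ℂ) = x.val + y.val - m * t := by exact_mod_cast congrArg (Int.cast (R := ℂ)) ht
  have hkc : (m : ℂ) * (m + 1) = 2 * k := by exact_mod_cast congrArg (Int.cast (R := ℂ)) hk
  rw [hc]
  push_cast
  linear_combination (m * t ^ 2 : ℂ) * hkc

/-- PROOF. By the structure theorem (`AddCommGroup.equiv_directSum_zmod_of_finite` for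
`Additive W`, see the beginning of the proof of `inv_dec` in `Kron/Invariant.lean`) it is enough to
do a product of groups `ZMod m i`, `m i ≠ 0` (products of `B`s and of `q`s), that is one `ZMod m`
(with `m ≠ 0`). There, with `x = ZMod.val`, `B x y = exp (2 π i x y / m)`,
`q x = exp (π i (m + 1) x ^ 2 / m)`: the exponent of `q` at `x + m t` differs from the one at `x` by
`π i (m + 1) t (2 x + m t)`, that is by `2 π i (m + 1) t x + π i m (m + 1) t ^ 2`, a multiple of
`2 π i`, so that `q` is the function `exp (π i (m + 1) k ^ 2 / m)` of any integer `k` in the class;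
`q (x + y) / (q x q y) = exp (2 π i (m + 1) x y / m) = exp (2 π i x y / m)`. Nondegenerate: take
`y = 1`. (Or use `ZMod.toCircle` / `ZMod.stdAddChar` for `B`.) -/
theorem exists_bichar (W : Type) [Group W] [Finite W] (hW : ∀ a b : W, a * b = b * a) :
    ∃ (B : W → W → ℂ) (q : W → ℂ), (∀ x, q x ≠ 0) ∧ (∀ x y z, B (x * y) z = B x z * B y z) ∧
      (∀ x y, B x y = B y x) ∧ (∀ x y, B x y ≠ 0) ∧ (∀ x, (∀ y, B x y = 1) → x = 1) ∧
      (∀ x y, q (x * y) = q x * q y * B x y) := by
  classical
  let _ : CommGroup W := { ‹Group W› with mul_comm := hW }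
  obtain ⟨ι, _, p, hp, e, ⟨φ₀⟩⟩ := AddCommGroup.equiv_directSum_zmod_of_finite (Additive W)
  let φ : Additive W ≃+ ∀ i, ZMod (p i ^ e i) :=
    φ₀.trans (DirectSum.addEquivProd fun i => ZMod (p i ^ e i))
  have hne : ∀ i, NeZero (p i ^ e i) := fun i => ⟨pow_ne_zero _ (hp i).ne_zero⟩
  have hmul : ∀ (x y : W) (i : ι), φ (Additive.ofMul (x * y)) i =
      φ (Additive.ofMul x) i + φ (Additive.ofMul y) i := by
    intro x y i
    rw [ofMul_mul, map_add, Pi.add_apply]
  refine ⟨fun x y => ∏ i, (ZMod.stdAddChar (φ (Additive.ofMul x) i * φ (Additive.ofMul y) i) : ℂ),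
    fun x => ∏ i, qf (p i ^ e i) (φ (Additive.ofMul x) i), ?_, ?_, ?_, ?_, ?_, ?_⟩
  · intro x
    exact Finset.prod_ne_zero_iff.2 fun i _ => Complex.exp_ne_zero _
  · intro x y z
    beta_reduce
    rw [← Finset.prod_mul_distrib]
    refine Finset.prod_congr rfl fun i _ => ?_
    rw [hmul, add_mul, AddChar.map_add_eq_mul]
  · intro x y
    exact Finset.prod_congr rfl fun i _ => by rw [mul_comm]
  · intro x y
    refine Finset.prod_ne_zero_iff.2 fun i _ => ?_
    rw [ZMod.stdAddChar_apply]
    exact Circle.coe_ne_zero _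
  · intro x hx
    have h1 : ∀ i, φ (Additive.ofMul x) i = 0 := by
      intro i
      have h2 := hx (φ.symm (Pi.single i 1)).toMul
      beta_reduce at h2
      rw [ofMul_toMul, AddEquiv.apply_symm_apply] at h2
      rw [Finset.prod_eq_single i] at h2
      · rw [Pi.single_eq_same, mul_one] at h2
        apply ZMod.injective_stdAddChar
        rw [h2, AddChar.map_zero_eq_one]
      · intro j _ hj
        rw [Pi.single_eq_of_ne hj, mul_zero, AddChar.map_zero_eq_one]
      · intro h
        exact absurd (Finset.mem_univ i) h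
    have h2 : φ (Additive.ofMul x) = 0 := funext h1
    rw [map_eq_zero_iff φ φ.injective] at h2
    exact Additive.ofMul.injective h2
  · intro x y
    beta_reduce
    rw [← Finset.prod_mul_distrib, ← Finset.prod_mul_distrib]
    refine Finset.prod_congr rfl fun i _ => ?_
    rw [hmul, qf_add]

end MP0775d3.Solv
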