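import Mathlib

/-! Characters of finite abelian groups and nondegenerate pairings. -/

set_option linter.unusedSectionVars false

namespace MP0775d3.Solv

section
variable {W : Type} [Group W] [Finite W]

/-- PROOF. `χ w₀ ∑ χ w = ∑ χ w`. -/
theorem char_sum [Fintype W] (χ : W → ℂ) (hmul : ∀ v w, χ (v * w) = χ v * χ w)
    (hne : ∃ w, χ w ≠ 1) : ∑ w, χ w = 0 := by
  obtain ⟨w0, h0⟩ := hne
  have h1 : χ w0 * ∑ w, χ w = ∑ w, χ w := by
    rw [Finset.mul_sum, ← Equiv.sum_comp (Equiv.mulLeft w0) χ]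
    exact Finset.sum_congr rfl fun w _ => by rw [Equiv.coe_mulLeft, hmul]
  have h2 : (χ w0 - 1) * ∑ w, χ w = 0 := by
    rw [sub_mul, h1, one_mul, sub_self]
  rcases mul_eq_zero.1 h2 with h | h
  · exact absurd (sub_eq_zero.1 h) h0
  · exact h

/-- Every character comes from the pairing. PROOF. The characters `W → ℂ` (multiplicative, `1` at
`1`) are linearly independent (`linearIndependent_monoidHom`), so any finite set of them has at most
`|W|` elements. The characters `B s` are different (nondegeneracy), so they are `|W|` characters and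
if `χ` were none of them there would be `|W| + 1`. -/
theorem char_eq (B : W → W → ℂ) (hl : ∀ x y z, B (x * y) z = B x z * B y z)
    (hr : ∀ x y z, B x (y * z) = B x y * B x z) (h0 : ∀ x y, B x y ≠ 0)
    (hn : ∀ x, (∀ y, B x y = 1) → x = 1) (χ : W → ℂ) (h1 : χ 1 = 1)
    (hmul : ∀ v w, χ (v * w) = χ v * χ w) : ∃ s, ∀ w, χ w = B s w := by
  have : Fintype W := Fintype.ofFinite W
  have hB1 : ∀ x, B x 1 = 1 := by
    intro x
    have := hr x 1 1
    rw [mul_one] at this
    exact (mul_right_eq_self₀.1 this.symm).resolve_right (h0 x 1)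
  let F : Option W → (W →* ℂ) := fun o => o.elim
    ⟨⟨χ, h1⟩, hmul⟩ (fun x => ⟨⟨B x, hB1 x⟩, hr x⟩)
  by_contra hcon
  push Not at hcon
  have hF : Function.Injective F := by
    intro o o' h
    have h' : ∀ w, F o w = F o' w := fun w => by rw [h]
    rcases o with _ | x <;> rcases o' with _ | x'
    · rfl
    · exfalso
      obtain ⟨w, hw⟩ := hcon x'
      exact hw (h' w)
    · exfalso
      obtain ⟨w, hw⟩ := hcon x
      exact hw (h' w).symm
    · have h2 : x * x'⁻¹ = 1 := by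
        apply hn
        intro y
        have h3 := hl (x * x'⁻¹) x' y
        rw [inv_mul_cancel_right] at h3
        have h4 : B x y = B x' y := h' y
        rw [h4] at h3
        exact (mul_eq_right₀ (h0 x' y)).1 h3.symm
      rw [mul_inv_eq_one.1 h2]
  have hli := (linearIndependent_monoidHom W ℂ).comp F hF
  have h3 := hli.fintype_card_le_finrank
  rw [Fintype.card_option, Module.finrank_fintype_fun_eq_card] at h3
  omega

/-- PROOF. In the finite abelian group `W ⧸ V` the class of `a` is not trivial; there is a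
character of `W ⧸ V` different from `1` at it (`CommGroup.exists_apply_ne_one_of_hasEnoughRootsOfUnity`
over `ℂ`). -/
theorem exists_sep (hW : ∀ a b : W, a * b = b * a) (V : Subgroup W) (a : W) (ha : a ∉ V) :
    ∃ χ : W → ℂ, χ 1 = 1 ∧ (∀ v w, χ (v * w) = χ v * χ w) ∧ (∀ v ∈ V, χ v = 1) ∧ χ a ≠ 1 := by
  let _ : CommGroup W := { (inferInstance : Group W) with mul_comm := hW }
  have ha' : (QuotientGroup.mk a : W ⧸ V) ≠ 1 := by
    rw [Ne, QuotientGroup.eq_one_iff]
    exact ha
  have : NeZero (Monoid.exponent (W ⧸ V)) := ⟨Monoid.exponent_ne_zero_of_finite⟩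
  obtain ⟨φ, hφ⟩ := CommGroup.exists_apply_ne_one_of_hasEnoughRootsOfUnity (W ⧸ V) ℂ ha'
  refine ⟨fun w => (φ (QuotientGroup.mk w) : ℂ), ?_, ?_, ?_, ?_⟩
  · simp only [QuotientGroup.mk_one, map_one, Units.val_one]
  · intro v w
    simp only [QuotientGroup.mk_mul, map_mul, Units.val_mul]
  · intro v hv
    have : (QuotientGroup.mk v : W ⧸ V) = 1 := (QuotientGroup.eq_one_iff v).2 hv
    simp only [this, map_one, Units.val_one]
  · intro h
    exact hφ (Units.ext h)

/-- PROOF. Otherwise take `χ` from `exists_sep`, `χ = B s` by `char_eq`: contradiction. -/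
theorem perp_perp (hW : ∀ a b : W, a * b = b * a) (B : W → W → ℂ)
    (hl : ∀ x y z, B (x * y) z = B x z * B y z) (hr : ∀ x y z, B x (y * z) = B x y * B x z)
    (h0 : ∀ x y, B x y ≠ 0) (hn : ∀ x, (∀ y, B x y = 1) → x = 1) (V : Subgroup W) (a : W)
    (h : ∀ b, (∀ v ∈ V, B b v = 1) → B b a = 1) : a ∈ V := by
  by_contra ha
  obtain ⟨χ, h1, h2, h3, h4⟩ := exists_sep hW V a ha
  obtain ⟨t, ht⟩ := char_eq B hl hr h0 hn χ h1 h2
  apply h4
  rw [ht]
  exact h t fun v hv => by rw [← ht, h3 v hv]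

/-- PROOF. `B b c = B b (σ c)` and `B b c = B (σ b) (σ c)`, so `B (b * (σ b)⁻¹) (σ c) = 1` for
all `c`. -/
theorem fix_of_perp (B : W → W → ℂ)
    (hl : ∀ x y z, B (x * y) z = B x z * B y z) (hr : ∀ x y z, B x (y * z) = B x y * B x z)
    (h0 : ∀ x y, B x y ≠ 0) (hn : ∀ x, (∀ y, B x y = 1) → x = 1) (σ : W ≃* W)
    (hσ : ∀ x y, B (σ x) (σ y) = B x y) (b : W) (h : ∀ c, B b (c * (σ c)⁻¹) = 1) : σ b = b := by
  have hB1 : ∀ x, B x 1 = 1 := by
    intro x
    have := hr x 1 1
    rw [mul_one] at this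
    exact (mul_right_eq_self₀.1 this.symm).resolve_right (h0 x 1)
  have h1 : ∀ c, B b c = B b (σ c) := by
    intro c
    have h2 := hr b (c * (σ c)⁻¹) (σ c)
    rw [inv_mul_cancel_right, h c, one_mul] at h2
    exact h2
  have h2 : b * (σ b)⁻¹ = 1 := by
    apply hn
    intro y
    have h3 := hl (b * (σ b)⁻¹) (σ b) (σ (σ.symm y))
    rw [inv_mul_cancel_right, hσ, ← h1] at h3
    rw [MulEquiv.apply_symm_apply] at h3
    exact (mul_eq_right₀ (h0 b (σ.symm y))).1 h3.symm
  exact (mul_inv_eq_one.1 h2).symm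

/-- PROOF. `perp_perp` for `V = {c * (σ c)⁻¹}` (a subgroup, `W` is abelian) and `fix_of_perp`. -/
theorem mem_range_of_perp (hW : ∀ a b : W, a * b = b * a) (B : W → W → ℂ)
    (hl : ∀ x y z, B (x * y) z = B x z * B y z) (hr : ∀ x y z, B x (y * z) = B x y * B x z)
    (h0 : ∀ x y, B x y ≠ 0) (hn : ∀ x, (∀ y, B x y = 1) → x = 1) (σ : W ≃* W)
    (hσ : ∀ x y, B (σ x) (σ y) = B x y) (a : W) (h : ∀ b, σ b = b → B b a = 1) :
    ∃ c, a = c * (σ c)⁻¹ := by
  let V : Subgroup W :=
    { carrier := {x | ∃ c, x = c * (σ c)⁻¹}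
      one_mem' := ⟨1, by simp⟩
      mul_mem' := by
        rintro _ _ ⟨c, rfl⟩ ⟨d, rfl⟩
        refine ⟨c * d, ?_⟩
        rw [map_mul, mul_inv_rev, hW (σ d)⁻¹ (σ c)⁻¹, mul_assoc c d, ← mul_assoc d,
          hW d (σ c)⁻¹]
        simp only [mul_assoc]
      inv_mem' := by
        rintro _ ⟨c, rfl⟩
        refine ⟨c⁻¹, ?_⟩
        rw [map_inv, inv_inv, mul_inv_rev, inv_inv, hW] }
  have h1 : a ∈ V := by
    apply perp_perp hW B hl hr h0 hn V a
    intro b hb
    apply h b
    apply fix_of_perp B hl hr h0 hn σ hσ b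
    intro c
    exact hb _ ⟨c, rfl⟩
  exact h1

end

end MP0775d3.Solv
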