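import Pool.Agent.Lib.MP_0775d3_lc.Solv.Defs
import Pool.Agent.Lib.MP_0775d3_lc.Solv.Bichar
import Pool.Agent.Lib.MP_0775d3_lc.Solv.Pair
import Pool.Agent.Lib.MP_0775d3_lc.Sl2.GroupDec

/-! Fourier matrices of finite abelian groups. -/

set_option linter.unusedSectionVars false

namespace MP0775d3.Solv

open Matrix MP0775d3.Sl2

/-- The decomposition for a large group. -/
private theorem fourier_large (δ γ C : ℝ)
    (hmain : ∀ (Γ : Type) [CommGroup Γ] [Finite Γ] (Z : Subgroup Γ) (h : Γ → ℂ)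
      (_ : ∀ z ∈ Z, ∀ g, h (z * g) = h g)
      (X Y : Type) [Fintype X] [Fintype Y] (α : X → Γ) (β : Y → Γ) (t : ℝ) (_ : 0 ≤ t)
      (_ : ∀ x₀, (({x | α x * (α x₀)⁻¹ ∈ Z} : Set X).ncard : ℝ) ≤ t)
      (_ : ∀ y₀, (({y | β y * (β y₀)⁻¹ ∈ Z} : Set Y).ncard : ℝ) ≤ t),
      RDec (Matrix.of fun x y => h (α x * (β y)⁻¹))
        (C * ((Nat.card Γ : ℝ) / (Nat.card Z : ℝ)) ^ (1 - γ))
        (t * ((Nat.card Γ : ℝ) / (Nat.card Z : ℝ)) ^ δ))
    (W : Type) [CommGroup W] [Fintype W] (X : Type) [Fintype X] (q : W → ℂ) (s : X → W)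
    (hs : Function.Injective s) :
    RDec (Matrix.of fun (w : W) (x : X) => q (w * s x)) (C * (Nat.card W : ℝ) ^ (1 - γ))
      ((Nat.card W : ℝ) ^ δ) := by
  have h := hmain W (⊥ : Subgroup W) q (fun z hz g => by
    rw [Subgroup.mem_bot] at hz
    rw [hz, one_mul]) W X id (fun x => (s x)⁻¹) 1 zero_le_one (fun x₀ => by
      have : ({x | id x * (id x₀)⁻¹ ∈ (⊥ : Subgroup W)} : Set W) = {x₀} := by
        ext x
        rw [Set.mem_ofPred_eq, Subgroup.mem_bot, id, id, mul_inv_eq_one, Set.mem_singleton_iff]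
      rw [this, Set.ncard_singleton, Nat.cast_one]) (fun y₀ => by
      have : ({y | (s y)⁻¹ * ((s y₀)⁻¹)⁻¹ ∈ (⊥ : Subgroup W)} : Set X) = {y₀} := by
        ext y
        rw [Set.mem_ofPred_eq, Subgroup.mem_bot, mul_inv_eq_one, _root_.inv_inj, hs.eq_iff,
          Set.mem_singleton_iff]
      rw [this, Set.ncard_singleton, Nat.cast_one])
  have hz : ((Nat.card (⊥ : Subgroup W) : ℕ) : ℝ) = 1 := by
    rw [Subgroup.card_bot, Nat.cast_one]
  rw [hz, div_one, one_mul] at h
  simpa using h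

/-- PROOF. `B`, `q` from `exists_bichar`. By `char_eq`, `χ x = B (s x)`, `s` injective since `χ` is.
`χ x w = B (s x) w = q (s x * w) / (q (s x) * q w)`: row and column factors (`RDec.diag`) and the
group matrix `q (w * s x)`: `group_dec` with `Γ = W` (a `CommGroup` instance from `hW`), `Z = ⊥`,
`h = q`, `α = id`, `β x = (s x)⁻¹`, `t = 1`. This gives the bounds `C |W| ^ (1 - γ)`, `|W| ^ δ`. If
`|W| ≤ N ^ δ` the matrix is sparse itself (at most `|W|` nonzero entries in each row and column, as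
`X` has at most `|W|` elements because `s` is injective): rank bound `0`. Otherwise
`|W| ^ (-γ) ≤ N ^ (-γ δ)`. So `γ δ` is the new `γ`. -/
theorem fourier (δ : ℝ) (hδ : 0 < δ) (hδ1 : δ ≤ 1) : ∃ γ : ℝ, 0 < γ ∧ γ ≤ 1 ∧ ∃ C : ℝ, 1 ≤ C ∧
    ∀ (N : ℝ), 1 ≤ N → ∀ (W : Type) [Group W] [Finite W], (∀ a b : W, a * b = b * a) →
      (Nat.card W : ℝ) ≤ N → FBound W (C * N ^ (-γ)) (N ^ δ) := by
  obtain ⟨γ, hγ, hγ1, C, hC, hmain⟩ := group_dec δ hδ hδ1
  refine ⟨γ * δ, mul_pos hγ hδ, mul_le_one₀ hγ1 hδ.le hδ1, C, hC, ?_⟩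
  intro N hN W _ _ hW hcard _ X _ χ hχ1 hχmul hχinj
  obtain ⟨B, q, hq, hl, hsymm, hB0, hBn, hqB⟩ := exists_bichar W hW
  have hr : ∀ x y z, B x (y * z) = B x y * B x z := by
    intro x y z
    rw [hsymm x (y * z), hl, hsymm y x, hsymm z x]
  have hs : ∀ x, ∃ s, ∀ w, χ x w = B s w := fun x =>
    char_eq B hl hr hB0 hBn (χ x) (hχ1 x) (hχmul x)
  choose s hs using hs
  have hsinj : Function.Injective s := by
    intro x y hxy
    apply hχinj
    funext w
    rw [hs, hs, hxy]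
  have hN0 : 0 < N := by linarith
  have hn1 : (1 : ℝ) ≤ Nat.card W := by
    have : 0 < Nat.card W := Nat.card_pos
    exact_mod_cast this
  have hn0 : (0 : ℝ) < Nat.card W := by linarith
  rcases le_or_gt (Nat.card W : ℝ) (N ^ δ) with hcase | hcase
  · -- the matrix is sparse
    refine ⟨0, _, (zero_add _).symm, ?_, ?_, ?_⟩
    · rw [Matrix.rank_zero, Nat.cast_zero]
      positivity
    · intro w
      refine le_trans ?_ hcase
      have h1 : ({y | (Matrix.of fun (w : W) (x : X) => χ x w) w y ≠ 0} : Set X).ncard ≤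
          Nat.card X := by
        rw [← Set.ncard_univ]
        exact Set.ncard_le_ncard (Set.subset_univ _) (Set.toFinite _)
      have h2 : Nat.card X ≤ Nat.card W := Nat.card_le_card_of_injective s hsinj
      exact_mod_cast h1.trans h2
    · intro x
      refine le_trans ?_ hcase
      have h1 : ({w | (Matrix.of fun (w : W) (x : X) => χ x w) w x ≠ 0} : Set W).ncard ≤
          Nat.card W := by
        rw [← Set.ncard_univ]
        exact Set.ncard_le_ncard (Set.subset_univ _) (Set.toFinite _)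
      exact_mod_cast h1
  · let _ : CommGroup W := { ‹Group W› with mul_comm := hW }
    have h := (fourier_large δ γ C hmain W X q s hsinj).diag (fun w => (q w)⁻¹)
      (fun x => (q (s x))⁻¹)
    have hE : (Matrix.of fun (w : W) (x : X) => (q w)⁻¹ *
        (Matrix.of fun (w : W) (x : X) => q (w * s x)) w x * (q (s x))⁻¹) =
        Matrix.of fun (w : W) (x : X) => χ x w := by
      ext w x
      rw [Matrix.of_apply, Matrix.of_apply, Matrix.of_apply, hqB, hs, hsymm w (s x)]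
      field_simp [hq w, hq (s x)]
    rw [hE] at h
    refine h.mono ?_ ?_
    · have e1 : (Nat.card W : ℝ) ^ (1 - γ) = Nat.card W * (Nat.card W : ℝ) ^ (-γ) := by
        rw [sub_eq_add_neg, Real.rpow_add hn0, Real.rpow_one]
      have e2 : (Nat.card W : ℝ) ^ (-γ) ≤ (N ^ δ) ^ (-γ) :=
        Real.rpow_le_rpow_of_nonpos (by positivity) hcase.le (by linarith)
      have e3 : (N ^ δ) ^ (-γ) = N ^ (-(γ * δ)) := by
        rw [← Real.rpow_mul hN0.le]
        congr 1
        ring
      rw [e3] at e2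
      rw [e1]
      calc C * ((Nat.card W : ℝ) * (Nat.card W : ℝ) ^ (-γ))
          ≤ C * ((Nat.card W : ℝ) * N ^ (-(γ * δ))) := by
            apply mul_le_mul_of_nonneg_left _ (by linarith)
            exact mul_le_mul_of_nonneg_left e2 hn0.le
        _ = (Nat.card W : ℝ) * (C * N ^ (-(γ * δ))) := by ring
    · exact Real.rpow_le_rpow hn0.le hcard hδ.le

end MP0775d3.Solv
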