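import Pool.Agent.Lib.MP_0775d3_lc.Solv.StepTwo

/-! The nondegenerate step: the bound. -/

set_option linter.unusedSectionVars false

namespace MP0775d3.Solv

open Matrix MP0775d3.Sl2

section aux
variable {Q : Type} [Group Q] {A : Subgroup Q} [A.Normal]

/-- The part in `A` of an element of the coset of `x.out`. -/
private noncomputable def bp (A : Subgroup Q) [A.Normal] (g : Q) : A :=
  ⟨g * ((g : Q ⧸ A).out)⁻¹, by
    rw [← QuotientGroup.eq_one_iff, QuotientGroup.mk_mul, QuotientGroup.mk_inv,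
      QuotientGroup.out_eq', mul_inv_cancel]⟩

private theorem bp_mul (g : Q) : (bp A g : Q) * (g : Q ⧸ A).out = g := by
  rw [bp, inv_mul_cancel_right]

private theorem bp_inj {g h : Q} (h1 : (g : Q ⧸ A) = (h : Q ⧸ A)) (h2 : bp A g = bp A h) :
    g = h := by
  rw [← bp_mul (A := A) g, ← bp_mul (A := A) h, h1, h2]

private theorem mk_mul_out (a : A) (x : Q ⧸ A) : (((a : Q) * x.out : Q) : Q ⧸ A) = x := by
  rw [QuotientGroup.mk_mul, QuotientGroup.out_eq', (QuotientGroup.eq_one_iff _).mpr a.2, one_mul]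

private theorem bp_mul_out (a : A) (x : Q ⧸ A) : bp A ((a : Q) * x.out) = a := by
  apply Subtype.ext
  rw [bp]
  simp only
  rw [mk_mul_out, mul_inv_cancel_right]

/-- The matrices `U`, `U'`. -/
private theorem bound_U [Fintype Q] [Fintype A] [Fintype (Q ⧸ A)] [DecidableEq (Q ⧸ A)]
    (κ : Q ⧸ A → A → A → ℂ) (ρ τ : ℝ) (hτ : 0 ≤ τ)
    (hB : ∀ x, RDec (Matrix.of (κ x)) (Nat.card A * ρ) τ) (u : A × (Q ⧸ A) → ℂ) (v : Q → ℂ) :
    RDec (Matrix.of fun (j : A × (Q ⧸ A)) (g : Q) =>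
      if (g : Q ⧸ A) = j.2 then u j * κ j.2 j.1 (bp A g) * v g else 0) (Nat.card Q * ρ) τ := by
  have h := rdec_blocks' (Matrix.of fun (j : A × (Q ⧸ A)) (g : Q) =>
      if (g : Q ⧸ A) = j.2 then u j * κ j.2 j.1 (bp A g) * v g else 0) Prod.snd
      (fun g : Q => (g : Q ⧸ A)) ?_ (fun _ => Nat.card A * ρ) τ hτ (fun _ => A) (fun _ => A)
      (fun x => Matrix.of (κ x)) hB (fun _ j => j.1) (fun _ g => bp A g) ?_ ?_ u v ?_
  · have h1 : ∑ _x : Q ⧸ A, (Nat.card A : ℝ) * ρ = Nat.card Q * ρ := by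
      rw [Finset.sum_const, nsmul_eq_mul, Finset.card_univ, ← Nat.card_eq_fintype_card,
        ← mul_assoc, ← Nat.cast_mul, ← Subgroup.card_eq_card_quotient_mul_card_subgroup]
    rw [h1] at h
    exact h
  · intro j g hjg
    rw [Matrix.of_apply, if_neg fun hc => hjg hc.symm]
  · rintro i ⟨a, x⟩ ⟨a', x'⟩ h1 h2 h3
    exact Prod.ext h3 (h1.trans h2.symm)
  · intro i g g' h1 h2 h3
    exact bp_inj (h1.trans h2.symm) h3
  · rintro i ⟨a, x⟩ g h1 h2
    simp only at h1 h2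
    subst h1
    rw [Matrix.of_apply, Matrix.of_apply, if_pos h2]

/-- The matrix `D`. -/
private theorem bound_D [Fintype A] [DecidableEq A] [Fintype (Q ⧸ A)] {X : Type} [Fintype X]
    (K : Matrix X X ℂ) (r σ : ℝ) (hσ : 0 ≤ σ) (hK : RDec K r σ) :
    RDec (Matrix.of fun (j' j : A × X) => if j'.1 = j.1 then K j'.2 j.2 else 0)
      (Nat.card A * r) σ := by
  have h := rdec_blocks' (Matrix.of fun (j' j : A × X) =>
      if j'.1 = j.1 then K j'.2 j.2 else 0) Prod.fst Prod.fst ?_ (fun _ => r) σ hσ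
      (fun _ => X) (fun _ => X) (fun _ => K) (fun _ => hK) (fun _ j => j.2) (fun _ j => j.2)
      ?_ ?_ (fun _ => 1) (fun _ => 1) ?_
  · rw [Finset.sum_const, nsmul_eq_mul, Finset.card_univ, ← Nat.card_eq_fintype_card] at h
    exact h
  · intro j j' hj
    rw [Matrix.of_apply, if_neg hj]
  · rintro i ⟨a, x⟩ ⟨a', x'⟩ h1 h2 h3
    exact Prod.ext (h1.trans h2.symm) h3
  · rintro i ⟨a, x⟩ ⟨a', x'⟩ h1 h2 h3
    exact Prod.ext (h1.trans h2.symm) h3
  · rintro i ⟨a, x⟩ ⟨a', x'⟩ h1 h2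
    rw [Matrix.of_apply, if_pos (h1.trans h2.symm), one_mul, mul_one]

private theorem sum_coset [Fintype Q] [Fintype A] {M : Type} [AddCommMonoid M] (x : Q ⧸ A)
    (f : Q → M) (h : ∀ g : Q, (g : Q ⧸ A) ≠ x → f g = 0) :
    ∑ g, f g = ∑ b : A, f ((b : Q) * x.out) := by
  symm
  refine Finset.sum_of_injOn (fun b : A => (b : Q) * x.out) ?_ (fun _ _ => Finset.mem_univ _)
    ?_ fun _ _ => rfl
  · intro b _ b' _ hb
    exact Subtype.ext (mul_right_cancel hb)
  · intro g _ hg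
    refine h g fun hx => hg ⟨bp A g, Finset.mem_coe.mpr (Finset.mem_univ _), ?_⟩
    simp only
    rw [← hx, bp_mul]

private theorem combine {V I J : Type} [AddCommGroup V] [Module ℂ V] [Fintype I] [Fintype J]
    {b : I → V} (hb : LinearIndependent ℂ b) {d : J → V} {φ : V →ₗ[ℂ] V} {M : Matrix I I ℂ}
    {D : Matrix J J ℂ} {U : Matrix I J ℂ} {U' : Matrix J I ℂ} {r r' s s' : ℝ} (hs : 0 ≤ s)
    (hs' : 0 ≤ s') (hU : RDec U r s) (hD : RDec D r' s') (hU' : RDec U' r s)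
    (h1 : ∀ i, φ (b i) = ∑ i', M i' i • b i') (h2 : ∀ j, φ (d j) = ∑ j', D j' j • d j')
    (h3 : ∀ j, d j = ∑ i, U i j • b i) (h4 : ∀ i, b i = ∑ j, U' j i • d j) :
    RDec M (r + r' + r) (s * s' * s) := by
  rw [change_basis b hb d φ M D U U' h1 h2 h3 h4]
  exact RDec.mul (mul_nonneg hs hs') hs (RDec.mul hs hs' hU hD) hU'

section
variable [Fintype Q] [DecidableEq Q] {F : TFam Q Q}

/-- The coefficient of `proj ((T a)⁻¹ * T g)`. -/
private noncomputable def cf (F : TFam Q Q) (A : Subgroup Q) [A.Normal]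
    (κ : Q ⧸ A → A → A → ℂ) (a : A) (g : Q) : ℂ :=
  (F.c.a (bp A g) (g : Q ⧸ A).out)⁻¹ * κ (g : Q ⧸ A) a (bp A g)

private theorem proj_cf {F' : TFam (Q ⧸ A) Q} {κ : Q ⧸ A → A → A → ℂ}
    (hp : ∀ x (a b : A), proj F A ((F.T a)⁻¹ * F.T b * F.T x.out) = κ x a b • F'.T x)
    (a : A) (g : Q) :
    proj F A ((F.T a)⁻¹ * F.T g) = cf F A κ a g • F'.T (g : Q ⧸ A) := by
  have h1 : F.T g = (F.c.a (bp A g) (g : Q ⧸ A).out)⁻¹ •
      (F.T (bp A g) * F.T (g : Q ⧸ A).out) := by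
    rw [F.mul, smul_smul, inv_mul_cancel₀ (F.c.ne _ _), one_smul, bp_mul]
  rw [cf, mul_smul, ← hp, ← proj_smul]
  conv_lhs => rw [h1]
  rw [Matrix.mul_smul, Matrix.mul_assoc]

private theorem proj_T (hR : Reg F A) {F' : TFam (Q ⧸ A) Q} {κ : Q ⧸ A → A → A → ℂ}
    (hp : ∀ x (a b : A), proj F A ((F.T a)⁻¹ * F.T b * F.T x.out) = κ x a b • F'.T x)
    (g : Q) : ∃ s : ℂ, proj F A (F.T g) = s • F'.T (g : Q ⧸ A) := by
  have h1 := proj_cf hp (1 : A) g
  have h2 : F.T (1 : Q) * (F.T (1 : Q))⁻¹ = 1 :=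
    Matrix.mul_nonsing_inv _ ((Matrix.isUnit_iff_isUnit_det _).mp (hR.unit 1))
  have h3 : (F.T (1 : Q))⁻¹ = (F.c.a 1 1)⁻¹ • (1 : Matrix Q Q ℂ) := by
    rw [hR.one, Matrix.smul_mul, Matrix.one_mul] at h2
    rw [← h2, smul_smul, inv_mul_cancel₀ (F.c.ne _ _), one_smul, ← hR.one]
  rw [OneMemClass.coe_one, h3, Matrix.smul_mul, Matrix.one_mul, proj_smul] at h1
  refine ⟨F.c.a 1 1 * cf F A κ 1 g, ?_⟩
  rw [mul_smul, ← h1, smul_smul, mul_inv_cancel₀ (F.c.ne _ _), one_smul]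

/-- `z` in the new family. -/
private theorem exists_coeff [Fintype (Q ⧸ A)] (hR : Reg F A) {F' : TFam (Q ⧸ A) Q}
    {κ : Q ⧸ A → A → A → ℂ}
    (hp : ∀ x (a b : A), proj F A ((F.T a)⁻¹ * F.T b * F.T x.out) = κ x a b • F'.T x)
    (hw : ∀ x, ∃ w : Q → ℂ, F'.T x = ∑ h, w h • F.T h) (c : Q → ℂ) (hc : Central F.c c) :
    ∃ c' : Q ⧸ A → ℂ, ∑ x, c x • F.T x = ∑ x, c' x • F'.T x ∧ Central F'.c c' := by
  classical
  have hz := F.comm_of_central c hc
  choose s hs using proj_T hR hp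
  have h1 : ∑ x, c x • F.T x = ∑ x : Q ⧸ A,
      (∑ g : Q, if (g : Q ⧸ A) = x then c g * s g else 0) • F'.T x := by
    rw [← proj_fix hR (∑ x, c x • F.T x) fun b _ => (hz b).symm, proj_sum]
    simp_rw [Finset.sum_smul]
    rw [Finset.sum_comm]
    refine Finset.sum_congr rfl fun g _ => ?_
    rw [proj_smul, hs, smul_smul, Finset.sum_eq_single (g : Q ⧸ A)]
    · rw [if_pos rfl]
    · intro x _ hx
      rw [if_neg fun h => hx h.symm, zero_smul]
    · intro h
      exact absurd (Finset.mem_univ _) h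
  refine ⟨_, h1, F'.central _ ?_⟩
  intro y
  rw [← h1]
  obtain ⟨w, hw⟩ := hw y
  rw [hw, Finset.mul_sum, Finset.sum_mul]
  refine Finset.sum_congr rfl fun g _ => ?_
  rw [Matrix.mul_smul, hz, Matrix.smul_mul]

end

end aux

/-- PROOF. `F` from `exists_reg` for `α`, so `F.c = α` and `tmat α c = ∑ c x • F.T x =: z`, which
commutes with all `F.T y` (`comm_of_central`). `F'`, `κ` from `exists_fam`. As `z` commutes with the
`F.T a`, `z = proj z` (`proj_fix`) `= ∑ c g • proj (F.T g)`, and each `proj (F.T g)` is a multiple of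
`F'.T (class of g)` (write `g = b * x.out`; `F.T g` is a multiple of `(F.T 1)⁻¹ * F.T b * F.T x.out`), so
`z = ∑ c' x • F'.T x`; `c'` is central (`TFam.central`: `F'.T y` is a combination of `F.T h`s). Apply
`change_basis` with `V` = matrices, `b = F.T`, `J = A × (Q ⧸ A)`, `d (a, x) = F.T a * F'.T x`,
`φ` = left multiplication by `z`, `M = tmat α c` (`TFam.sum_mul`),
`D ((a', x'), (a, x)) = if a' = a then tmat F'.c c' x' x else 0` (`z` commutes with `F.T a`, then
`sum_mul` for `F'`). For `g` in the coset `x` put `b = g * x.out⁻¹ ∈ A` and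
`p a g = (α.a b x.out)⁻¹ * κ x a b`, so that `proj ((F.T a)⁻¹ * F.T g) = p a g • F'.T x`; then
`U' ((a, x), g) = p a g` if `g` is in `x`, else `0`: `h4` is `proj_expand`. And
`U (g, (a, x)) = (m x)⁻¹ * (p a g)⁻¹` if `g` is in `x`, else `0`, where `m x` is the number of
`a'` with `κ x a' 1 ≠ 0` (not zero, otherwise `κ x = 0` by `r2` and `F.T x.out = 0` by `proj_expand`).
`h3`: insert `h4` in `∑ g, U g (a, x) • F.T g` and use `Kap.orth`. Bounds: `U'` by `rdec_blocks'` over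
`x : Q ⧸ A` (blocks `κ x`, `Kap.rdec`, rank bound `|A| ρF` each, in all `|Q| ρF`); `U` the same with
`Kap.inv` and a transposition; `D` by `rdec_blocks'` over `a : A` (rank bound
`|Q ⧸ A| ρ` each, in all `|Q| ρ`). `RDec.mul` twice. -/
theorem step_two {Q : Type} [Group Q] [Finite Q] (α : Coc Q) (c : Q → ℂ) (hc : Central α c)
    (A : Subgroup Q) [A.Normal] (hA : ∀ a ∈ A, ∀ b ∈ A, a * b = b * a)
    (hn : ∀ a ∈ A, (∀ b ∈ A, α.a a b = α.a b a) → a = 1) (ρF τ ρ σ : ℝ) (hρF : 0 ≤ ρF)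
    (hτ : 0 ≤ τ) (hρ : 0 ≤ ρ) (hσ : 0 ≤ σ) (hF : ∀ V : Subgroup A, FBound V ρF τ)
    (hM : ∀ (α' : Coc (Q ⧸ A)) (c' : Q ⧸ A → ℂ), Central α' c' →
      TBound α' c' (Nat.card (Q ⧸ A) * ρ) σ) :
    TBound α c (Nat.card Q * (2 * ρF + ρ)) (τ * τ * σ) := by
  intro _inst
  classical
  have : Fintype (Q ⧸ A) := Fintype.ofFinite _
  obtain ⟨F, hFc, hreg, hunit, hone⟩ := exists_reg α
  subst hFc
  have hR : Reg F A := ⟨hunit, by rw [hone], inferInstance, hA⟩
  obtain ⟨F', κ, hκ, hp, hcomm, -, hw⟩ := exists_fam hR hn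
  obtain ⟨c', hz', hc'⟩ := exists_coeff hR hp hw c hc
  have hz := F.comm_of_central c hc
  have hU' := bound_U κ ρF τ hτ (fun x => (hκ x).rdec ρF τ hτ hF) (fun _ => 1)
    (fun g => (F.c.a (bp A g) (g : Q ⧸ A).out)⁻¹)
  have hU := (bound_U (fun x a b => (κ x a b)⁻¹) ρF τ hτ
    (fun x => (hκ x).inv.rdec ρF τ hτ hF)
    (fun j => ((({a | κ j.2 a 1 ≠ 0} : Set A).ncard : ℂ))⁻¹)
    (fun g => F.c.a (bp A g) (g : Q ⧸ A).out)).transpose
  have hD := bound_D (A := A) (tmat F'.c c') _ σ hσ (hM F'.c c' hc')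
  have h4' : ∀ (b : A) (x : Q ⧸ A), F.c.a b x.out • F.T ((b : Q) * x.out) =
      ∑ a : A, κ x a b • (F.T a * F'.T x) := by
    intro b x
    rw [← F.mul]
    conv_lhs => rw [proj_expand hR hn (F.T b * F.T x.out)]
    refine Finset.sum_congr rfl fun a _ => ?_
    rw [← Matrix.mul_assoc, hp, Matrix.mul_smul]
  have hm : ∀ x : Q ⧸ A, ((({a | κ x a 1 ≠ 0} : Set A).ncard : ℂ)) ≠ 0 := by
    intro x hx
    rw [Nat.cast_eq_zero, Set.ncard_eq_zero (Set.toFinite _)] at hx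
    have h5 : ∀ a, κ x a 1 = 0 := by
      intro a
      by_contra hc
      have : a ∈ ({a | κ x a 1 ≠ 0} : Set A) := hc
      rw [hx] at this
      exact this
    have h6 := h4' 1 x
    rw [Finset.sum_eq_zero fun a _ => by rw [h5, zero_smul]] at h6
    exact (smul_ne_zero (F.c.ne _ _) (F.indep.ne_zero _)) h6
  refine RDec.mono (combine F.indep (d := fun j : A × (Q ⧸ A) => F.T j.1 * F'.T j.2)
    (φ := LinearMap.mulLeft ℂ (∑ x, c x • F.T x)) hτ hσ hU hD hU' (fun g => F.sum_mul c g)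
    ?_ ?_ ?_) ?_ ?_
  · rintro ⟨a, x⟩
    rw [LinearMap.mulLeft_apply, ← Matrix.mul_assoc, hz, Matrix.mul_assoc, hz', F'.sum_mul,
      Fintype.sum_prod_type, Finset.sum_eq_single a, Finset.mul_sum]
    · refine Finset.sum_congr rfl fun x' _ => ?_
      rw [Matrix.of_apply, if_pos rfl, Matrix.mul_smul]
    · intro a' _ ha
      refine Finset.sum_eq_zero fun x' _ => ?_
      rw [Matrix.of_apply, if_neg ha, zero_smul]
    · intro h
      exact absurd (Finset.mem_univ _) h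
  · rintro ⟨a, x⟩
    rw [sum_coset x]
    · have h5 : ∀ b : A, ((({a | κ x a 1 ≠ 0} : Set A).ncard : ℂ)⁻¹ * (κ x a b)⁻¹ *
          F.c.a b x.out) • F.T ((b : Q) * x.out) =
          ∑ a' : A, ((({a | κ x a 1 ≠ 0} : Set A).ncard : ℂ)⁻¹ *
            (κ x a' b * (κ x a b)⁻¹)) • (F.T a' * F'.T x) := by
        intro b
        rw [mul_smul, h4', Finset.smul_sum]
        refine Finset.sum_congr rfl fun a' _ => ?_
        rw [smul_smul]
        congr 1
        ring
      symm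
      calc _ = ∑ b : A, ((({a | κ x a 1 ≠ 0} : Set A).ncard : ℂ)⁻¹ * (κ x a b)⁻¹ *
          F.c.a b x.out) • F.T ((b : Q) * x.out) := by
            refine Finset.sum_congr rfl fun b _ => ?_
            rw [Matrix.transpose_apply, Matrix.of_apply, if_pos (mk_mul_out b x), bp_mul_out,
              mk_mul_out]
        _ = F.T a * F'.T x := by
            rw [Finset.sum_congr rfl fun b _ => h5 b, Finset.sum_comm, Finset.sum_eq_single a]
            · rw [← Finset.sum_smul, ← Finset.mul_sum, (hκ x).orth a a, if_pos rfl,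
                inv_mul_cancel₀ (hm x), one_smul]
            · intro a' _ ha
              rw [← Finset.sum_smul, ← Finset.mul_sum, (hκ x).orth a a', if_neg fun h => ha h.symm,
                mul_zero, zero_smul]
            · intro h
              exact absurd (Finset.mem_univ _) h
    · intro g hg
      rw [Matrix.transpose_apply, Matrix.of_apply, if_neg hg, zero_smul]
  · intro g
    rw [Fintype.sum_prod_type_right, Finset.sum_eq_single (g : Q ⧸ A)]
    · have h5 := h4' (bp A g) (g : Q ⧸ A)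
      rw [bp_mul] at h5
      calc F.T g = (F.c.a (bp A g) (g : Q ⧸ A).out)⁻¹ •
            (F.c.a (bp A g) (g : Q ⧸ A).out • F.T g) := by
              rw [smul_smul, inv_mul_cancel₀ (F.c.ne _ _), one_smul]
        _ = _ := by
            rw [h5, Finset.smul_sum]
            refine Finset.sum_congr rfl fun a _ => ?_
            rw [Matrix.of_apply, if_pos rfl, smul_smul, one_mul, mul_comm]
    · intro x _ hx
      refine Finset.sum_eq_zero fun a _ => ?_
      rw [Matrix.of_apply, if_neg fun h => hx h.symm, zero_smul]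
    · intro h
      exact absurd (Finset.mem_univ _) h
  · have h5 : (Nat.card A : ℝ) * (Nat.card (Q ⧸ A) * ρ) = Nat.card Q * ρ := by
      rw [← mul_assoc, mul_comm (Nat.card A : ℝ), ← Nat.cast_mul,
        ← Subgroup.card_eq_card_quotient_mul_card_subgroup]
    rw [h5]
    apply le_of_eq
    ring
  · apply le_of_eq
    ring

end MP0775d3.Solv
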