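import Pool.Agent.Lib.MP_0775d3_lc.Solv.StepOneMain
import Pool.Agent.Lib.MP_0775d3_lc.Solv.StepTwoMain
import Pool.Agent.Lib.MP_0775d3_lc.Solv.Fourier
import Pool.Agent.Lib.MP_0775d3_lc.Sl2.Statement

/-! Solvable groups of bounded derived length. -/

set_option linter.unusedSectionVars false

namespace MP0775d3.Solv

open Matrix MP0775d3.Sl2

private lemma exists_rad {Q : Type} [Group Q] [Finite Q] (α : Coc Q) (A : Subgroup Q) [A.Normal]
    (hA : ∀ a ∈ A, ∀ b ∈ A, a * b = b * a) : ∃ R : Subgroup Q, R.Normal ∧ R ≤ A ∧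
      ∀ r, r ∈ R ↔ r ∈ A ∧ ∀ a ∈ A, α.a r a = α.a a r := by
  classical
  have : Fintype Q := Fintype.ofFinite Q
  obtain ⟨F, rfl, -, hunit, hone⟩ := exists_reg α
  have hR : Reg F A := ⟨hunit, hone, inferInstance, hA⟩
  have key : ∀ r a, F.c.a r a = F.c.a a r ↔ pair F.c r a = 1 := by
    intro r a
    rw [pair, div_eq_one_iff_eq (F.c.ne _ _)]
  have h1 : ∀ a ∈ A, pair F.c 1 a = 1 := by
    intro a _
    have h := pair_mul_left F 1 1 a (by rw [one_mul, mul_one]) (by rw [one_mul, mul_one])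
    rw [one_mul] at h
    exact mul_left_cancel₀ (pair_ne F.c 1 a) (by rw [← h, mul_one])
  let R : Subgroup Q :=
    { carrier := {r | r ∈ A ∧ ∀ a ∈ A, pair F.c r a = 1}
      one_mem' := ⟨A.one_mem, h1⟩
      mul_mem' := by
        rintro r s ⟨hr, hr'⟩ ⟨hs, hs'⟩
        refine ⟨A.mul_mem hr hs, fun a ha => ?_⟩
        rw [pair_mul_left F r s a (hA r hr a ha) (hA s hs a ha), hr' a ha, hs' a ha, mul_one]
      inv_mem' := by
        rintro r ⟨hr, hr'⟩
        refine ⟨A.inv_mem hr, fun a ha => ?_⟩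
        have h := pair_mul_left F r⁻¹ r a (hA _ (A.inv_mem hr) a ha) (hA r hr a ha)
        rw [inv_mul_cancel, h1 a ha, hr' a ha, mul_one] at h
        exact h.symm }
  refine ⟨R, ⟨?_⟩, fun r hr => hr.1, fun r => ?_⟩
  · rintro r ⟨hr, hr'⟩ g
    refine ⟨Subgroup.Normal.conj_mem inferInstance r hr g, fun a ha => ?_⟩
    have ha' : g⁻¹ * a * g ∈ A := by
      have := Subgroup.Normal.conj_mem (inferInstance : A.Normal) a ha g⁻¹
      rwa [inv_inv] at this
    have h := pair_conj hR g r (g⁻¹ * a * g) (hA r hr _ ha')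
    rw [hr' _ ha', show g * (g⁻¹ * a * g) * g⁻¹ = a by group] at h
    exact h
  · constructor
    · rintro ⟨hr, hr'⟩
      exact ⟨hr, fun a ha => (key r a).mpr (hr' a ha)⟩
    · rintro ⟨hr, hr'⟩
      exact ⟨hr, fun a ha => (key r a).mp (hr' a ha)⟩

private lemma quot_derived {Q : Type} [Group Q] (ℓ : ℕ) (Q₁ : Subgroup Q)
    (R' : Subgroup Q₁) [R'.Normal] (A₂ : Subgroup (Q₁ ⧸ R')) [A₂.Normal]
    (h : ∀ x : Q₁, (x : Q) ∈ derivedSeries Q ℓ → (x : Q₁ ⧸ R') ∈ A₂) :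
    derivedSeries ((Q₁ ⧸ R') ⧸ A₂) ℓ = ⊥ := by
  set π : Q₁ →* (Q₁ ⧸ R') ⧸ A₂ := (QuotientGroup.mk' A₂).comp (QuotientGroup.mk' R') with hπ
  have hsurj : Function.Surjective π :=
    (QuotientGroup.mk'_surjective A₂).comp (QuotientGroup.mk'_surjective R')
  rw [← map_derivedSeries_eq hsurj, Subgroup.map_eq_bot_iff]
  intro x hx
  have h1 : (x : Q) ∈ derivedSeries Q ℓ := by
    apply map_derivedSeries_le_derivedSeries Q₁.subtype ℓ
    exact ⟨x, hx, rfl⟩
  have h2 := h x h1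
  rw [MonoidHom.mem_ker, hπ]
  exact (QuotientGroup.eq_one_iff _).mpr h2

theorem solv_tmat (ℓ : ℕ) : ∀ (δ : ℝ), 0 < δ → δ ≤ 1 → ∃ γ : ℝ, 0 < γ ∧ γ ≤ 1 ∧ ∃ C : ℝ, 1 ≤ C ∧
    ∀ (N : ℝ), 1 ≤ N → ∀ (Q : Type) [Group Q] [Finite Q], derivedSeries Q ℓ = ⊥ →
      (Nat.card Q : ℝ) ≤ N → ∀ (α : Coc Q) (c : Q → ℂ), Central α c →
      TBound α c (Nat.card Q * (C * N ^ (-γ))) (C * N ^ δ) := by
  induction ℓ with
  | zero =>
    intro δ hδ hδ1
    refine ⟨1, one_pos, le_rfl, 1, le_rfl, ?_⟩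
    intro N hN Q _ _ hQ hcard α c hc _
    have hsub : Subsingleton Q := by
      constructor
      intro x y
      have hx : x ∈ derivedSeries Q 0 := by rw [derivedSeries_zero]; exact Subgroup.mem_top x
      have hy : y ∈ derivedSeries Q 0 := by rw [derivedSeries_zero]; exact Subgroup.mem_top y
      rw [hQ, Subgroup.mem_bot] at hx hy
      rw [hx, hy]
    have hN0 : (0 : ℝ) < N := lt_of_lt_of_le one_pos hN
    have hb : ∀ s : Set Q, ((s.ncard : ℕ) : ℝ) ≤ 1 * N ^ δ := by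
      intro s
      have h1 : s.ncard ≤ 1 := Set.ncard_le_one_iff_subsingleton.mpr Set.subsingleton_of_subsingleton
      have h2 : (1 : ℝ) ≤ N ^ δ := Real.one_le_rpow hN hδ.le
      calc ((s.ncard : ℕ) : ℝ) ≤ 1 := by exact_mod_cast h1
        _ ≤ 1 * N ^ δ := by rwa [one_mul]
    refine ⟨0, tmat α c, (zero_add _).symm, ?_, fun x => hb _, fun y => hb _⟩
    rw [Matrix.rank_zero, Nat.cast_zero]
    positivity
  | succ ℓ ih =>
    intro δ hδ hδ1
    have hδ' : 0 < δ / 5 := by positivity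
    have hδ1' : δ / 5 ≤ 1 := by linarith
    obtain ⟨γ₁, hγ₁, hγ₁', C₁, hC₁, hF⟩ := fourier (δ / 5) hδ' hδ1'
    obtain ⟨γ₂, hγ₂, hγ₂', C₂, hC₂, hI⟩ := ih (δ / 5) hδ' hδ1'
    refine ⟨min γ₁ γ₂, lt_min hγ₁ hγ₂, (min_le_left _ _).trans hγ₁', 4 * C₁ + C₂, by linarith, ?_⟩
    intro N hN Q _ _ hQ hcard α c hc
    have hN0 : (0 : ℝ) < N := lt_of_lt_of_le one_pos hN
    set A : Subgroup Q := derivedSeries Q ℓ with hAdef
    have hAn : A.Normal := derivedSeries_normal Q ℓ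
    have hA : ∀ a ∈ A, ∀ b ∈ A, a * b = b * a := by
      intro a ha b hb
      have h1 : ⁅A, A⁆ = ⊥ := by rw [hAdef, ← derivedSeries_succ]; exact hQ
      rw [Subgroup.commutator_eq_bot_iff_le_centralizer] at h1
      exact Subgroup.mem_centralizer_iff.mp (h1 hb) a ha
    obtain ⟨R, hRn, hRA, hRmem⟩ := exists_rad α A hA
    set ρF : ℝ := C₁ * N ^ (-γ₁) with hρF
    set τ : ℝ := N ^ (δ / 5) with hτ
    have hρF0 : 0 ≤ ρF := by positivity
    have hτ0 : 0 ≤ τ := by positivity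
    have hcardle : ∀ {X Y : Type} [Finite X] (f : X → Y), Function.Surjective f →
        (Nat.card X : ℝ) ≤ N → (Nat.card Y : ℝ) ≤ N := by
      intro X Y _ f hf h
      have : Nat.card Y ≤ Nat.card X := Nat.card_le_card_of_surjective f hf
      exact le_trans (by exact_mod_cast this) h
    have hcardle' : ∀ {X Y : Type} [Finite Y] (f : X → Y), Function.Injective f →
        (Nat.card Y : ℝ) ≤ N → (Nat.card X : ℝ) ≤ N := by
      intro X Y _ f hf h
      have : Nat.card X ≤ Nat.card Y := Nat.card_le_card_of_injective f hf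
      exact le_trans (by exact_mod_cast this) h
    have hmain : TBound α c (Nat.card Q * (2 * ρF + (2 * ρF + C₂ * N ^ (-γ₂))))
        (τ * τ * (τ * τ * (C₂ * N ^ (δ / 5)))) := by
      refine step_one α c hc R A hRA hA (fun r hr a ha => ((hRmem r).mp hr).2 a ha) ρF τ
        (2 * ρF + C₂ * N ^ (-γ₂)) (τ * τ * (C₂ * N ^ (δ / 5))) hρF0 hτ0 (by positivity)
        (by positivity) ?_ ?_
      · refine hF N hN R ?_ ?_
        · intro a b
          exact Subtype.ext (hA a (hRA a.2) b (hRA b.2))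
        · exact hcardle' (fun x : R => (x : Q)) Subtype.val_injective hcard
      · intro Q₁ hAQ α' c' hc' hpair
        have hcQ1 : (Nat.card Q₁ : ℝ) ≤ N :=
          hcardle' (fun x : Q₁ => (x : Q)) Subtype.val_injective hcard
        have hcQ2 : (Nat.card (Q₁ ⧸ R.subgroupOf Q₁) : ℝ) ≤ N :=
          hcardle (QuotientGroup.mk' (R.subgroupOf Q₁)) (QuotientGroup.mk'_surjective _) hcQ1
        set A₂ : Subgroup (Q₁ ⧸ R.subgroupOf Q₁) :=
          (A.subgroupOf Q₁).map (QuotientGroup.mk' (R.subgroupOf Q₁)) with hA₂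
        have hA₂n : A₂.Normal :=
          Subgroup.Normal.map inferInstance _ (QuotientGroup.mk'_surjective _)
        have hA₂c : ∀ a ∈ A₂, ∀ b ∈ A₂, a * b = b * a := by
          rintro _ ⟨a, ha, rfl⟩ _ ⟨b, hb, rfl⟩
          rw [← map_mul, ← map_mul]
          congr 1
          exact Subtype.ext (hA a ha b hb)
        intro _
        refine step_two α' c' hc' A₂ hA₂c ?_ ρF τ (C₂ * N ^ (-γ₂)) (C₂ * N ^ (δ / 5)) hρF0 hτ0
          (by positivity) (by positivity) ?_ ?_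
        · rintro _ ⟨a, ha, rfl⟩ hb
          have haR : (a : Q) ∈ R := by
            rw [hRmem]
            refine ⟨ha, fun b hbA => ?_⟩
            have h1 := hpair a ⟨b, hAQ hbA⟩ ha hbA
            have h2 := hb (QuotientGroup.mk' (R.subgroupOf Q₁) ⟨b, hAQ hbA⟩) ⟨_, hbA, rfl⟩
            have h3 : α'.a (a : Q₁ ⧸ R.subgroupOf Q₁)
                ((⟨b, hAQ hbA⟩ : Q₁) : Q₁ ⧸ R.subgroupOf Q₁) =
                α'.a ((⟨b, hAQ hbA⟩ : Q₁) : Q₁ ⧸ R.subgroupOf Q₁)
                (a : Q₁ ⧸ R.subgroupOf Q₁) := h2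
            rw [h3] at h1
            exact (mul_left_cancel₀ (α'.ne _ _) h1).symm
          exact (QuotientGroup.eq_one_iff a).mpr haR
        · intro V
          refine hF N hN V ?_ ?_
          · intro a b
            exact Subtype.ext (Subtype.ext (hA₂c a.1 a.1.2 b.1 b.1.2))
          · exact hcardle' (fun x : V => ((x : A₂) : Q₁ ⧸ R.subgroupOf Q₁))
              (Subtype.val_injective.comp Subtype.val_injective) hcQ2
        · intro α'' c'' hc''
          refine hI N hN _ ?_ ?_ α'' c'' hc''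
          · apply quot_derived
            intro x hx
            exact ⟨x, hx, rfl⟩
          · exact hcardle (QuotientGroup.mk' A₂) (QuotientGroup.mk'_surjective _) hcQ2
    intro _
    refine (hmain).mono ?_ ?_
    · apply mul_le_mul_of_nonneg_left _ (Nat.cast_nonneg _)
      have e1 : N ^ (-γ₁) ≤ N ^ (-(min γ₁ γ₂)) :=
        Real.rpow_le_rpow_of_exponent_le hN (neg_le_neg (min_le_left _ _))
      have e2 : N ^ (-γ₂) ≤ N ^ (-(min γ₁ γ₂)) :=
        Real.rpow_le_rpow_of_exponent_le hN (neg_le_neg (min_le_right _ _))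
      have e3 : C₁ * N ^ (-γ₁) ≤ C₁ * N ^ (-(min γ₁ γ₂)) :=
        mul_le_mul_of_nonneg_left e1 (by linarith)
      have e4 : C₂ * N ^ (-γ₂) ≤ C₂ * N ^ (-(min γ₁ γ₂)) :=
        mul_le_mul_of_nonneg_left e2 (by linarith)
      rw [hρF]
      nlinarith
    · have e1 : τ * τ * (τ * τ * τ) = N ^ δ := by
        rw [hτ, ← Real.rpow_add hN0, ← Real.rpow_add hN0, ← Real.rpow_add hN0]
        congr 1
        ring
      have e2 : τ * τ * (τ * τ * (C₂ * N ^ (δ / 5))) = C₂ * N ^ δ := by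
        rw [← e1, hτ]
        ring
      rw [e2]
      apply mul_le_mul_of_nonneg_right _ (by positivity)
      linarith

/-- Rank and sparsity bound for all class functions on `H`. -/
def GBound (H : Type) [Group H] (r τ : ℝ) : Prop :=
  ∀ [Fintype H] (f : H → ℂ), IsClassFun f → RDec (groupMat f) r τ

theorem solv_class (ℓ : ℕ) (δ : ℝ) (hδ : 0 < δ) (hδ1 : δ ≤ 1) : ∃ γ : ℝ, 0 < γ ∧ γ ≤ 1 ∧
    ∃ C : ℝ, 1 ≤ C ∧ ∀ (N : ℝ), 1 ≤ N → ∀ (H : Type) [Group H] [Finite H],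
      derivedSeries H ℓ = ⊥ → (Nat.card H : ℝ) ≤ N →
      GBound H (Nat.card H * (C * N ^ (-γ))) (C * N ^ δ) := by
  obtain ⟨γ, hγ, hγ1, C, hC, h⟩ := solv_tmat ℓ δ hδ hδ1
  refine ⟨γ, hγ, hγ1, C, hC, ?_⟩
  intro N hN H _ _ hH hcard _ f hf
  let α : Coc H := ⟨fun _ _ => 1, fun _ _ => one_ne_zero, fun _ _ _ => rfl⟩
  have hc : Central α f := by
    intro x y
    have h1 := hf y (y⁻¹ * x * y)
    rw [show y * (y⁻¹ * x * y) * y⁻¹ = x by group] at h1
    change f x * 1 = f (y⁻¹ * x * y) * 1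
    rw [h1]
  have h2 : tmat α f = groupMat f := by
    ext x y
    change f (x * y⁻¹) * 1 = f (x * y⁻¹)
    rw [mul_one]
  rw [← h2]
  exact h N hN H hH hcard α f hc

end MP0775d3.Solv
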