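import Pool.Agent.Lib.MP_0775d3_lc.Solv.Proj
import Pool.Agent.Lib.MP_0775d3_lc.Solv.Bichar

/-! The characters of a commutative twisted group algebra. -/

set_option linter.unusedSectionVars false

namespace MP0775d3.Solv

open Matrix MP0775d3.Sl2

/-- `M i`, `i : ι`, are all the functions on `R` with `M r * M s = α r s * M (r s)`. -/
structure Chars {Q : Type} [Group Q] (α : Coc Q) (R : Subgroup Q) (ι : Type) [Fintype ι]
    (M : ι → Q → ℂ) : Prop where
  ne : ∀ i, ∀ r ∈ R, M i r ≠ 0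
  mul : ∀ i, ∀ r ∈ R, ∀ s ∈ R, M i r * M i s = α.a r s * M i (r * s)
  all : ∀ l : Q → ℂ, (∀ r ∈ R, l r ≠ 0) → (∀ r ∈ R, ∀ s ∈ R, l r * l s = α.a r s * l (r * s)) →
    ∃ i, ∀ r ∈ R, l r = M i r
  inj : ∀ i j, (∀ r ∈ R, M i r = M j r) → i = j
  card : Fintype.card ι = Nat.card R
  sum : ∀ r ∈ R, r ≠ 1 → ∑ i, M i r = 0

section
variable {Q : Type} [Group Q] [Fintype Q] [DecidableEq Q] {F : TFam Q Q} {A : Subgroup Q}

/-- A finite-dimensional commutative algebra has a character. -/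
private theorem exists_algHom (S : Type) [CommRing S] [Algebra ℂ S] [Nontrivial S]
    [Module.Finite ℂ S] : Nonempty (S →ₐ[ℂ] ℂ) := by
  obtain ⟨m, hm⟩ := Ideal.exists_maximal S
  let _ : Field (S ⧸ m) := Ideal.Quotient.field m
  have : Module.Finite ℂ (S ⧸ m) :=
    Module.Finite.of_surjective (Ideal.Quotient.mkₐ ℂ m).toLinearMap
      (Ideal.Quotient.mkₐ_surjective ℂ m)
  have hbij : Function.Bijective (algebraMap ℂ (S ⧸ m)) :=
    IsAlgClosed.algebraMap_bijective_of_isIntegral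
  let e : ℂ ≃ₐ[ℂ] (S ⧸ m) := AlgEquiv.ofBijective (Algebra.ofId ℂ (S ⧸ m)) hbij
  exact ⟨e.symm.toAlgHom.comp (Ideal.Quotient.mkₐ ℂ m)⟩

/-- PROOF. The matrices `F.T r`, `r ∈ R`, commute. The algebra `Algebra.adjoin ℂ` of them is
commutative (`Algebra.adjoinCommRingOfComm`), nontrivial, finite-dimensional over `ℂ`; a maximal
ideal has residue field finite over `ℂ`, so `ℂ` itself: there is an algebra homomorphism `χ` to
`ℂ`, and `μ r = χ (F.T r)`. Not zero, as `F.T r` is invertible in the algebra: `F.T r * F.T r⁻¹` is a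
nonzero multiple of `F.T 1`, a nonzero multiple of `1`. -/
theorem exists_mu (hR : Reg F A) (R : Subgroup Q)
    (h : ∀ r ∈ R, ∀ s ∈ R, F.T r * F.T s = F.T s * F.T r) : ∃ μ : Q → ℂ, (∀ r ∈ R, μ r ≠ 0) ∧
      ∀ r ∈ R, ∀ s ∈ R, μ r * μ s = F.c.a r s * μ (r * s) := by
  classical
  set t : Set (Matrix Q Q ℂ) := F.T '' (R : Set Q) with ht
  have hcomm : ∀ a ∈ t, ∀ b ∈ t, a * b = b * a := by
    rintro _ ⟨r, hr, rfl⟩ _ ⟨s, hs, rfl⟩
    exact h r hr s hs
  have hmem : ∀ r ∈ R, F.T r ∈ Algebra.adjoin ℂ t := fun r hr =>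
    Algebra.subset_adjoin ⟨r, hr, rfl⟩
  let cr : CommRing (Algebra.adjoin ℂ t) := Algebra.adjoinCommRingOfComm ℂ hcomm
  have hfin : Module.Finite ℂ (Algebra.adjoin ℂ t) :=
    inferInstanceAs (Module.Finite ℂ (Subalgebra.toSubmodule (Algebra.adjoin ℂ t)))
  obtain ⟨χ⟩ := exists_algHom (Algebra.adjoin ℂ t)
  let μ : Q → ℂ := fun r => if hr : r ∈ R then χ ⟨F.T r, hmem r hr⟩ else 0
  have hμ : ∀ r (hr : r ∈ R), μ r = χ ⟨F.T r, hmem r hr⟩ := fun r hr => dif_pos hr
  have hmul : ∀ r ∈ R, ∀ s ∈ R, μ r * μ s = F.c.a r s * μ (r * s) := by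
    intro r hr s hs
    rw [hμ r hr, hμ s hs, hμ (r * s) (R.mul_mem hr hs), ← map_mul]
    have h1 : (⟨F.T r, hmem r hr⟩ : Algebra.adjoin ℂ t) * ⟨F.T s, hmem s hs⟩ =
        F.c.a r s • ⟨F.T (r * s), hmem (r * s) (R.mul_mem hr hs)⟩ := by
      apply Subtype.ext
      exact F.mul r s
    rw [h1, map_smul, smul_eq_mul]
  have hone : μ 1 = F.c.a 1 1 := by
    rw [hμ 1 R.one_mem]
    have h1 : (⟨F.T 1, hmem 1 R.one_mem⟩ : Algebra.adjoin ℂ t) = F.c.a 1 1 • 1 := by
      apply Subtype.ext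
      exact hR.one
    rw [h1, map_smul, map_one, smul_eq_mul, mul_one]
  refine ⟨μ, ?_, hmul⟩
  intro r hr h0
  have h1 := hmul r hr r⁻¹ (R.inv_mem hr)
  rw [h0, zero_mul, mul_inv_cancel, hone] at h1
  exact mul_ne_zero (F.c.ne _ _) (F.c.ne _ _) h1.symm

/-- PROOF. `M i r = μ r * B i ⟨r, _⟩` for `r ∈ R`, `B` from `exists_bichar R`. `all`: `l / μ` is a
character of `R`, use `char_eq`. `sum`: `char_sum` for the character `B · r` (symmetric). -/
theorem exists_chars (hR : Reg F A) (R : Subgroup Q) (hRA : R ≤ A)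
    (h : ∀ r ∈ R, ∀ s ∈ R, F.c.a r s = F.c.a s r) : ∃ (ι : Type) (_ : Fintype ι)
      (M : ι → Q → ℂ), Chars F.c R ι M := by
  classical
  have hRc : ∀ a ∈ R, ∀ b ∈ R, a * b = b * a := fun a ha b hb => hR.comm a (hRA ha) b (hRA hb)
  obtain ⟨μ, hμ0, hμ⟩ := exists_mu hR R (by
    intro r hr s hs
    rw [F.mul, F.mul, h r hr s hs, hRc r hr s hs])
  obtain ⟨B, -, -, hl, hsymm, h0, hn, -⟩ := exists_bichar R (fun a b =>
    Subtype.ext (hRc a a.2 b b.2))
  have hr : ∀ x y z, B x (y * z) = B x y * B x z := by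
    intro x y z
    rw [hsymm, hl, hsymm y, hsymm z]
  have hone : ∀ y, B 1 y = 1 := by
    intro y
    have h1 := hl 1 1 y
    rw [mul_one] at h1
    exact (mul_eq_left₀ (h0 1 y)).mp h1.symm
  have hμ1 : μ 1 = F.c.a 1 1 := by
    have h1 := hμ 1 R.one_mem 1 R.one_mem
    rw [mul_one] at h1
    exact mul_right_cancel₀ (hμ0 1 R.one_mem) h1
  let M : R → Q → ℂ := fun i r => if hr : r ∈ R then μ r * B i ⟨r, hr⟩ else 0
  have hM : ∀ i r (hr : r ∈ R), M i r = μ r * B i ⟨r, hr⟩ := fun i r hr => dif_pos hr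
  refine ⟨R, inferInstance, M, ?_, ?_, ?_, ?_, ?_, ?_⟩
  · intro i r hr'
    rw [hM i r hr']
    exact mul_ne_zero (hμ0 r hr') (h0 _ _)
  · intro i r hr' s hs
    rw [hM i r hr', hM i s hs, hM i (r * s) (R.mul_mem hr' hs)]
    have h1 : (⟨r * s, R.mul_mem hr' hs⟩ : R) = ⟨r, hr'⟩ * ⟨s, hs⟩ := rfl
    rw [h1, hr]
    linear_combination (B i ⟨r, hr'⟩ * B i ⟨s, hs⟩) * hμ r hr' s hs
  · intro l hl0 hlm
    have hl1 : l 1 = F.c.a 1 1 := by
      have h1 := hlm 1 R.one_mem 1 R.one_mem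
      rw [mul_one] at h1
      exact mul_right_cancel₀ (hl0 1 R.one_mem) h1
    obtain ⟨i, hi⟩ := char_eq B hl hr h0 hn (fun w : R => l w / μ w) (by
      change l 1 / μ 1 = 1
      rw [hl1, hμ1, div_self (F.c.ne _ _)]) (by
      intro v w
      change l (v * w) / μ (v * w) = l v / μ v * (l w / μ w)
      have h1 := hlm v v.2 w w.2
      have h2 := hμ v v.2 w w.2
      rw [div_mul_div_comm, h1, h2, mul_div_mul_left _ _ (F.c.ne _ _)])
    refine ⟨i, fun r hr' => ?_⟩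
    rw [hM i r hr']
    have h1 := hi ⟨r, hr'⟩
    change l r / μ r = _ at h1
    rw [div_eq_iff (hμ0 r hr')] at h1
    rw [h1, mul_comm]
  · intro i j hij
    have h1 : i * j⁻¹ = 1 := by
      apply hn
      intro y
      have h2 := hij y y.2
      rw [hM i y y.2, hM j y y.2] at h2
      have h3 := mul_left_cancel₀ (hμ0 y y.2) h2
      have h4 : B (i * j⁻¹) y * B j y = B i y := by
        rw [← hl, inv_mul_cancel_right]
      have h5 : B i y = B j y := h3
      rw [h5] at h4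
      exact (mul_eq_right₀ (h0 j y)).mp h4
    exact mul_inv_eq_one.mp h1
  · exact (Nat.card_eq_fintype_card).symm
  · intro r hr' hne
    have h1 : ∀ i : R, M i r = μ r * B i ⟨r, hr'⟩ := fun i => hM i r hr'
    rw [Finset.sum_congr rfl fun i _ => h1 i, ← Finset.mul_sum]
    have h2 : ∑ i : R, B i ⟨r, hr'⟩ = 0 := by
      refine char_sum (fun i : R => B i ⟨r, hr'⟩) (fun v w => hl v w _) ?_
      by_contra hc
      push Not at hc
      apply hne
      have h3 : (⟨r, hr'⟩ : R) = 1 := hn _ fun y => by rw [hsymm]; exact hc y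
      exact congrArg Subtype.val h3
    rw [h2, mul_zero]

open Classical in
/-- The idempotents. -/
noncomputable def idem (F : TFam Q Q) (R : Subgroup Q) (m : Q → ℂ) : Matrix Q Q ℂ :=
  (Nat.card R : ℂ)⁻¹ • ∑ r : R, (m r)⁻¹ • F.T r

variable {R : Subgroup Q} {ι : Type} [Fintype ι] {M : ι → Q → ℂ}

/-- PROOF. `T r T s = α r s T (r s)` and `(M s)⁻¹ * α r s = M r * (M (r s))⁻¹`. -/
theorem idem_left (hR : Reg F A) (hM : Chars F.c R ι M) (i : ι) (r : Q) (hr : r ∈ R) :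
    F.T r * idem F R (M i) = M i r • idem F R (M i) := by
  classical
  rw [idem, Matrix.mul_smul, smul_comm (M i r)]
  congr 1
  rw [Finset.mul_sum, Finset.smul_sum,
    ← Equiv.sum_comp (Equiv.mulLeft (⟨r, hr⟩ : R)) (fun s : R => M i r • (M i s)⁻¹ • F.T s)]
  refine Finset.sum_congr rfl fun s _ => ?_
  change F.T r * (M i s)⁻¹ • F.T s = M i r • (M i (r * s))⁻¹ • F.T (r * s)
  rw [Matrix.mul_smul, F.mul, smul_smul, smul_smul]
  congr 1
  have h1 := hM.mul i r hr s s.2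
  have h2 := hM.ne i s s.2
  have h3 := hM.ne i (r * s) (R.mul_mem hr s.2)
  field_simp
  linear_combination -h1

private theorem T_comm (hR : Reg F A) (hRA : R ≤ A) (h : ∀ r ∈ R, ∀ s ∈ R, F.c.a r s = F.c.a s r)
    (r s : Q) (hr : r ∈ R) (hs : s ∈ R) : F.T r * F.T s = F.T s * F.T r := by
  rw [F.mul, F.mul, h r hr s hs, hR.comm r (hRA hr) s (hRA hs)]

theorem idem_right (hR : Reg F A) (hRA : R ≤ A) (h : ∀ r ∈ R, ∀ s ∈ R, F.c.a r s = F.c.a s r)
    (hM : Chars F.c R ι M) (i : ι) (r : Q) (hr : r ∈ R) :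
    idem F R (M i) * F.T r = M i r • idem F R (M i) := by
  classical
  rw [← idem_left hR hM i r hr, idem, Matrix.mul_smul, Matrix.smul_mul, Finset.mul_sum,
    Finset.sum_mul]
  congr 1
  refine Finset.sum_congr rfl fun s _ => ?_
  rw [Matrix.mul_smul, Matrix.smul_mul, T_comm hR hRA h r s hr s.2]

private theorem card_ne (R : Subgroup Q) : (Nat.card R : ℂ) ≠ 0 :=
  Nat.cast_ne_zero.mpr Nat.card_pos.ne'

/-- A matrix which transforms like `idem` is fixed by it. -/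
private theorem idem_mul_of (hM : Chars F.c R ι M) (i : ι) (z : Matrix Q Q ℂ)
    (hz : ∀ r ∈ R, F.T r * z = M i r • z) : idem F R (M i) * z = z := by
  classical
  rw [idem, Matrix.smul_mul, Finset.sum_mul]
  have h1 : ∀ r : R, ((M i r)⁻¹ • F.T r) * z = z := fun r => by
    rw [Matrix.smul_mul, hz r r.2, smul_smul, inv_mul_cancel₀ (hM.ne i r r.2), one_smul]
  rw [Finset.sum_congr rfl fun r _ => h1 r, Finset.sum_const, Finset.card_univ,
    ← Nat.card_eq_fintype_card, ← Nat.cast_smul_eq_nsmul ℂ, smul_smul,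
    inv_mul_cancel₀ (card_ne R), one_smul]

/-- PROOF. From `idem_left`. -/
theorem idem_sq (hR : Reg F A) (hM : Chars F.c R ι M) (i : ι) :
    idem F R (M i) * idem F R (M i) = idem F R (M i) :=
  idem_mul_of hM i _ fun r hr => idem_left hR hM i r hr

/-- PROOF. `(M i r)⁻¹ = M i r⁻¹ / (α r r⁻¹ * M i 1)`, `M i 1 = α 1 1`; `sum`. `T 1 = α 1 1 • 1`. -/
theorem idem_sum (hR : Reg F A) (hM : Chars F.c R ι M) :
    ∑ i, idem F R (M i) = 1 := by
  classical
  have h1 : ∀ i, M i 1 = F.c.a 1 1 := by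
    intro i
    have e := hM.mul i 1 R.one_mem 1 R.one_mem
    rw [mul_one] at e
    exact mul_right_cancel₀ (hM.ne i 1 R.one_mem) e
  have h2 : ∀ r ∈ R, r ≠ 1 → ∑ i, (M i r)⁻¹ = 0 := by
    intro r hr hne
    have h3 : ∀ i, (M i r)⁻¹ = (F.c.a r r⁻¹ * F.c.a 1 1)⁻¹ * M i r⁻¹ := by
      intro i
      have e := hM.mul i r hr r⁻¹ (R.inv_mem hr)
      rw [mul_inv_cancel, h1] at e
      have e2 := hM.ne i r hr
      have e3 := F.c.ne r r⁻¹
      have e4 := F.c.ne 1 1
      rw [← e]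
      have e5 := hM.ne i r⁻¹ (R.inv_mem hr)
      field_simp
    rw [Finset.sum_congr rfl fun i _ => h3 i, ← Finset.mul_sum,
      hM.sum r⁻¹ (R.inv_mem hr) (fun h => hne (inv_eq_one.mp h)), mul_zero]
  simp only [idem]
  rw [← Finset.smul_sum, Finset.sum_comm]
  have h4 : ∀ r : R, ∑ i, (M i r)⁻¹ • F.T (r : Q) =
      if r = 1 then (Nat.card R : ℂ) • (1 : Matrix Q Q ℂ) else 0 := by
    intro r
    rw [← Finset.sum_smul]
    split_ifs with hr
    · subst hr
      have h5 : ∑ i, (M i ((1 : R) : Q))⁻¹ = Nat.card R * (F.c.a 1 1)⁻¹ := by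
        rw [Subgroup.coe_one, Finset.sum_congr rfl fun i _ => by rw [h1 i], Finset.sum_const,
          Finset.card_univ, hM.card, nsmul_eq_mul]
      rw [h5, Subgroup.coe_one, hR.one, smul_smul, mul_assoc, inv_mul_cancel₀ (F.c.ne _ _),
        mul_one]
    · rw [h2 r r.2 (fun h => hr (Subtype.ext h)), zero_smul]
  rw [Finset.sum_congr rfl fun r _ => h4 r, Finset.sum_ite_eq' Finset.univ (1 : R),
    if_pos (Finset.mem_univ _), smul_smul, inv_mul_cancel₀ (card_ne R), one_smul]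

/-- PROOF. `pair_comm` termwise. -/
theorem idem_comm (hR : Reg F A) (hRA : R ≤ A) (h : ∀ r ∈ R, ∀ a ∈ A, F.c.a r a = F.c.a a r)
    (hM : Chars F.c R ι M) (i : ι) (a : Q) (ha : a ∈ A) :
    F.T a * idem F R (M i) = idem F R (M i) * F.T a := by
  classical
  rw [idem, Matrix.mul_smul, Matrix.smul_mul, Finset.mul_sum, Finset.sum_mul]
  congr 1
  refine Finset.sum_congr rfl fun s _ => ?_
  rw [Matrix.mul_smul, Matrix.smul_mul, F.mul, F.mul, h s s.2 a ha,
    hR.comm a ha s (hRA s.2)]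

private theorem mul_inv_T' (hR : Reg F A) (g : Q) : F.T g * (F.T g)⁻¹ = 1 :=
  Matrix.mul_nonsing_inv _ ((Matrix.isUnit_iff_isUnit_det _).mp (hR.unit g))

private theorem inv_mul_T' (hR : Reg F A) (g : Q) : (F.T g)⁻¹ * F.T g = 1 :=
  Matrix.nonsing_inv_mul _ ((Matrix.isUnit_iff_isUnit_det _).mp (hR.unit g))

/-- PROOF. Let `e = idem F R (M i)`, `f = T g * e * (T g)⁻¹`. Conjugation by `T g` maps `T r` to a
nonzero multiple of `T (g r g⁻¹)`; so `T r * f = l r • f` for `r ∈ R`, with `l r ≠ 0` and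
`l r * l s = α r s * l (r s)` (as `f ≠ 0`), and `f = idem F R l`. Suppose `e * f ≠ 0`. From
`T r * (e * f)` `= M i r • (e * f)` and `= l r • (e * f)` (as `T r * e = e * T r`) we get `l = M i` on
`R`, so `f = e`, so `T g * e = e * T g`. If `e * f = 0` then `e * T g * e = 0`. (If `e = 0` nothing to
do.) -/
theorem idem_dich (hR : Reg F A) [R.Normal] (hRA : R ≤ A)
    (h : ∀ r ∈ R, ∀ s ∈ R, F.c.a r s = F.c.a s r) (hM : Chars F.c R ι M) (i : ι) (g : Q) :
    F.T g * idem F R (M i) = idem F R (M i) * F.T g ∨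
      idem F R (M i) * F.T g * idem F R (M i) = 0 := by
  classical
  set e := idem F R (M i) with he
  set f := F.T g * e * (F.T g)⁻¹ with hf
  have hfg : f * F.T g = F.T g * e := by
    rw [hf, Matrix.mul_assoc, inv_mul_T' hR, Matrix.mul_one]
  have hnorm : ∀ r ∈ R, g⁻¹ * r * g ∈ R := by
    intro r hr
    have := ‹R.Normal›.conj_mem r hr g⁻¹
    rwa [inv_inv] at this
  have hnorm' : ∀ r ∈ R, g * r * g⁻¹ ∈ R := fun r hr => ‹R.Normal›.conj_mem r hr g
  let l : Q → ℂ := fun r => F.c.a r g / F.c.a g (g⁻¹ * r * g) * M i (g⁻¹ * r * g)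
  have hTf : ∀ r ∈ R, F.T r * f = l r • f := by
    intro r hr
    have h1 : F.T r * F.T g = (F.c.a r g / F.c.a g (g⁻¹ * r * g)) •
        (F.T g * F.T (g⁻¹ * r * g)) := by
      rw [F.mul, F.mul, smul_smul, div_mul_cancel₀ _ (F.c.ne _ _)]
      congr 2
      group
    rw [hf, ← Matrix.mul_assoc, ← Matrix.mul_assoc, h1, Matrix.smul_mul, Matrix.smul_mul,
      Matrix.mul_assoc (F.T g), he, idem_left hR hM i _ (hnorm r hr), Matrix.mul_smul,
      Matrix.smul_mul, smul_smul]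
  by_cases hef : e * f = 0
  · right
    rw [Matrix.mul_assoc, ← hfg, ← Matrix.mul_assoc, hef, Matrix.zero_mul]
  · left
    -- the eigenvalues are equal
    have hl : ∀ r ∈ R, l r = M i r := by
      intro r hr
      have h1 : F.T r * (e * f) = M i r • (e * f) := by
        rw [← Matrix.mul_assoc, he, idem_left hR hM i r hr, Matrix.smul_mul]
      have h2 : F.T r * (e * f) = l r • (e * f) := by
        rw [← Matrix.mul_assoc, he, idem_left hR hM i r hr, ← idem_right hR hRA h hM i r hr,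
          Matrix.mul_assoc, hTf r hr, Matrix.mul_smul]
      rw [h1] at h2
      exact (smul_left_injective ℂ hef h2).symm
    have hfe : f = e := by
      rw [hf, he, idem, Matrix.mul_smul, Matrix.smul_mul, Finset.mul_sum, Finset.sum_mul]
      congr 1
      let σ : R ≃ R :=
        { toFun := fun r => ⟨g⁻¹ * r * g, hnorm r r.2⟩
          invFun := fun r => ⟨g * r * g⁻¹, hnorm' r r.2⟩
          left_inv := fun r => Subtype.ext (by
            change g * (g⁻¹ * r * g) * g⁻¹ = r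
            group)
          right_inv := fun r => Subtype.ext (by
            change g⁻¹ * (g * r * g⁻¹) * g = r
            group) }
      rw [← Equiv.sum_comp σ]
      refine Finset.sum_congr rfl fun r _ => ?_
      change F.T g * (M i (g⁻¹ * r * g))⁻¹ • F.T (g⁻¹ * r * g) * (F.T g)⁻¹ =
        (M i r)⁻¹ • F.T (r : Q)
      have h1 : F.T (r : Q) = (F.c.a r g / F.c.a g (g⁻¹ * r * g)) •
          (F.T g * F.T (g⁻¹ * r * g) * (F.T g)⁻¹) := by
        have h2 : F.T (r : Q) * F.T g = (F.c.a r g / F.c.a g (g⁻¹ * r * g)) •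
            (F.T g * F.T (g⁻¹ * r * g)) := by
          rw [F.mul, F.mul, smul_smul, div_mul_cancel₀ _ (F.c.ne _ _)]
          congr 2
          group
        rw [← Matrix.smul_mul, ← h2, Matrix.mul_assoc, mul_inv_T' hR, Matrix.mul_one]
      rw [h1, smul_smul, Matrix.mul_smul, Matrix.smul_mul]
      congr 1
      rw [← hl r r.2]
      have h3 := F.c.ne r g
      have h4 := F.c.ne g (g⁻¹ * r * g)
      have h5 := hM.ne i _ (hnorm r r.2)
      change (M i (g⁻¹ * r * g))⁻¹ =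
        (F.c.a r g / F.c.a g (g⁻¹ * r * g) * M i (g⁻¹ * r * g))⁻¹ *
          (F.c.a r g / F.c.a g (g⁻¹ * r * g))
      field_simp
    rw [← hfg, hfe]

end

end MP0775d3.Solv
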