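import Pool.Agent.Lib.MP_0775d3_lc.Sl2.Rect

/-! Twisted class functions on finite groups: definitions and first properties. -/

set_option linter.unusedSectionVars false

namespace MP0775d3.Solv

open Matrix MP0775d3.Sl2

/-- A nowhere vanishing 2-cocycle. -/
structure Coc (Q : Type) [Group Q] where
  a : Q → Q → ℂ
  ne : ∀ x y, a x y ≠ 0
  coc : ∀ x y z, a x y * a (x * y) z = a x (y * z) * a y z

section
variable {Q : Type} [Group Q]

/-- Twisted class functions: `∑ c x • T x` commutes with all `T y`. -/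
def Central (α : Coc Q) (c : Q → ℂ) : Prop :=
  ∀ x y, c x * α.a x y = c (y⁻¹ * x * y) * α.a y (y⁻¹ * x * y)

/-- The matrix of left multiplication by `∑ c x • T x` in the basis `T`. -/
noncomputable def tmat (α : Coc Q) (c : Q → ℂ) : Matrix Q Q ℂ :=
  Matrix.of fun g h => c (g * h⁻¹) * α.a (g * h⁻¹) h

/-- Rank and sparsity bound for the matrix of a twisted class function. -/
def TBound (α : Coc Q) (c : Q → ℂ) (r σ : ℝ) : Prop := ∀ [Fintype Q], RDec (tmat α c) r σ

end

/-- A linearly independent family of matrices that multiplies like a twisted group algebra. -/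
structure TFam (Q : Type) [Group Q] (X : Type) [Fintype X] [DecidableEq X] where
  T : Q → Matrix X X ℂ
  c : Coc Q
  mul : ∀ x y, T x * T y = c.a x y • T (x * y)
  indep : LinearIndependent ℂ T

/-- Bound for Fourier matrices of a finite abelian group: any set of different characters. -/
def FBound (W : Type) [Group W] (ρ σ : ℝ) : Prop :=
  ∀ [Fintype W] (X : Type) [Fintype X] (χ : X → W → ℂ), (∀ x, χ x 1 = 1) →
    (∀ x v w, χ x (v * w) = χ x v * χ x w) → Function.Injective χ →
    RDec (Matrix.of fun (w : W) (x : X) => χ x w) (Nat.card W * ρ) σ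

section
variable {Q : Type} [Group Q] {X : Type} [Fintype X] [DecidableEq X]

/-- From independence and multiplication up to nonzero scalars. -/
theorem exists_tfam (T : Q → Matrix X X ℂ) (hT : LinearIndependent ℂ T)
    (h : ∀ x y, ∃ a : ℂ, a ≠ 0 ∧ T x * T y = a • T (x * y)) : ∃ F : TFam Q X, F.T = T := by
  choose a ha hmul using h
  refine ⟨⟨T, ⟨a, ha, ?_⟩, hmul, hT⟩, rfl⟩
  intro x y z
  have hne : T (x * y * z) ≠ 0 := hT.ne_zero _
  have h1 : T x * T y * T z = (a x y * a (x * y) z) • T (x * y * z) := by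
    rw [hmul, Matrix.smul_mul, hmul, smul_smul]
  have h2 : T x * (T y * T z) = (a x (y * z) * a y z) • T (x * y * z) := by
    rw [hmul, Matrix.mul_smul, hmul, smul_smul, mul_comm, mul_assoc x y z]
  rw [Matrix.mul_assoc, h2] at h1
  exact (smul_left_injective ℂ hne h1).symm

variable [Fintype Q]

/-- Left multiplication by `∑ c x • T x` in the basis `T`. -/
theorem TFam.sum_mul (F : TFam Q X) (c : Q → ℂ) (y : Q) :
    (∑ x, c x • F.T x) * F.T y = ∑ x, tmat F.c c x y • F.T x := by
  rw [Finset.sum_mul, ← Equiv.sum_comp (Equiv.mulRight y) (fun x => tmat F.c c x y • F.T x)]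
  refine Finset.sum_congr rfl fun x _ => ?_
  rw [Matrix.smul_mul, F.mul, smul_smul, Equiv.coe_mulRight, tmat, Matrix.of_apply,
    mul_inv_cancel_right]

theorem TFam.mul_sum (F : TFam Q X) (c : Q → ℂ) (y : Q) :
    F.T y * (∑ x, c x • F.T x) = ∑ x, (c (y⁻¹ * x) * F.c.a y (y⁻¹ * x)) • F.T x := by
  rw [Finset.mul_sum, ← Equiv.sum_comp (Equiv.mulLeft y)
    (fun x => (c (y⁻¹ * x) * F.c.a y (y⁻¹ * x)) • F.T x)]
  refine Finset.sum_congr rfl fun x _ => ?_
  rw [Matrix.mul_smul, F.mul, smul_smul, Equiv.coe_mulLeft, inv_mul_cancel_left]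

/-- Coefficients are unique. -/
theorem TFam.coeff_unique (F : TFam Q X) {c d : Q → ℂ}
    (h : ∑ x, c x • F.T x = ∑ x, d x • F.T x) : c = d := by
  funext x
  have h1 : ∑ x, (c x - d x) • F.T x = 0 := by
    simp_rw [sub_smul, Finset.sum_sub_distrib]
    rw [h, sub_self]
  exact sub_eq_zero.mp (Fintype.linearIndependent_iff.mp F.indep _ h1 x)

/-- The coefficients of a central element. -/
theorem TFam.central (F : TFam Q X) (c : Q → ℂ)
    (h : ∀ y, (∑ x, c x • F.T x) * F.T y = F.T y * (∑ x, c x • F.T x)) : Central F.c c := by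
  intro x y
  have h1 := h y
  rw [F.sum_mul, F.mul_sum] at h1
  have h2 := congrFun (F.coeff_unique h1) (x * y)
  rw [tmat, Matrix.of_apply, mul_inv_cancel_right, ← mul_assoc] at h2
  exact h2

theorem TFam.comm_of_central (F : TFam Q X) (c : Q → ℂ) (h : Central F.c c) (y : Q) :
    (∑ x, c x • F.T x) * F.T y = F.T y * (∑ x, c x • F.T x) := by
  rw [F.sum_mul, F.mul_sum]
  refine Finset.sum_congr rfl fun x _ => ?_
  rw [tmat, Matrix.of_apply, h (x * y⁻¹) y]
  congr 2
  · congr 1
    group
  · congr 1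
    group

end

end MP0775d3.Solv
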