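import Pool.Agent.Lib.MP_0775d3_lc.Solv.Defs
import Pool.Agent.Lib.MP_0775d3_lc.Solv.Blocks
import Pool.Agent.Lib.MP_0775d3_lc.Solv.Pair

/-! The matrices of the change of basis in the nondegenerate step. -/

set_option linter.unusedSectionVars false

namespace MP0775d3.Solv

open Matrix MP0775d3.Sl2

/-- The hypotheses on a matrix `κ` over a finite abelian group `A` with pairing `B` and
automorphism `σ`. -/
structure Kap {A : Type} [Group A] (B : A → A → ℂ) (σ : A ≃* A) (κ : A → A → ℂ) : Prop where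
  comm : ∀ a b : A, a * b = b * a
  hl : ∀ x y z, B (x * y) z = B x z * B y z
  hr : ∀ x y z, B x (y * z) = B x y * B x z
  h0 : ∀ x y, B x y ≠ 0
  hn : ∀ x, (∀ y, B x y = 1) → x = 1
  hs : ∀ x y, B x y * B y x = 1
  hσ : ∀ x y, B (σ x) (σ y) = B x y
  r1 : ∀ b c, ∃ θ : ℂ, θ ≠ 0 ∧ ∀ a, κ a (b * (c * (σ c)⁻¹)) = B c a * θ * κ a b
  r2 : ∀ a b, ∃ φ : ℂ, φ ≠ 0 ∧ κ a b = φ * κ (b⁻¹ * a) 1

section
variable {A : Type} [Group A] [Fintype A] {B : A → A → ℂ} {σ : A ≃* A} {κ : A → A → ℂ}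

/-- PROOF. `B` replaced by its inverse, all relations are inverted. -/
theorem Kap.inv (h : Kap B σ κ) : Kap (fun x y => (B x y)⁻¹) σ (fun a b => (κ a b)⁻¹) := by
  refine ⟨h.comm, fun x y z => ?_, fun x y z => ?_, fun x y => inv_ne_zero (h.h0 x y),
    fun x hx => h.hn x fun y => inv_eq_one.mp (hx y), fun x y => ?_, fun x y => ?_,
    fun b c => ?_, fun a b => ?_⟩
  · rw [h.hl, mul_inv]
  · rw [h.hr, mul_inv]
  · rw [← mul_inv, h.hs, inv_one]
  · rw [h.hσ]
  · obtain ⟨θ, h1, h2⟩ := h.r1 b c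
    exact ⟨θ⁻¹, inv_ne_zero h1, fun a => by rw [h2, mul_inv, mul_inv]⟩
  · obtain ⟨φ, h1, h2⟩ := h.r2 a b
    exact ⟨φ⁻¹, inv_ne_zero h1, by rw [h2, mul_inv]⟩

/-- PROOF. For `c` with `σ c = c`, `r1` says `B c a * θ = 1` (as `κ a b ≠ 0`), the same for `a'`;
so `B c (a' * a⁻¹) = 1`; now `mem_range_of_perp`. -/
theorem Kap.supp_left (h : Kap B σ κ) (a a' b : A) (h1 : κ a b ≠ 0) (h2 : κ a' b ≠ 0) :
    ∃ c, a' * a⁻¹ = c * (σ c)⁻¹ := by
  refine mem_range_of_perp h.comm B h.hl h.hr h.h0 h.hn σ h.hσ _ fun c hc => ?_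
  obtain ⟨θ, h3, h4⟩ := h.r1 b c
  have key : ∀ x, κ x b ≠ 0 → B c x * θ = 1 := by
    intro x hx
    have h5 := h4 x
    rw [hc, mul_inv_cancel, mul_one] at h5
    have h6 : (B c x * θ - 1) * κ x b = 0 := by linear_combination -h5
    exact sub_eq_zero.mp ((mul_eq_zero.mp h6).resolve_right hx)
  have h5 : B c a' = B c a := mul_right_cancel₀ h3 ((key a' h2).trans (key a h1).symm)
  have h6 : B c a' = B c (a' * a⁻¹) * B c a := by rw [← h.hr, inv_mul_cancel_right]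
  have h7 : (B c (a' * a⁻¹) - 1) * B c a = 0 := by linear_combination -h6 + h5
  exact sub_eq_zero.mp ((mul_eq_zero.mp h7).resolve_right (h.h0 c a))

/-- PROOF. By `r2`, `κ (b⁻¹ * a) 1` and `κ (b'⁻¹ * a) 1` are not zero; apply `supp_left`. -/
theorem Kap.supp_right (h : Kap B σ κ) (a b b' : A) (h1 : κ a b ≠ 0) (h2 : κ a b' ≠ 0) :
    ∃ c, b' * b⁻¹ = c * (σ c)⁻¹ := by
  have key : ∀ x, κ a x ≠ 0 → κ (x⁻¹ * a) 1 ≠ 0 := by
    intro x hx hc
    obtain ⟨φ, -, h4⟩ := h.r2 a x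
    exact hx (by rw [h4, hc, mul_zero])
  obtain ⟨c, hc⟩ := h.supp_left (b'⁻¹ * a) (b⁻¹ * a) 1 (key b' h2) (key b h1)
  refine ⟨c, ?_⟩
  rw [← hc, h.comm b' b⁻¹]
  group

/-- PROOF. Let `W` be the subgroup of all `c * (σ c)⁻¹`; for `w ∈ W` fix `c w` with
`w = c w * (σ (c w))⁻¹`. Blocks: the columns `b` are divided into the cosets of `W`; the row `a` goes to
the coset of any `b` with `κ a b ≠ 0` (unique by `supp_right`; arbitrary if the row is zero). In the
block of `b₀ W` all rows that are not zero are in one coset `a₀ W` (`supp_left`, moving `b` to `b₀` by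
`r1`), and `κ (a₀ v) (b₀ w) = χ w v * (B (c w) a₀ * θ) * κ (a₀ v) b₀`, where `χ w v = B (c w) v` is a
character of `v ∈ W`; different `w` give different characters of `W` by `fix_of_perp`. So the block
is, up to row and column factors, a part of the matrix `χ w v` of `FBound W` with `X = W` (rows that
are zero: row factor `0`). The bound for one block is `|W| ρ`, the number of blocks `|A| / |W|`. Use
`rdec_blocks'`. -/
theorem Kap.rdec (h : Kap B σ κ) (ρ τ : ℝ) (hτ : 0 ≤ τ) (hF : ∀ V : Subgroup A, FBound V ρ τ) :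
    RDec (Matrix.of κ) (Nat.card A * ρ) τ := by
  classical
  -- the subgroup of all `c * (σ c)⁻¹`
  let W : Subgroup A :=
    { carrier := {w | ∃ c, w = c * (σ c)⁻¹}
      one_mem' := ⟨1, by rw [map_one, inv_one, mul_one]⟩
      mul_mem' := by
        rintro _ _ ⟨c, rfl⟩ ⟨d, rfl⟩
        refine ⟨c * d, ?_⟩
        rw [map_mul, _root_.mul_inv_rev, mul_assoc c, h.comm (σ c)⁻¹, ← mul_assoc, ← mul_assoc,
          ← mul_assoc]
      inv_mem' := by
        rintro _ ⟨c, rfl⟩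
        refine ⟨c⁻¹, ?_⟩
        rw [map_inv, inv_inv, _root_.mul_inv_rev, inv_inv]
        exact h.comm _ _ }
  have hW : ∀ w : A, w ∈ W ↔ ∃ c, w = c * (σ c)⁻¹ := fun w => Iff.rfl
  choose cc hcc using fun w : W => (hW w.1).mp w.2
  choose θ hθ hr1 using h.r1
  obtain ⟨x₀, hx₀⟩ : ∃ x₀ : A, (∃ x, κ x 1 ≠ 0) → κ x₀ 1 ≠ 0 := by
    by_cases hx : ∃ x, κ x 1 ≠ 0
    · obtain ⟨x, hx⟩ := hx
      exact ⟨x, fun _ => hx⟩
    · exact ⟨1, fun h1 => absurd h1 hx⟩
  have hone : ∀ c, B c 1 = 1 := by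
    intro c
    have h1 := h.hr c 1 1
    rw [mul_one] at h1
    have h2 : (B c 1 - 1) * B c 1 = 0 := by linear_combination -h1
    exact sub_eq_zero.mp ((mul_eq_zero.mp h2).resolve_right (h.h0 c 1))
  let _ : Fintype (A ⧸ W) := Fintype.ofFinite _
  let _ : Fintype W := Fintype.ofFinite _
  have hχ : RDec (Matrix.of fun (v : W) (w : W) => B (cc w) v.1) (Nat.card W * ρ) τ := by
    refine hF W W (fun w v => B (cc w) v.1) (fun w => hone _) (fun w v v' => h.hr _ _ _) ?_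
    intro w w' hw
    have h1 : ∀ v : W, B (cc w * (cc w')⁻¹) v.1 = 1 := by
      intro v
      have h2 : B (cc w) v.1 = B (cc w * (cc w')⁻¹) v.1 * B (cc w') v.1 := by
        rw [← h.hl, inv_mul_cancel_right]
      have h3 : B (cc w) v.1 = B (cc w') v.1 := congrFun hw v
      have h4 : (B (cc w * (cc w')⁻¹) v.1 - 1) * B (cc w') v.1 = 0 := by
        linear_combination -h2 + h3
      exact sub_eq_zero.mp ((mul_eq_zero.mp h4).resolve_right (h.h0 _ _))
    have h2 := fix_of_perp B h.hl h.hr h.h0 h.hn σ h.hσ (cc w * (cc w')⁻¹)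
      fun c => h1 ⟨c * (σ c)⁻¹, c, rfl⟩
    rw [map_mul, map_inv] at h2
    apply Subtype.ext
    rw [hcc w, hcc w']
    have h3 : cc w = σ (cc w) * (σ (cc w'))⁻¹ * cc w' := by rw [h2, inv_mul_cancel_right]
    calc cc w * (σ (cc w))⁻¹ = (σ (cc w))⁻¹ * cc w := h.comm _ _
      _ = (σ (cc w))⁻¹ * (σ (cc w) * (σ (cc w'))⁻¹ * cc w') := by rw [← h3]
      _ = (σ (cc w'))⁻¹ * cc w' := by rw [mul_assoc, inv_mul_cancel_left]
      _ = _ := h.comm _ _
  have hmem : ∀ (i : A ⧸ W) (b : A), (b : A ⧸ W) = i → (Quotient.out i)⁻¹ * b ∈ W := by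
    intro i b hb
    rw [← QuotientGroup.eq, hb]
    exact Quotient.out_eq i
  have e1 : (Nat.card A : ℝ) * ρ = ∑ _i : A ⧸ W, (Nat.card W : ℝ) * ρ := by
    rw [Finset.sum_const, Finset.card_univ, nsmul_eq_mul, ← mul_assoc,
      Subgroup.card_eq_card_quotient_mul_card_subgroup W, Nat.card_eq_fintype_card (α := A ⧸ W)]
    push_cast
    rfl
  rw [e1]
  refine rdec_blocks' (Matrix.of κ) (fun a => ((a * x₀⁻¹ : A) : A ⧸ W)) (fun b => (b : A ⧸ W)) ?_
    (fun _ => (Nat.card W : ℝ) * ρ) τ hτ (fun _ => W) (fun _ => W)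
    (fun _ => Matrix.of fun (v : W) (w : W) => B (cc w) v.1) (fun _ => hχ)
    (fun i a => if ha : (Quotient.out i)⁻¹ * (a * x₀⁻¹) ∈ W then ⟨_, ha⟩ else 1)
    (fun i b => if hb : (Quotient.out i)⁻¹ * b ∈ W then ⟨_, hb⟩ else 1) ?_ ?_
    (fun a => κ a (Quotient.out ((a * x₀⁻¹ : A) : A ⧸ W)))
    (fun b => if hb : (Quotient.out (b : A ⧸ W))⁻¹ * b ∈ W then
      B (cc ⟨_, hb⟩) (Quotient.out (b : A ⧸ W) * x₀) *
        θ (Quotient.out (b : A ⧸ W)) (cc ⟨_, hb⟩) else 0) ?_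
  · intro a b hab
    by_contra hne
    rw [Matrix.of_apply] at hne
    apply hab
    obtain ⟨φ, -, h4⟩ := h.r2 a b
    have h5 : κ (b⁻¹ * a) 1 ≠ 0 := fun hc => hne (by rw [h4, hc, mul_zero])
    obtain ⟨c, hc⟩ := h.supp_left x₀ (b⁻¹ * a) 1 (hx₀ ⟨_, h5⟩) h5
    symm
    rw [QuotientGroup.eq]
    refine (hW _).mpr ⟨c, ?_⟩
    rw [← hc, mul_assoc]
  · intro i a a' ha ha' haa
    have h1 := hmem i _ ha
    have h2 := hmem i _ ha'
    simp only [dif_pos h1, dif_pos h2] at haa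
    have h3 := congrArg Subtype.val haa
    exact mul_right_cancel (mul_left_cancel h3)
  · intro i b b' hb hb' hbb
    have h1 := hmem i _ hb
    have h2 := hmem i _ hb'
    simp only [dif_pos h1, dif_pos h2] at hbb
    have h3 := congrArg Subtype.val hbb
    exact mul_left_cancel h3
  · intro i a b ha hb
    have h1 := hmem i _ ha
    have h2 := hmem i _ hb
    have ha' : ((a * x₀⁻¹ : A) : A ⧸ W) = i := ha
    have hb' : (b : A ⧸ W) = i := hb
    clear ha hb
    subst hb'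
    simp only [ha', dif_pos h1, dif_pos h2, Matrix.of_apply]
    have h3 := hr1 (Quotient.out (b : A ⧸ W)) (cc ⟨_, h2⟩) a
    rw [← hcc ⟨_, h2⟩] at h3
    simp only [mul_inv_cancel_left] at h3
    have h4 : B (cc ⟨_, h2⟩) a = B (cc ⟨_, h2⟩) (Quotient.out (b : A ⧸ W) * x₀) *
        B (cc ⟨_, h2⟩) ((Quotient.out (b : A ⧸ W))⁻¹ * (a * x₀⁻¹)) := by
      rw [← h.hr]
      congr 1
      rw [h.comm (Quotient.out (b : A ⧸ W)) x₀, mul_assoc, mul_inv_cancel_left, h.comm a,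
        mul_inv_cancel_left]
    rw [h3, h4]
    ring

/-- PROOF. `a = a'`: the sum is the number of `b` with `κ a b ≠ 0`, that is with
`κ (b⁻¹ * a) 1 ≠ 0`. `a ≠ a'`: if some term is not zero, at `b₀` say, then `u = a' * a⁻¹` is in the
subgroup `W` of all `c * (σ c)⁻¹`, all nonzero terms are at `b ∈ b₀ W`, and the term at
`b₀ * (c * (σ c)⁻¹)` is `B c u` times the term at `b₀`. So `∑ over c ∈ A` of `B c u` is zero
(`char_sum`, `u ≠ 1`, nondegenerate on the right by `hs`), and this sum is the number of fixed points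
of `σ` times the sum over `W`. -/
theorem Kap.orth [DecidableEq A] (h : Kap B σ κ) (a a' : A) :
    ∑ b, κ a' b * (κ a b)⁻¹ =
      if a = a' then (({x | κ x 1 ≠ 0} : Set A).ncard : ℂ) else 0 := by
  classical
  by_cases haa : a = a'
  · subst haa
    rw [if_pos rfl]
    have h1 : ∀ b, κ a b * (κ a b)⁻¹ = if κ (b⁻¹ * a) 1 ≠ 0 then 1 else 0 := by
      intro b
      obtain ⟨φ, h3, h4⟩ := h.r2 a b
      by_cases hb : κ (b⁻¹ * a) 1 = 0
      · rw [h4, hb, mul_zero, zero_mul, if_neg (not_not.mpr rfl)]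
      · rw [if_pos hb, mul_inv_cancel₀]
        rw [h4]
        exact mul_ne_zero h3 hb
    simp_rw [h1]
    have e1 : (fun b : A => if κ (b⁻¹ * a) 1 ≠ 0 then (1 : ℂ) else 0) =
        fun b => (fun x : A => if κ x 1 ≠ 0 then (1 : ℂ) else 0)
          (((Equiv.inv A).trans (Equiv.mulRight a)) b) := by
      funext b
      simp
    rw [e1, Equiv.sum_comp ((Equiv.inv A).trans (Equiv.mulRight a))
      (fun x : A => if κ x 1 ≠ 0 then (1 : ℂ) else 0), Finset.sum_boole]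
    congr 1
    rw [Set.ncard_eq_toFinset_card']
    congr 1
    ext x
    simp
  · rw [if_neg haa]
    by_contra hS
    apply haa
    have key : ∀ c, B c (a' * a⁻¹) = 1 := by
      intro c
      have h1 : ∑ b, κ a' b * (κ a b)⁻¹ =
          B c (a' * a⁻¹) * ∑ b, κ a' b * (κ a b)⁻¹ := by
        rw [Finset.mul_sum, ← Equiv.sum_comp (Equiv.mulRight (c * (σ c)⁻¹))
          (fun b => κ a' b * (κ a b)⁻¹)]
        refine Finset.sum_congr rfl fun b _ => ?_
        obtain ⟨θ, h3, h4⟩ := h.r1 b c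
        have h5 : B c a' = B c (a' * a⁻¹) * B c a := by rw [← h.hr, inv_mul_cancel_right]
        rw [Equiv.coe_mulRight, h4 a, h4 a', h5]
        by_cases h6 : κ a b = 0
        · rw [h6, mul_zero, _root_.inv_zero, mul_zero, mul_zero, mul_zero]
        · have h7 := h.h0 c a
          field_simp
      have h2 : (B c (a' * a⁻¹) - 1) * ∑ b, κ a' b * (κ a b)⁻¹ = 0 := by
        linear_combination -h1
      exact sub_eq_zero.mp ((mul_eq_zero.mp h2).resolve_right hS)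
    have h1 : a' * a⁻¹ = 1 := by
      refine h.hn _ fun c => ?_
      have h2 := h.hs c (a' * a⁻¹)
      rwa [key c, one_mul] at h2
    exact (mul_inv_eq_one.mp h1).symm

end

end MP0775d3.Solv
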