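import Pool.Agent.Lib.MP_0775d3_lc.Solv.Reg
import Pool.Agent.Lib.MP_0775d3_lc.Solv.Pair

/-! The projection on the centraliser of the elements `T a`, `a ∈ A`. -/

set_option linter.unusedSectionVars false

namespace MP0775d3.Solv

open Matrix MP0775d3.Sl2

section
variable {Q : Type} [Group Q] [Fintype Q] [DecidableEq Q]

/-- The commutator pairing: `T a * T b = pair a b • T b * T a` if `a b = b a`. -/
noncomputable def pair (α : Coc Q) (a b : Q) : ℂ := α.a a b / α.a b a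

/-- A twisted group algebra with its regular representation and an abelian normal subgroup. -/
structure Reg (F : TFam Q Q) (A : Subgroup Q) : Prop where
  unit : ∀ g, IsUnit (F.T g)
  one : F.T 1 = F.c.a 1 1 • (1 : Matrix Q Q ℂ)
  normal : A.Normal
  comm : ∀ a ∈ A, ∀ b ∈ A, a * b = b * a

variable {F : TFam Q Q} {A : Subgroup Q}

theorem pair_ne (α : Coc Q) (a b : Q) : pair α a b ≠ 0 := div_ne_zero (α.ne _ _) (α.ne _ _)

theorem pair_swap (α : Coc Q) (a b : Q) : pair α a b * pair α b a = 1 := by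
  have h1 := α.ne a b
  have h2 := α.ne b a
  rw [pair, pair]
  field_simp

theorem pair_comm (F : TFam Q Q) (a b : Q) (hab : a * b = b * a) :
    F.T a * F.T b = pair F.c a b • (F.T b * F.T a) := by
  rw [F.mul, F.mul, smul_smul, hab, pair, div_mul_cancel₀ _ (F.c.ne _ _)]

/-- PROOF. `T (a * b)` is a multiple of `T a * T b`; apply `pair_comm` to both sides of
`T a * T b * T c`. -/
theorem pair_mul_left (F : TFam Q Q) (a b c : Q) (h1 : a * c = c * a) (h2 : b * c = c * b) :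
    pair F.c (a * b) c = pair F.c a c * pair F.c b c := by
  have h3 : a * b * c = c * (a * b) := by rw [mul_assoc, h2, ← mul_assoc, h1, mul_assoc]
  have e1 : F.T a * F.T b * F.T c =
      (F.c.a a b * pair F.c (a * b) c) • (F.T c * F.T (a * b)) := by
    rw [F.mul, Matrix.smul_mul, pair_comm F _ _ h3, smul_smul]
  have e2 : F.T a * F.T b * F.T c =
      (F.c.a a b * (pair F.c a c * pair F.c b c)) • (F.T c * F.T (a * b)) := by
    rw [Matrix.mul_assoc, pair_comm F _ _ h2, Matrix.mul_smul, ← Matrix.mul_assoc,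
      pair_comm F _ _ h1, Matrix.smul_mul, Matrix.mul_assoc, F.mul a b, Matrix.mul_smul, smul_smul,
      smul_smul]
    congr 1
    ring
  rw [e1, F.mul, smul_smul, smul_smul] at e2
  have e3 := smul_left_injective ℂ (F.indep.ne_zero (c * (a * b))) e2
  have e4 := mul_right_cancel₀ (F.c.ne _ _) e3
  exact mul_left_cancel₀ (F.c.ne _ _) e4

/-- PROOF. From `pair_mul_left` and `pair_swap`. -/
theorem pair_mul_right (F : TFam Q Q) (a b c : Q) (h1 : a * b = b * a) (h2 : a * c = c * a) :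
    pair F.c a (b * c) = pair F.c a b * pair F.c a c := by
  have e1 := pair_mul_left F b c a h1.symm h2.symm
  have e2 := pair_swap F.c a (b * c)
  have e3 := pair_swap F.c a b
  have e4 := pair_swap F.c a c
  rw [e1] at e2
  calc pair F.c a (b * c) = pair F.c a (b * c) * ((pair F.c a b * pair F.c b a) *
        (pair F.c a c * pair F.c c a)) := by rw [e3, e4, mul_one, mul_one]
    _ = (pair F.c a (b * c) * (pair F.c b a * pair F.c c a)) *
        (pair F.c a b * pair F.c a c) := by ring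
    _ = pair F.c a b * pair F.c a c := by rw [e2, one_mul]

private theorem mul_inv_T (hR : Reg F A) (g : Q) : F.T g * (F.T g)⁻¹ = 1 :=
  Matrix.mul_nonsing_inv _ ((Matrix.isUnit_iff_isUnit_det _).mp (hR.unit g))

private theorem inv_mul_T (hR : Reg F A) (g : Q) : (F.T g)⁻¹ * F.T g = 1 :=
  Matrix.nonsing_inv_mul _ ((Matrix.isUnit_iff_isUnit_det _).mp (hR.unit g))

/-- Conjugation by `T g`. -/
private theorem conj_T (hR : Reg F A) (g a : Q) :
    ∃ ν : ℂ, ν ≠ 0 ∧ F.T g * F.T a * (F.T g)⁻¹ = ν • F.T (g * a * g⁻¹) := by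
  refine ⟨F.c.a g a / F.c.a (g * a * g⁻¹) g, div_ne_zero (F.c.ne _ _) (F.c.ne _ _), ?_⟩
  have h1 : F.T g * F.T a =
      ((F.c.a g a / F.c.a (g * a * g⁻¹) g) • F.T (g * a * g⁻¹)) * F.T g := by
    rw [Matrix.smul_mul, F.mul, F.mul, smul_smul, div_mul_cancel₀ _ (F.c.ne _ _),
      inv_mul_cancel_right]
  rw [h1, Matrix.mul_assoc, mul_inv_T hR, Matrix.mul_one]

/-- PROOF. `T g * T a = ν • T (g a g⁻¹) * T g` for a nonzero `ν`; conjugate `pair_comm` by the
invertible `T g`. -/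
theorem pair_conj (hR : Reg F A) (g a b : Q) (hab : a * b = b * a) :
    pair F.c (g * a * g⁻¹) (g * b * g⁻¹) = pair F.c a b := by
  obtain ⟨ν, hν, e1⟩ := conj_T hR g a
  obtain ⟨μ, hμ, e2⟩ := conj_T hR g b
  have h3 : (g * a * g⁻¹) * (g * b * g⁻¹) = (g * b * g⁻¹) * (g * a * g⁻¹) := by
    calc (g * a * g⁻¹) * (g * b * g⁻¹) = g * (a * b) * g⁻¹ := by group
      _ = g * (b * a) * g⁻¹ := by rw [hab]
      _ = (g * b * g⁻¹) * (g * a * g⁻¹) := by group
  have h4 : ∀ X Y : Matrix Q Q ℂ, (F.T g * X * (F.T g)⁻¹) * (F.T g * Y * (F.T g)⁻¹) =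
      F.T g * (X * Y) * (F.T g)⁻¹ := by
    intro X Y
    calc (F.T g * X * (F.T g)⁻¹) * (F.T g * Y * (F.T g)⁻¹)
        = F.T g * X * ((F.T g)⁻¹ * F.T g) * Y * (F.T g)⁻¹ := by
          simp only [Matrix.mul_assoc]
      _ = F.T g * (X * Y) * (F.T g)⁻¹ := by
          rw [inv_mul_T hR, Matrix.mul_one]
          simp only [Matrix.mul_assoc]
  have h5 : (F.T g * F.T a * (F.T g)⁻¹) * (F.T g * F.T b * (F.T g)⁻¹) =
      pair F.c a b • ((F.T g * F.T b * (F.T g)⁻¹) * (F.T g * F.T a * (F.T g)⁻¹)) := by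
    rw [h4, h4, pair_comm F a b hab, Matrix.mul_smul, Matrix.smul_mul]
  rw [e1, e2, Matrix.smul_mul, Matrix.mul_smul, pair_comm F _ _ h3, Matrix.smul_mul,
    Matrix.mul_smul, smul_smul, smul_smul, smul_smul, smul_smul, F.mul, smul_smul, smul_smul] at h5
  have e3 := smul_left_injective ℂ (F.indep.ne_zero _) h5
  have e4 : (ν * μ * F.c.a (g * b * g⁻¹) (g * a * g⁻¹)) *
      pair F.c (g * a * g⁻¹) (g * b * g⁻¹) =
      (ν * μ * F.c.a (g * b * g⁻¹) (g * a * g⁻¹)) * pair F.c a b := by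
    linear_combination e3
  exact mul_left_cancel₀ (mul_ne_zero (mul_ne_zero hν hμ) (F.c.ne _ _)) e4

open Classical in
/-- The averaged conjugate. -/
noncomputable def proj (F : TFam Q Q) (A : Subgroup Q) (z : Matrix Q Q ℂ) : Matrix Q Q ℂ :=
  (Nat.card A : ℂ)⁻¹ • ∑ a : A, F.T a * z * (F.T a)⁻¹

theorem proj_smul (s : ℂ) (z : Matrix Q Q ℂ) : proj F A (s • z) = s • proj F A z := by
  simp only [proj, Matrix.mul_smul, Matrix.smul_mul]
  rw [← Finset.smul_sum, smul_comm]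

theorem proj_sum {ι : Type} (s : Finset ι) (z : ι → Matrix Q Q ℂ) :
    proj F A (∑ i ∈ s, z i) = ∑ i ∈ s, proj F A (z i) := by
  simp only [proj]
  rw [← Finset.smul_sum, Finset.sum_comm]
  refine congrArg _ (Finset.sum_congr rfl fun a _ => ?_)
  rw [Matrix.mul_sum, Matrix.sum_mul]

/-- Conjugation by `T (b * a)`. -/
private theorem conj_mul (hR : Reg F A) (a b : Q) (z : Matrix Q Q ℂ) :
    F.T b * (F.T a * z * (F.T a)⁻¹) = F.T (b * a) * z * (F.T (b * a))⁻¹ * F.T b := by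
  have h0 := F.c.ne b a
  have h1 : F.T b * F.T a * (F.T a)⁻¹ = F.T b := by
    rw [Matrix.mul_assoc, mul_inv_T hR, Matrix.mul_one]
  have h2 : (F.T (b * a))⁻¹ * F.T b = F.c.a b a • (F.T a)⁻¹ := by
    rw [← h1, F.mul, Matrix.smul_mul, Matrix.mul_smul, ← Matrix.mul_assoc, inv_mul_T hR,
      Matrix.one_mul]
  rw [Matrix.mul_assoc _ _ (F.T b), h2, Matrix.mul_smul, ← Matrix.mul_assoc, ← Matrix.mul_assoc,
    F.mul, Matrix.smul_mul, Matrix.smul_mul]

/-- Conjugation by `T (a * b⁻¹)`. -/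
private theorem conj_mul' (hR : Reg F A) (a b : Q) (z : Matrix Q Q ℂ) :
    F.T (a * b) * ((F.T b)⁻¹ * z * F.T b) * (F.T (a * b))⁻¹ = F.T a * z * (F.T a)⁻¹ := by
  have h0 := F.c.ne a b
  have h1 : F.T (a * b) * (F.T b)⁻¹ = (F.c.a a b)⁻¹ • F.T a := by
    have e : F.T (a * b) = (F.c.a a b)⁻¹ • (F.T a * F.T b) := by
      rw [F.mul, smul_smul, inv_mul_cancel₀ h0, one_smul]
    rw [e, Matrix.smul_mul, Matrix.mul_assoc, mul_inv_T hR, Matrix.mul_one]
  have h2 : F.T b * (F.T (a * b))⁻¹ = F.c.a a b • (F.T a)⁻¹ := by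
    have e : F.T b = F.c.a a b • ((F.T a)⁻¹ * F.T (a * b)) := by
      rw [← Matrix.mul_smul, ← F.mul, ← Matrix.mul_assoc, inv_mul_T hR, Matrix.one_mul]
    rw [e, Matrix.smul_mul, Matrix.mul_assoc, mul_inv_T hR, Matrix.mul_one]
  calc F.T (a * b) * ((F.T b)⁻¹ * z * F.T b) * (F.T (a * b))⁻¹
      = (F.T (a * b) * (F.T b)⁻¹) * z * (F.T b * (F.T (a * b))⁻¹) := by
        simp only [Matrix.mul_assoc]
    _ = F.T a * z * (F.T a)⁻¹ := by
        rw [h1, h2, Matrix.smul_mul, Matrix.smul_mul, Matrix.mul_smul, smul_smul,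
          inv_mul_cancel₀ h0, one_smul]

/-- PROOF. `T b * T a` is a nonzero multiple of `T (b * a)`, so conjugation by `T b` permutes the
terms of the sum. -/
theorem proj_comm (hR : Reg F A) (b : Q) (hb : b ∈ A) (z : Matrix Q Q ℂ) :
    F.T b * proj F A z = proj F A z * F.T b := by
  classical
  rw [proj, Matrix.mul_smul, Matrix.smul_mul, Finset.mul_sum, Finset.sum_mul]
  congr 1
  rw [← Equiv.sum_comp (Equiv.mulLeft (⟨b, hb⟩ : A))
    (fun a : A => F.T a * z * (F.T a)⁻¹ * F.T b)]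
  refine Finset.sum_congr rfl fun a _ => ?_
  rw [conj_mul hR]
  rfl

/-- PROOF. As `proj_comm`, on the right. -/
theorem proj_conj (hR : Reg F A) (b : Q) (hb : b ∈ A) (z : Matrix Q Q ℂ) :
    proj F A ((F.T b)⁻¹ * z * F.T b) = proj F A z := by
  classical
  rw [proj, proj]
  congr 1
  rw [← Equiv.sum_comp (Equiv.mulRight (⟨b, hb⟩ : A))
    (fun a : A => F.T a * ((F.T b)⁻¹ * z * F.T b) * (F.T a)⁻¹)]
  refine Finset.sum_congr rfl fun a _ => ?_
  exact conj_mul' hR a b z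

theorem proj_fix (hR : Reg F A) (z : Matrix Q Q ℂ) (hz : ∀ b ∈ A, F.T b * z = z * F.T b) :
    proj F A z = z := by
  classical
  have h1 : ∀ a : A, F.T a * z * (F.T a)⁻¹ = z := fun a => by
    rw [hz a a.2, Matrix.mul_assoc, mul_inv_T hR, Matrix.mul_one]
  have h2 : (Nat.card A : ℂ) ≠ 0 := Nat.cast_ne_zero.mpr Nat.card_pos.ne'
  rw [proj, Finset.sum_congr rfl fun a _ => h1 a, Finset.sum_const, Finset.card_univ,
    ← Nat.card_eq_fintype_card, ← Nat.cast_smul_eq_nsmul ℂ, smul_smul, inv_mul_cancel₀ h2,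
    one_smul]

open Classical in
/-- PROOF. `∑ₐ T a * P ((T a)⁻¹ z) = |A|⁻¹ ∑_b (∑ₐ T a * T b * (T a)⁻¹) z (T b)⁻¹` after the
substitution `a → a`, `b → b` in `T b (T a)⁻¹`: precisely
`∑ₐ ∑_b T a * T b * (T a)⁻¹ * z * (T b)⁻¹` and `T a * T b * (T a)⁻¹ = pair a b • T b`, and
`∑ₐ pair a b = 0` for `b ≠ 1` (a nontrivial character of `A`, `char_sum`), `= |A|` for `b = 1`; and
`T 1` is a scalar matrix. -/
theorem proj_expand (hR : Reg F A) (hn : ∀ a ∈ A, (∀ b ∈ A, F.c.a a b = F.c.a b a) → a = 1)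
    (z : Matrix Q Q ℂ) :
    z = ∑ a : A, F.T a * proj F A ((F.T a)⁻¹ * z) := by
  have h2 : (Nat.card A : ℂ) ≠ 0 := Nat.cast_ne_zero.mpr Nat.card_pos.ne'
  have h3 : ∀ a b : A, F.T a * (F.T b * ((F.T a)⁻¹ * z) * (F.T b)⁻¹) =
      pair F.c a b • (F.T b * z * (F.T b)⁻¹) := by
    intro a b
    calc F.T a * (F.T b * ((F.T a)⁻¹ * z) * (F.T b)⁻¹)
        = (F.T a * F.T b) * (F.T a)⁻¹ * z * (F.T b)⁻¹ := by
          simp only [Matrix.mul_assoc]
      _ = pair F.c a b • (F.T b * z * (F.T b)⁻¹) := by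
          rw [pair_comm F _ _ (hR.comm a a.2 b b.2), Matrix.smul_mul, Matrix.smul_mul,
            Matrix.smul_mul, Matrix.mul_assoc (F.T b), mul_inv_T hR, Matrix.mul_one]
  have h4 : ∀ b : A, b ≠ 1 → ∑ a : A, pair F.c a b = 0 := by
    intro b hb
    refine char_sum (fun a : A => pair F.c a b) (fun v w => ?_) ?_
    · exact pair_mul_left F v w b (hR.comm v v.2 b b.2) (hR.comm w w.2 b b.2)
    · by_contra hc
      push Not at hc
      apply hb
      have h5 := hn b b.2 fun a ha => by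
        have h6 := hc ⟨a, ha⟩
        rw [pair, div_eq_one_iff_eq (F.c.ne _ _)] at h6
        exact h6.symm
      exact Subtype.ext h5
  have h7 : ∀ a : Q, pair F.c a 1 = 1 := by
    intro a
    have h8 := pair_mul_right F a 1 1 (by rw [mul_one, one_mul]) (by rw [mul_one, one_mul])
    rw [mul_one] at h8
    exact (mul_eq_left₀ (pair_ne F.c a 1)).mp h8.symm
  have h9 : F.T 1 * z * (F.T 1)⁻¹ = z := by
    have h10 : F.T 1 * z = z * F.T 1 := by
      rw [hR.one, Matrix.smul_mul, Matrix.mul_smul, Matrix.one_mul, Matrix.mul_one]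
    rw [h10, Matrix.mul_assoc, mul_inv_T hR, Matrix.mul_one]
  simp only [proj, Matrix.mul_smul]
  rw [← Finset.smul_sum]
  simp only [Finset.mul_sum]
  rw [Finset.sum_comm]
  have h11 : ∀ b : A, ∑ a : A, F.T a * (F.T b * ((F.T a)⁻¹ * z) * (F.T b)⁻¹) =
      if b = 1 then (Nat.card A : ℂ) • z else 0 := by
    intro b
    rw [Finset.sum_congr rfl fun a _ => h3 a b, ← Finset.sum_smul]
    split_ifs with hb
    · subst hb
      have h12 : ∑ a : A, pair F.c a ((1 : A) : Q) = Nat.card A := by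
        rw [Subgroup.coe_one, Finset.sum_congr rfl fun (a : A) _ => h7 a, Finset.sum_const, Finset.card_univ,
          ← Nat.card_eq_fintype_card, nsmul_eq_mul, mul_one]
      rw [h12]
      congr 1
    · rw [h4 b hb, zero_smul]
  rw [Finset.sum_congr rfl fun b _ => h11 b, Finset.sum_ite_eq' Finset.univ (1 : A)]
  rw [if_pos (Finset.mem_univ _), smul_smul, inv_mul_cancel₀ h2, one_smul]

end

end MP0775d3.Solv
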