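import Pool.Agent.Lib.MP_0775d3_lc.Solv.Defs

/-! The twisted regular representation; change of basis. -/

set_option linter.unusedSectionVars false

namespace MP0775d3.Solv

open Matrix MP0775d3.Sl2

private theorem reg_one_left {Q : Type} [Group Q] (α : Coc Q) (y : Q) : α.a 1 y = α.a 1 1 := by
  have h := α.coc 1 1 y
  rw [one_mul, one_mul] at h
  exact (mul_right_cancel₀ (α.ne 1 y) h).symm

/-- The twisted regular representation. PROOF. `T g = Matrix.of fun x y => if x = g * y then
α.a g y else 0`. Product: the entry at `(x, y)` of `T g * T h` is `α g (h y) α h y` if `x = g h y`,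
use `coc`. Independence: the entry at `(g, 1)` of `∑ c x • T x` is `c g * α g 1`. The sum is `tmat`:
entry `(g, h)`: only `x = g h⁻¹` contributes. `T 1 = α 1 1 • 1` since `α 1 y = α 1 1` (`coc 1 1 y`).
`T g * T g⁻¹ = α g g⁻¹ • T 1` is an invertible scalar matrix. -/
theorem exists_reg {Q : Type} [Group Q] [Fintype Q] [DecidableEq Q] (α : Coc Q) :
    ∃ F : TFam Q Q, F.c = α ∧ (∀ c : Q → ℂ, ∑ x, c x • F.T x = tmat α c) ∧
      (∀ g, IsUnit (F.T g)) ∧ F.T 1 = α.a 1 1 • (1 : Matrix Q Q ℂ) := by
  set T : Q → Matrix Q Q ℂ := fun g => Matrix.of fun x y => if x = g * y then α.a g y else 0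
    with hT
  have hTa : ∀ g x y, T g x y = if x = g * y then α.a g y else 0 := fun g x y => rfl
  have hmul : ∀ g h, T g * T h = α.a g h • T (g * h) := by
    intro g h
    ext x z
    rw [Matrix.mul_apply, Matrix.smul_apply, Finset.sum_eq_single (h * z), hTa, hTa, hTa,
      if_pos rfl, smul_eq_mul, mul_assoc g h z]
    · by_cases hx : x = g * (h * z)
      · rw [if_pos hx, if_pos hx]
        exact (α.coc g h z).symm
      · rw [if_neg hx, if_neg hx, zero_mul, mul_zero]
    · intro y _ hy
      rw [hTa h, if_neg hy, mul_zero]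
    · intro h0
      exact absurd (Finset.mem_univ _) h0
  have hsum : ∀ c : Q → ℂ, ∑ x, c x • T x = tmat α c := by
    intro c
    ext g h
    rw [Matrix.sum_apply, Finset.sum_eq_single (g * h⁻¹), Matrix.smul_apply, hTa,
      inv_mul_cancel_right, if_pos rfl, smul_eq_mul, tmat, Matrix.of_apply]
    · intro x _ hx
      rw [Matrix.smul_apply, hTa, if_neg, smul_zero]
      intro h1
      exact hx (by rw [h1, mul_inv_cancel_right])
    · intro h0
      exact absurd (Finset.mem_univ _) h0
  have hind : LinearIndependent ℂ T := by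
    rw [Fintype.linearIndependent_iff]
    intro c hc g
    rw [hsum] at hc
    have h1 := congrFun (congrFun hc g) 1
    rw [tmat, Matrix.of_apply, inv_one, mul_one, Matrix.zero_apply] at h1
    exact (mul_eq_zero.mp h1).resolve_right (α.ne _ _)
  have hone : T 1 = α.a 1 1 • (1 : Matrix Q Q ℂ) := by
    ext x y
    rw [hTa, one_mul, Matrix.smul_apply, Matrix.one_apply, reg_one_left α y]
    by_cases hx : x = y
    · rw [if_pos hx, if_pos hx, smul_eq_mul, mul_one]
    · rw [if_neg hx, if_neg hx, smul_zero]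
  refine ⟨⟨T, α, hmul, hind⟩, rfl, hsum, ?_, hone⟩
  intro g
  have h1 : T g * ((α.a g g⁻¹ * α.a 1 1)⁻¹ • T g⁻¹) = 1 := by
    rw [Matrix.mul_smul, hmul, mul_inv_cancel, hone, smul_smul, smul_smul, mul_assoc,
      inv_mul_cancel₀ (mul_ne_zero (α.ne _ _) (α.ne _ _)), one_smul]
  exact IsUnit.of_mul_eq_one _ h1

/-- Change of basis. PROOF. `φ (b i) = ∑ j, U' j i • φ (d j) = ∑ j, ∑ j', ∑ i', ...`; compare
coefficients with respect to `b`. -/
theorem change_basis {V I J : Type} [AddCommGroup V] [Module ℂ V] [Fintype I] [Fintype J]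
    (b : I → V) (hb : LinearIndependent ℂ b) (d : J → V) (φ : V →ₗ[ℂ] V) (M : Matrix I I ℂ)
    (D : Matrix J J ℂ) (U : Matrix I J ℂ) (U' : Matrix J I ℂ)
    (h1 : ∀ i, φ (b i) = ∑ i', M i' i • b i') (h2 : ∀ j, φ (d j) = ∑ j', D j' j • d j')
    (h3 : ∀ j, d j = ∑ i, U i j • b i) (h4 : ∀ i, b i = ∑ j, U' j i • d j) :
    M = U * D * U' := by
  have key : ∀ i, ∑ i', M i' i • b i' = ∑ i', (U * D * U') i' i • b i' := by
    intro i
    rw [← h1 i]
    conv_lhs => rw [h4 i]
    rw [map_sum]
    have e1 : ∀ j, φ (U' j i • d j) = ∑ i', ((U * D) i' j * U' j i) • b i' := by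
      intro j
      rw [map_smul, h2 j]
      have e2 : ∑ j', D j' j • d j' = ∑ i', (U * D) i' j • b i' := by
        have e3 : ∀ j', D j' j • d j' = ∑ i', (U i' j' * D j' j) • b i' := by
          intro j'
          rw [h3 j', Finset.smul_sum]
          exact Finset.sum_congr rfl fun i' _ => by rw [smul_smul, mul_comm]
        rw [Finset.sum_congr rfl fun j' _ => e3 j', Finset.sum_comm]
        exact Finset.sum_congr rfl fun i' _ => by rw [Matrix.mul_apply, Finset.sum_smul]
      rw [e2, Finset.smul_sum]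
      exact Finset.sum_congr rfl fun i' _ => by rw [smul_smul, mul_comm]
    rw [Finset.sum_congr rfl fun j _ => e1 j, Finset.sum_comm]
    exact Finset.sum_congr rfl fun i' _ => by rw [Matrix.mul_apply (M := U * D), Finset.sum_smul]
  ext i' i
  have h5 : ∑ i', (M i' i - (U * D * U') i' i) • b i' = 0 := by
    simp_rw [sub_smul, Finset.sum_sub_distrib]
    rw [key i, sub_self]
  exact sub_eq_zero.mp (Fintype.linearIndependent_iff.mp hb _ h5 i')

end MP0775d3.Solv
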