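import Pool.Agent.Lib.MP_0775d3_lc.Solv.StepOne

/-! The radical step: the bound. -/

set_option linter.unusedSectionVars false

namespace MP0775d3.Solv

open Matrix MP0775d3.Sl2

section Cosets
variable {Q : Type} [Group Q]

private theorem som_mem_coset (R : Subgroup Q) [R.Normal] (g : Q) (k : Q ⧸ R) :
    (g : Q ⧸ R) = k ↔ g * k.out⁻¹ ∈ R := by
  have h : ((k.out : Q) : Q ⧸ R) = k := QuotientGroup.out_eq' k
  constructor
  · intro h1
    have h2 : k.out⁻¹ * g ∈ R := QuotientGroup.eq.1 (h.trans h1.symm)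
    exact Subgroup.Normal.mem_comm inferInstance h2
  · intro h1
    have h2 : k.out⁻¹ * g ∈ R := Subgroup.Normal.mem_comm inferInstance h1
    exact ((QuotientGroup.eq.2 h2).symm.trans h)

variable (R S : Subgroup Q)

/-- the right coset of the representative -/
private noncomputable def som_rc (k : Q ⧸ R) : Quotient (QuotientGroup.rightRel S) :=
  Quotient.mk'' k.out

private theorem som_rc_mem (k : Q ⧸ R) : k.out * (som_rc R S k).out⁻¹ ∈ S := by
  have h : (QuotientGroup.rightRel S) (som_rc R S k).out k.out := Quotient.mk_out _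
  exact QuotientGroup.rightRel_apply.1 h

/-- the class of the quotient of the representatives -/
private noncomputable def som_yc (k : Q ⧸ R) : S ⧸ R.subgroupOf S :=
  ((⟨k.out * (som_rc R S k).out⁻¹, som_rc_mem R S k⟩ : S) : S ⧸ R.subgroupOf S)

private theorem som_bij [R.Normal] (hRS : R ≤ S) :
    Function.Bijective (fun k : Q ⧸ R => (som_rc R S k, som_yc R S k)) := by
  constructor
  · intro k k' h
    obtain ⟨h1, h2⟩ := Prod.mk.inj h
    have h3 := QuotientGroup.eq.1 h2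
    rw [Subgroup.mem_subgroupOf] at h3
    simp only [Subgroup.coe_mul, InvMemClass.coe_inv, h1] at h3
    have h4 : (som_rc R S k').out * (k.out⁻¹ * k'.out) * (som_rc R S k').out⁻¹ ∈ R := by
      convert h3 using 1
      group
    have h5 : k.out⁻¹ * k'.out ∈ R := by
      have := (inferInstance : R.Normal).conj_mem _ h4 (som_rc R S k').out⁻¹
      convert this using 1
      group
    rw [← QuotientGroup.out_eq' k, ← QuotientGroup.out_eq' k']
    exact QuotientGroup.eq.2 h5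
  · rintro ⟨t, x⟩
    obtain ⟨k, hk⟩ : ∃ k : Q ⧸ R, k = (((x.out : S) : Q) * t.out : Q) := ⟨_, rfl⟩
    have hr : k.out * t.out⁻¹ * ((x.out : S) : Q)⁻¹ ∈ R := by
      have h1 := (som_mem_coset R (((x.out : S) : Q) * t.out) k).1 hk.symm
      have h2 := R.inv_mem h1
      convert h2 using 1
      group
    have hS : k.out * t.out⁻¹ ∈ S := by
      have := S.mul_mem (hRS hr) (x.out).2
      convert this using 1
      group
    have ht : som_rc R S k = t := by
      have h1 : (QuotientGroup.rightRel S) t.out k.out := QuotientGroup.rightRel_apply.2 hS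
      have h2 : (Quotient.mk'' t.out : Quotient (QuotientGroup.rightRel S)) =
          Quotient.mk'' k.out := Quotient.sound h1
      rw [som_rc, ← h2]
      exact Quotient.out_eq' t
    refine ⟨k, Prod.ext ht ?_⟩
    change som_yc R S k = x
    rw [← QuotientGroup.out_eq' x, som_yc]
    symm
    rw [QuotientGroup.eq, Subgroup.mem_subgroupOf]
    simp only [Subgroup.coe_mul, InvMemClass.coe_inv, ht]
    exact Subgroup.Normal.mem_comm (inferInstance : R.Normal) hr

end Cosets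

section Fou
variable {Q : Type} [Group Q] [Fintype Q] [DecidableEq Q] {F : TFam Q Q} {R : Subgroup Q}
  {ι : Type} [Fintype ι] {M : ι → Q → ℂ}

private theorem som_one (hM : Chars F.c R ι M) (i : ι) : M i 1 = F.c.a 1 1 := by
  have h := hM.mul i 1 R.one_mem 1 R.one_mem
  rw [mul_one] at h
  exact mul_right_cancel₀ (hM.ne i 1 R.one_mem) h

private theorem som_nonempty (hM : Chars F.c R ι M) : Nonempty ι := by
  have h := hM.card
  have h2 : 0 < Nat.card R := Nat.card_pos
  exact Fintype.card_pos_iff.1 (by omega)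

open Classical in
/-- the Fourier matrix of the quotients of characters -/
private theorem som_fou (hM : Chars F.c R ι M) (j0 : ι) {ρF τ : ℝ} (hF : FBound R ρF τ) :
    RDec (Matrix.of fun (w : R) (i : ι) => M i w / M j0 w) (Nat.card R * ρF) τ := by
  refine hF ι (fun i w => M i w / M j0 w) (fun i => ?_) (fun i v w => ?_) (fun i j h => ?_)
  · have h1 : M j0 ((1 : R) : Q) = F.c.a 1 1 := som_one hM j0
    have h2 : M i ((1 : R) : Q) = F.c.a 1 1 := som_one hM i
    rw [h1, h2, div_self (F.c.ne 1 1)]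
  · have h1 := hM.mul i v v.2 w w.2
    have h2 := hM.mul j0 v v.2 w w.2
    have ha := F.c.ne (v : Q) (w : Q)
    have n1 := hM.ne j0 v v.2
    have n2 := hM.ne j0 w w.2
    have n3 := hM.ne j0 _ (R.mul_mem v.2 w.2)
    rw [Subgroup.coe_mul, div_mul_div_comm, h1, h2, mul_div_mul_left _ _ ha]
  · apply hM.inj
    intro r hr
    have h1 := congrFun h ⟨r, hr⟩
    simp only at h1
    exact (div_left_inj' (hM.ne j0 r hr)).1 h1

open Classical in
private theorem som_fou' (hM : Chars F.c R ι M) (j0 : ι) {ρF τ : ℝ} (hF : FBound R ρF τ) :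
    RDec (Matrix.of fun (w : R) (i : ι) => (M i w / M j0 w)⁻¹) (Nat.card R * ρF) τ := by
  refine hF ι (fun i w => (M i w / M j0 w)⁻¹) (fun i => ?_) (fun i v w => ?_) (fun i j h => ?_)
  · have h1 : M j0 ((1 : R) : Q) = F.c.a 1 1 := som_one hM j0
    have h2 : M i ((1 : R) : Q) = F.c.a 1 1 := som_one hM i
    rw [h1, h2, div_self (F.c.ne 1 1), inv_one]
  · have h1 := hM.mul i v v.2 w w.2
    have h2 := hM.mul j0 v v.2 w w.2
    have ha := F.c.ne (v : Q) (w : Q)
    rw [Subgroup.coe_mul, ← mul_inv, div_mul_div_comm, h1, h2, mul_div_mul_left _ _ ha]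
  · apply hM.inj
    intro r hr
    have h1 := congrFun h ⟨r, hr⟩
    simp only at h1
    exact (div_left_inj' (hM.ne j0 r hr)).1 (inv_injective h1)

open Classical in
private theorem som_card (R : Subgroup Q) (x : ℝ) :
    ∑ _k : Q ⧸ R, (Nat.card R : ℝ) * x = Nat.card Q * x := by
  rw [Finset.sum_const, Finset.card_univ, nsmul_eq_mul,
    Subgroup.card_eq_card_quotient_mul_card_subgroup R, Nat.card_eq_fintype_card (α := Q ⧸ R)]
  push_cast
  ring

open Classical in
private theorem som_U' [R.Normal] (hM : Chars F.c R ι M) {ρF τ : ℝ} (hτ : 0 ≤ τ)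
    (hF : FBound R ρF τ) :
    RDec (Matrix.of fun (j : ι × (Q ⧸ R)) (g : Q) => if j.2 = (g : Q ⧸ R) then
      (F.c.a (g * j.2.out⁻¹) j.2.out)⁻¹ * M j.1 (g * j.2.out⁻¹) else 0) (Nat.card Q * ρF) τ := by
  obtain ⟨j0⟩ := som_nonempty hM
  have h := rdec_blocks' (F := ℂ) (Matrix.of fun (j : ι × (Q ⧸ R)) (g : Q) =>
      if j.2 = (g : Q ⧸ R) then
      (F.c.a (g * j.2.out⁻¹) j.2.out)⁻¹ * M j.1 (g * j.2.out⁻¹) else 0)
    (fun j => j.2) (fun g => (g : Q ⧸ R)) (fun j g hjg => by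
      rw [Matrix.of_apply, if_neg hjg]) (fun _ => Nat.card R * ρF) τ hτ (fun _ => ι) (fun _ => R)
    (fun _ => (Matrix.of fun (w : R) (i : ι) => M i w / M j0 w)ᵀ)
    (fun _ => (som_fou hM j0 hF).transpose) (fun _ j => j.1)
    (fun k g => if h : g * k.out⁻¹ ∈ R then ⟨g * k.out⁻¹, h⟩ else 1)
    (fun k j j' h1 h2 h3 => Prod.ext h3 (h1.trans h2.symm))
    (fun k g g' h1 h2 h3 => by
      have m1 := (som_mem_coset R g k).1 h1
      have m2 := (som_mem_coset R g' k).1 h2
      simp only [dif_pos m1, dif_pos m2, Subtype.mk.injEq] at h3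
      exact mul_right_cancel h3)
    (fun _ => 1) (fun g => (F.c.a (g * (g : Q ⧸ R).out⁻¹) (g : Q ⧸ R).out)⁻¹ *
      M j0 (g * (g : Q ⧸ R).out⁻¹))
    (fun k j g h1 h2 => by
      have m2 := (som_mem_coset R g k).1 h2
      change j.2 = k at h1
      change (g : Q ⧸ R) = k at h2
      subst h1
      have n := hM.ne j0 _ m2
      rw [Matrix.of_apply, if_pos h2.symm, Matrix.transpose_apply, Matrix.of_apply, dif_pos m2,
        h2, one_mul]
      field_simp)
  rw [som_card] at h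
  exact h

open Classical in
private theorem som_U [R.Normal] (hM : Chars F.c R ι M) {ρF τ : ℝ} (hτ : 0 ≤ τ)
    (hF : FBound R ρF τ) :
    RDec (Matrix.of fun (g : Q) (j : ι × (Q ⧸ R)) => if (g : Q ⧸ R) = j.2 then
      (Nat.card R : ℂ)⁻¹ * ((M j.1 (g * j.2.out⁻¹))⁻¹ * F.c.a (g * j.2.out⁻¹) j.2.out) else 0)
      (Nat.card Q * ρF) τ := by
  obtain ⟨j0⟩ := som_nonempty hM
  have h := rdec_blocks' (F := ℂ) (Matrix.of fun (g : Q) (j : ι × (Q ⧸ R)) =>
      if (g : Q ⧸ R) = j.2 then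
      (Nat.card R : ℂ)⁻¹ * ((M j.1 (g * j.2.out⁻¹))⁻¹ * F.c.a (g * j.2.out⁻¹) j.2.out) else 0)
    (fun g => (g : Q ⧸ R)) (fun j => j.2) (fun g j hjg => by
      rw [Matrix.of_apply, if_neg hjg]) (fun _ => Nat.card R * ρF) τ hτ (fun _ => R) (fun _ => ι)
    (fun _ => (Matrix.of fun (w : R) (i : ι) => (M i w / M j0 w)⁻¹))
    (fun _ => (som_fou' hM j0 hF))
    (fun k g => if h : g * k.out⁻¹ ∈ R then ⟨g * k.out⁻¹, h⟩ else 1) (fun _ j => j.1)
    (fun k g g' h1 h2 h3 => by
      have m1 := (som_mem_coset R g k).1 h1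
      have m2 := (som_mem_coset R g' k).1 h2
      simp only [dif_pos m1, dif_pos m2, Subtype.mk.injEq] at h3
      exact mul_right_cancel h3)
    (fun k j j' h1 h2 h3 => Prod.ext h3 (h1.trans h2.symm))
    (fun g => (Nat.card R : ℂ)⁻¹ * ((M j0 (g * (g : Q ⧸ R).out⁻¹))⁻¹ *
      F.c.a (g * (g : Q ⧸ R).out⁻¹) (g : Q ⧸ R).out)) (fun _ => 1)
    (fun k g j h1 h2 => by
      have m1 := (som_mem_coset R g k).1 h1
      change (g : Q ⧸ R) = k at h1
      change j.2 = k at h2
      subst h2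
      have n := hM.ne j0 _ m1
      have n' := hM.ne j.1 _ m1
      rw [Matrix.of_apply, if_pos h1, Matrix.of_apply, dif_pos m1, h1, mul_one]
      field_simp)
  rw [som_card] at h
  exact h

open Classical in
/-- a sum over a coset -/
private theorem som_coset_sum [R.Normal] {V : Type} [AddCommMonoid V] (k : Q ⧸ R) (H : Q → V) :
    ∑ g : Q, (if (g : Q ⧸ R) = k then H g else 0) = ∑ r : R, H (r * k.out) := by
  rw [← Equiv.sum_comp (Equiv.mulRight k.out)
    (fun g : Q => (if (g : Q ⧸ R) = k then H g else 0))]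
  have h1 : ∀ g : Q, (if (((Equiv.mulRight k.out) g : Q) : Q ⧸ R) = k then
      H ((Equiv.mulRight k.out) g) else 0) = if g ∈ R then H (g * k.out) else 0 := by
    intro g
    rw [Equiv.coe_mulRight]
    have h2 : ((g * k.out : Q) : Q ⧸ R) = k ↔ g ∈ R := by
      rw [som_mem_coset, mul_inv_cancel_right]
    simp only [h2]
  simp only [h1]
  rw [← Finset.sum_filter]
  exact Finset.sum_subtype _ (fun x => by simp) _

open Classical in
/-- a sum over a right coset -/
private theorem som_rc_sum [R.Normal] (S : Subgroup Q) (hRS : R ≤ S) {V : Type}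
    [AddCommMonoid V] (t : Quotient (QuotientGroup.rightRel S))
    (G : S ⧸ R.subgroupOf S → V) :
    ∑ k : Q ⧸ R, (if som_rc R S k = t then G (som_yc R S k) else 0) = ∑ x, G x := by
  have h := (som_bij R S hRS).sum_comp (fun p => if p.1 = t then G p.2 else 0)
  simp only at h
  rw [h, Fintype.sum_prod_type, Finset.sum_comm]
  simp

private theorem som_rc_card [R.Normal] (S : Subgroup Q) (hRS : R ≤ S) :
    Nat.card (Q ⧸ R) = Nat.card (Quotient (QuotientGroup.rightRel S)) *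
      Nat.card (S ⧸ R.subgroupOf S) := by
  rw [Nat.card_congr (Equiv.ofBijective _ (som_bij R S hRS)), Nat.card_prod]

end Fou

/-- PROOF. `F` from `exists_reg` for `α`, so `F.c = α` and `tmat α c = ∑ c x • F.T x =: z`, which
commutes with all `F.T y`. `ι`, `M` from `exists_chars`; `e i = idem F R (M i)`; `Q₁ i` from
`exists_stab` for `e i` (it contains `A` by `idem_comm`); `F' i` from `exists_fam1`. `z` commutes with
`e i`, so `e i * z = e i * z * e i = ∑ c g • e i * T g * e i`, by `idem_dich` and `idem_sq` this is the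
sum over `g ∈ Q₁ i` of `c g • e i * T g`, a combination `∑ c' x • (F' i).T x`; `c'` is central
(`TFam.central`; `(F' i).T x` is a multiple of `e i * T g`, `g ∈ Q₁ i`, and `z`, `T g` commute with
`e i`), so `hM` applies to it. `change_basis` with `V` = matrices, `b = F.T`, `J = ι × (Q ⧸ R)`,
`d (i, k) = e i * F.T k.out`, `φ` = left multiplication by `z`, `M = tmat α c`. For `g` in the coset `k`
(`g = r * k.out`, `r ∈ R`, `R` is normal): `T g = (α r k.out)⁻¹ • T r * T k.out`,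
`T r = ∑ i, M i r • e i` (`idem_sum`, `idem_left`), so `U' ((i, k), g) = (α r k.out)⁻¹ * M i r`;
`U (g, (i, k)) = |R|⁻¹ * (M i r)⁻¹ * α r k.out`; both `0` if `g` is not in `k`. Bounds for `U'`, `U`:
`rdec_blocks'` over `k : Q ⧸ R`; a block is, up to row and column factors, the matrix `M i r` or its
transposed entrywise inverse; and `M i r = M j r * χ i r` for a fixed `j`, `χ i` different characters of
`R` (their inverses are different characters too): `FBound R`, rank bound `|R| ρF` each, in all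
`|Q| ρF`. `D`: for `k` and `i` let `t` be the coset `Q₁ i * k.out` (a right coset, with
representative `t.out`), `h = k.out * t.out⁻¹ ∈ Q₁ i`, `y k` the class of `h` in
`Q₁ i ⧸ R.subgroupOf (Q₁ i)`: `e i * T k.out = ω k • (F' i).T (y k) * T t.out`, `ω k ≠ 0`, so
`z * e i * T k.out = ω k • ∑ x, tmat _ c' x (y k) • (F' i).T x * T t.out`, and for each `x` there is
exactly one `k'` with the same `t` and with `y k' = x`. So
`D ((i, k'), (i, k)) = ω k * (ω k')⁻¹ * tmat (F' i).c c' (y k') (y k)` if `k`, `k'` have the same `t`, else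
`0`; and `0` for different `i`. `rdec_blocks'` over the pairs `(i, t)`: rank bound
`|Q₁ i / R| ρ` each; for given `i` there are `|Q| / |Q₁ i|` values of `t`, so that the sum is at most
`∑ i, |Q| / |R| ρ = |Q| ρ` (`Chars.card`). -/
theorem step_one {Q : Type} [Group Q] [Finite Q] (α : Coc Q) (c : Q → ℂ) (hc : Central α c)
    (R A : Subgroup Q) [R.Normal] [A.Normal] (hRA : R ≤ A)
    (hA : ∀ a ∈ A, ∀ b ∈ A, a * b = b * a) (hrad : ∀ r ∈ R, ∀ a ∈ A, α.a r a = α.a a r)
    (ρF τ ρ σ : ℝ) (hρF : 0 ≤ ρF) (hτ : 0 ≤ τ) (hρ : 0 ≤ ρ) (hσ : 0 ≤ σ) (hF : FBound R ρF τ)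
    (hM : ∀ (Q₁ : Subgroup Q), A ≤ Q₁ → ∀ (α' : Coc (Q₁ ⧸ R.subgroupOf Q₁))
      (c' : Q₁ ⧸ R.subgroupOf Q₁ → ℂ), Central α' c' →
      (∀ a b : Q₁, (a : Q) ∈ A → (b : Q) ∈ A →
        α'.a (a : Q₁ ⧸ R.subgroupOf Q₁) (b : Q₁ ⧸ R.subgroupOf Q₁) * α.a b a =
          α'.a (b : Q₁ ⧸ R.subgroupOf Q₁) (a : Q₁ ⧸ R.subgroupOf Q₁) * α.a a b) →
      TBound α' c' (Nat.card (Q₁ ⧸ R.subgroupOf Q₁) * ρ) σ) :
    TBound α c (Nat.card Q * (2 * ρF + ρ)) (τ * τ * σ) := by
  classical
  intro hQf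
  obtain ⟨F, rfl, hsum, hunit, hone⟩ := exists_reg α
  have hReg : Reg F A := ⟨hunit, hone, inferInstance, hA⟩
  have hRR : ∀ r ∈ R, ∀ s ∈ R, F.c.a r s = F.c.a s r := fun r hr s hs => hrad r hr s (hRA hs)
  obtain ⟨ι, hι, M, hM'⟩ := exists_chars hReg R hRA hRR
  obtain ⟨e, he⟩ : ∃ e : ι → Matrix Q Q ℂ, ∀ i, e i = idem F R (M i) := ⟨_, fun _ => rfl⟩
  have hsq : ∀ i, e i * e i = e i := fun i => by rw [he]; exact idem_sq hReg hM' i
  choose Q₁ hQ₁ using fun i => exists_stab hReg (e i)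
  have hAQ : ∀ i, A ≤ Q₁ i := fun i a ha => (hQ₁ i a).2 (by
    rw [he]
    exact idem_comm hReg hRA hrad hM' i a ha)
  have hRQ : ∀ i, R ≤ Q₁ i := fun i => hRA.trans (hAQ i)
  choose F' hF'1 hF'2 using fun i => exists_fam1 hReg hRA hrad hM' i (Q₁ i)
    (fun g => by rw [← he]; exact hQ₁ i g)
  choose ω' hω'0 hω' using hF'1
  -- the central element
  obtain ⟨z, hz⟩ : ∃ z : Matrix Q Q ℂ, z = ∑ x, c x • F.T x := ⟨_, rfl⟩
  have hzc : ∀ y, z * F.T y = F.T y * z := fun y => by
    rw [hz]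
    exact F.comm_of_central c hc y
  have hze : ∀ i, z * e i = e i * z := by
    intro i
    rw [he, idem, Matrix.mul_smul, Matrix.smul_mul, Finset.mul_sum, Finset.sum_mul]
    congr 1
    refine Finset.sum_congr rfl fun r _ => ?_
    rw [Matrix.mul_smul, Matrix.smul_mul, hzc]
  have heze : ∀ i, e i * z * e i = e i * z := by
    intro i
    rw [Matrix.mul_assoc, hze, ← Matrix.mul_assoc, hsq]
  have hez : ∀ i, e i * z = ∑ g : Q₁ i, c g • (e i * F.T g) := by
    intro i
    have h1 : ∀ g : Q, e i * (c g • F.T g) * e i =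
        if g ∈ Q₁ i then c g • (e i * F.T g) else 0 := by
      intro g
      by_cases hg : g ∈ Q₁ i
      · rw [if_pos hg, Matrix.mul_smul, Matrix.smul_mul, Matrix.mul_assoc, (hQ₁ i g).1 hg,
          ← Matrix.mul_assoc, hsq]
      · rw [if_neg hg]
        rcases idem_dich hReg hRA hRR hM' i g with h | h
        · exact absurd ((hQ₁ i g).2 (by rw [he]; exact h)) hg
        · rw [Matrix.mul_smul, Matrix.smul_mul, he, h, smul_zero]
    rw [← heze, hz, Finset.mul_sum, Finset.sum_mul]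
    simp only [h1]
    rw [← Finset.sum_filter]
    exact Finset.sum_subtype _ (fun x => by simp) _
  -- the coefficients
  obtain ⟨c', hc'⟩ : ∃ c' : (i : ι) → (Q₁ i ⧸ R.subgroupOf (Q₁ i)) → ℂ, ∀ i x, c' i x =
      ∑ g : Q₁ i, if (g : Q₁ i ⧸ R.subgroupOf (Q₁ i)) = x then c g * ω' i g else 0 :=
    ⟨_, fun _ _ => rfl⟩
  have hsum' : ∀ i, ∑ x, c' i x • (F' i).T x = e i * z := by
    intro i
    rw [hez]
    simp only [hc', Finset.sum_smul]
    rw [Finset.sum_comm]
    refine Finset.sum_congr rfl fun g _ => ?_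
    have h0 := hω' i g
    rw [← he] at h0
    rw [h0, smul_smul, Finset.sum_eq_single (g : Q₁ i ⧸ R.subgroupOf (Q₁ i))]
    · rw [if_pos rfl]
    · intro x _ hx
      rw [if_neg hx.symm, zero_smul]
    · intro h
      exact absurd (Finset.mem_univ _) h
  -- the elements of the new family
  have hT' : ∀ i (g : Q₁ i), (F' i).T (g : Q₁ i ⧸ R.subgroupOf (Q₁ i)) =
      (ω' i g)⁻¹ • (e i * F.T g) := by
    intro i g
    have h1 := hω' i g
    rw [← he] at h1
    rw [h1, smul_smul, inv_mul_cancel₀ (hω'0 i g), one_smul]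
  have hzT : ∀ i (y : Q₁ i ⧸ R.subgroupOf (Q₁ i)), z * (F' i).T y = e i * z * (F' i).T y := by
    intro i y
    obtain ⟨g, rfl⟩ := QuotientGroup.mk_surjective y
    rw [hT', Matrix.mul_smul, Matrix.mul_smul, ← Matrix.mul_assoc, ← Matrix.mul_assoc, heze, hze]
  have hcen : ∀ i, Central (F' i).c (c' i) := by
    intro i
    refine (F' i).central (c' i) fun y => ?_
    rw [hsum']
    obtain ⟨g, rfl⟩ := QuotientGroup.mk_surjective y
    have h1 : e i * F.T g * (e i * z) = e i * z * F.T g := by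
      rw [← hze, Matrix.mul_assoc, ← Matrix.mul_assoc (F.T g) z, ← hzc, Matrix.mul_assoc z,
        (hQ₁ i g).1 g.2, ← Matrix.mul_assoc, ← hze, Matrix.mul_assoc z, ← Matrix.mul_assoc (e i),
        hsq]
      rw [Matrix.mul_assoc]
    rw [hT', Matrix.mul_smul, Matrix.smul_mul, ← Matrix.mul_assoc, heze, h1]
  have hTB : ∀ i, RDec (tmat (F' i).c (c' i)) (Nat.card (Q₁ i ⧸ R.subgroupOf (Q₁ i)) * ρ) σ :=
    fun i => hM (Q₁ i) (hAQ i) (F' i).c (c' i) (hcen i) (hF'2 i)
  -- the scalars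
  obtain ⟨ω, hω⟩ : ∃ ω : ι × (Q ⧸ R) → ℂ, ∀ p, ω p =
      (F.c.a (p.2.out * (som_rc R (Q₁ p.1) p.2).out⁻¹) (som_rc R (Q₁ p.1) p.2).out)⁻¹ *
        ω' p.1 ⟨p.2.out * (som_rc R (Q₁ p.1) p.2).out⁻¹, som_rc_mem R (Q₁ p.1) p.2⟩ :=
    ⟨_, fun _ => rfl⟩
  have hω0 : ∀ p, ω p ≠ 0 := fun p => by
    rw [hω]
    exact mul_ne_zero (inv_ne_zero (F.c.ne _ _)) (hω'0 _ _)
  have hd : ∀ i k, e i * F.T (Quotient.out k) = ω (i, k) • ((F' i).T (som_yc R (Q₁ i) k) *
      F.T (som_rc R (Q₁ i) k).out) := by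
    intro i k
    have h1 := F.mul (Quotient.out k * (som_rc R (Q₁ i) k).out⁻¹) (som_rc R (Q₁ i) k).out
    rw [inv_mul_cancel_right] at h1
    have h2 := hω' i ⟨Quotient.out k * (som_rc R (Q₁ i) k).out⁻¹, som_rc_mem R (Q₁ i) k⟩
    rw [← he] at h2
    simp only at h2
    have h3 : F.T (Quotient.out k) = (F.c.a (Quotient.out k * (som_rc R (Q₁ i) k).out⁻¹)
        (som_rc R (Q₁ i) k).out)⁻¹ • (F.T (Quotient.out k * (som_rc R (Q₁ i) k).out⁻¹) *
          F.T (som_rc R (Q₁ i) k).out) := by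
      rw [h1, smul_smul, inv_mul_cancel₀ (F.c.ne _ _), one_smul]
    rw [h3, Matrix.mul_smul, ← Matrix.mul_assoc, h2, Matrix.smul_mul, smul_smul, hω]
    rfl
  -- the matrix in the new basis
  obtain ⟨D, hD⟩ : ∃ D : Matrix (ι × (Q ⧸ R)) (ι × (Q ⧸ R)) ℂ, ∀ p p', D p p' =
      if p.1 = p'.1 ∧ som_rc R (Q₁ p'.1) p.2 = som_rc R (Q₁ p'.1) p'.2 then
        (ω p)⁻¹ * tmat (F' p'.1).c (c' p'.1) (som_yc R (Q₁ p'.1) p.2) (som_yc R (Q₁ p'.1) p'.2) *
          ω p' else 0 := ⟨Matrix.of fun p p' => if p.1 = p'.1 ∧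
            som_rc R (Q₁ p'.1) p.2 = som_rc R (Q₁ p'.1) p'.2 then
        (ω p)⁻¹ * tmat (F' p'.1).c (c' p'.1) (som_yc R (Q₁ p'.1) p.2) (som_yc R (Q₁ p'.1) p'.2) *
          ω p' else 0, fun _ _ => rfl⟩
  have hDB : RDec D (Nat.card Q * ρ) σ := by
    have hqf : ∀ i, Fintype (Quotient (QuotientGroup.rightRel (Q₁ i))) := fun i =>
      inferInstance
    have h := rdec_blocks' (F := ℂ) (ι := (i : ι) × Quotient (QuotientGroup.rightRel (Q₁ i))) D
      (fun p => ⟨p.1, som_rc R (Q₁ p.1) p.2⟩) (fun p => ⟨p.1, som_rc R (Q₁ p.1) p.2⟩)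
      (fun p p' hne => by
        rw [hD, if_neg]
        rintro ⟨h1, h2⟩
        apply hne
        obtain ⟨i, k⟩ := p
        obtain ⟨i', k'⟩ := p'
        simp only at h1 h2
        subst h1
        simp only [h2])
      (fun b => Nat.card (Q₁ b.1 ⧸ R.subgroupOf (Q₁ b.1)) * ρ) σ hσ
      (fun b => Q₁ b.1 ⧸ R.subgroupOf (Q₁ b.1)) (fun b => Q₁ b.1 ⧸ R.subgroupOf (Q₁ b.1))
      (fun b => tmat (F' b.1).c (c' b.1)) (fun b => hTB b.1)
      (fun b p => som_yc R (Q₁ b.1) p.2) (fun b p => som_yc R (Q₁ b.1) p.2)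
      (by
        rintro b ⟨i, k⟩ ⟨i', k'⟩ rfl h2 h3
        simp only [Sigma.mk.injEq] at h2 h3
        obtain ⟨h2, h4⟩ := h2
        subst h2
        have h5 := (som_bij R (Q₁ i') (hRQ i')).1 (Prod.ext (eq_of_heq h4).symm h3 :
          (som_rc R (Q₁ i') k, som_yc R (Q₁ i') k) = (som_rc R (Q₁ i') k', som_yc R (Q₁ i') k'))
        rw [h5])
      (by
        rintro b ⟨i, k⟩ ⟨i', k'⟩ rfl h2 h3
        simp only [Sigma.mk.injEq] at h2 h3
        obtain ⟨h2, h4⟩ := h2
        subst h2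
        have h5 := (som_bij R (Q₁ i') (hRQ i')).1 (Prod.ext (eq_of_heq h4).symm h3 :
          (som_rc R (Q₁ i') k, som_yc R (Q₁ i') k) = (som_rc R (Q₁ i') k', som_yc R (Q₁ i') k'))
        rw [h5])
      (fun p => (ω p)⁻¹) ω
      (by
        rintro b ⟨i, k⟩ ⟨i', k'⟩ h1 rfl
        simp only [Sigma.mk.injEq] at h1
        obtain ⟨h2, h4⟩ := h1
        subst h2
        rw [hD, if_pos ⟨rfl, eq_of_heq h4⟩])
    refine h.mono ?_ le_rfl
    rw [Fintype.sum_sigma]
    have h1 : ∀ i, ∑ _t : Quotient (QuotientGroup.rightRel (Q₁ i)),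
        (Nat.card (Q₁ i ⧸ R.subgroupOf (Q₁ i)) * ρ : ℝ) = Nat.card (Q ⧸ R) * ρ := by
      intro i
      rw [Finset.sum_const, Finset.card_univ, nsmul_eq_mul, som_rc_card (Q₁ i) (hRQ i),
        Nat.card_eq_fintype_card (α := Quotient (QuotientGroup.rightRel (Q₁ i)))]
      push_cast
      ring
    rw [Finset.sum_congr rfl fun i _ => h1 i, Finset.sum_const, Finset.card_univ, nsmul_eq_mul,
      hM'.card, Subgroup.card_eq_card_quotient_mul_card_subgroup R]
    push_cast
    apply le_of_eq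
    ring
  -- the change of basis
  have hcb := change_basis F.T F.indep (fun p : ι × (Q ⧸ R) => e p.1 * F.T p.2.out)
    (LinearMap.mulLeft ℂ z) (tmat F.c c) D
    (Matrix.of fun (g : Q) (j : ι × (Q ⧸ R)) => if (g : Q ⧸ R) = j.2 then
      (Nat.card R : ℂ)⁻¹ * ((M j.1 (g * j.2.out⁻¹))⁻¹ * F.c.a (g * j.2.out⁻¹) j.2.out) else 0)
    (Matrix.of fun (j : ι × (Q ⧸ R)) (g : Q) => if j.2 = (g : Q ⧸ R) then
      (F.c.a (g * j.2.out⁻¹) j.2.out)⁻¹ * M j.1 (g * j.2.out⁻¹) else 0)
    (fun y => by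
      rw [LinearMap.mulLeft_apply, hz]
      exact F.sum_mul c y)
    (by
      rintro ⟨i, k⟩
      rw [LinearMap.mulLeft_apply, Fintype.sum_prod_type, Finset.sum_eq_single i]
      · have h1 : ∀ k' : Q ⧸ R, D (i, k') (i, k) • (e i * F.T (Quotient.out k')) =
            if som_rc R (Q₁ i) k' = som_rc R (Q₁ i) k then
              (ω (i, k) * tmat (F' i).c (c' i) (som_yc R (Q₁ i) k') (som_yc R (Q₁ i) k)) •
              ((F' i).T (som_yc R (Q₁ i) k') * F.T (som_rc R (Q₁ i) k).out) else 0 := by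
          intro k'
          rw [hD]
          by_cases hk : som_rc R (Q₁ i) k' = som_rc R (Q₁ i) k
          · rw [if_pos ⟨rfl, hk⟩, if_pos hk, hd i k', hk, smul_smul]
            congr 1
            have := hω0 (i, k')
            field_simp
          · rw [if_neg (fun h => hk h.2), if_neg hk, zero_smul]
        simp only [h1]
        rw [som_rc_sum (Q₁ i) (hRQ i) (som_rc R (Q₁ i) k) (fun x =>
          (ω (i, k) * tmat (F' i).c (c' i) x (som_yc R (Q₁ i) k)) •
              ((F' i).T x * F.T (som_rc R (Q₁ i) k).out)), hd i k, Matrix.mul_smul,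
          ← Matrix.mul_assoc, hzT, ← hsum', (F' i).sum_mul, Finset.sum_mul, Finset.smul_sum]
        refine Finset.sum_congr rfl fun x _ => ?_
        rw [Matrix.smul_mul, smul_smul]
      · intro i' _ hi'
        refine Finset.sum_eq_zero fun k' _ => ?_
        rw [hD, if_neg (fun h => hi' h.1), zero_smul]
      · intro h
        exact absurd (Finset.mem_univ _) h)
    (by
      rintro ⟨i, k⟩
      simp only [Matrix.of_apply, ite_smul, zero_smul]
      rw [som_coset_sum k (fun g => ((Nat.card R : ℂ)⁻¹ * ((M i (g * k.out⁻¹))⁻¹ *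
        F.c.a (g * k.out⁻¹) k.out)) • F.T g), he, idem, Matrix.smul_mul, Finset.sum_mul,
        Finset.smul_sum]
      refine Finset.sum_congr rfl fun r _ => ?_
      rw [Matrix.smul_mul, F.mul, smul_smul, smul_smul, mul_inv_cancel_right, mul_assoc])
    (by
      intro g
      have hmem : g * (g : Q ⧸ R).out⁻¹ ∈ R := (som_mem_coset R g _).1 rfl
      simp only [Matrix.of_apply, ite_smul, zero_smul]
      rw [Fintype.sum_prod_type]
      simp only [Finset.sum_ite_eq', Finset.mem_univ, if_true]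
      have h1 : ∀ i, ((F.c.a (g * (g : Q ⧸ R).out⁻¹) (g : Q ⧸ R).out)⁻¹ *
          M i (g * (g : Q ⧸ R).out⁻¹)) • (e i * F.T (g : Q ⧸ R).out) =
          (F.c.a (g * (g : Q ⧸ R).out⁻¹) (g : Q ⧸ R).out)⁻¹ •
            (F.T (g * (g : Q ⧸ R).out⁻¹) * e i * F.T (g : Q ⧸ R).out) := by
        intro i
        have h2 := idem_left hReg hM' i _ hmem
        rw [← he] at h2
        rw [h2, Matrix.smul_mul, smul_smul]
      rw [Finset.sum_congr rfl fun i _ => h1 i, ← Finset.smul_sum, ← Finset.sum_mul,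
        ← Finset.mul_sum]
      have h3 : ∑ i, e i = 1 := by
        simp only [he]
        exact idem_sum hReg hM'
      rw [h3, Matrix.mul_one, F.mul, smul_smul, inv_mul_cancel₀ (F.c.ne _ _), one_smul,
        inv_mul_cancel_right])
  have hU := som_U (F := F) hM' hτ hF
  have hU' := som_U' (F := F) hM' hτ hF
  rw [hcb]
  have h1 := (RDec.mul (mul_nonneg hτ hσ) hτ (RDec.mul hτ hσ hU hDB) hU')
  convert h1 using 1 <;> ring

end MP0775d3.Solv
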