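import Pool.Agent.Lib.MP_0775d3_lc.Solv.Proj
import Pool.Agent.Lib.MP_0775d3_lc.Solv.Kappa

/-! The nondegenerate step: the family indexed by `Q ⧸ A`. -/

set_option linter.unusedSectionVars false

namespace MP0775d3.Solv

open Matrix MP0775d3.Sl2

section
variable {Q : Type} [Group Q] [Fintype Q] [DecidableEq Q] {F : TFam Q Q} {A : Subgroup Q}
  [A.Normal]

private theorem stw_inv_mul (hR : Reg F A) (a : Q) : (F.T a)⁻¹ * F.T a = 1 :=
  Matrix.nonsing_inv_mul _ ((Matrix.isUnit_iff_isUnit_det _).mp (hR.unit a))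

private theorem stw_mul_inv (hR : Reg F A) (a : Q) : F.T a * (F.T a)⁻¹ = 1 :=
  Matrix.mul_nonsing_inv _ ((Matrix.isUnit_iff_isUnit_det _).mp (hR.unit a))

private theorem stw_inv (hR : Reg F A) (a : Q) :
    ∃ μ : ℂ, μ ≠ 0 ∧ (F.T a)⁻¹ = μ • F.T a⁻¹ := by
  refine ⟨(F.c.a a a⁻¹ * F.c.a 1 1)⁻¹,
    inv_ne_zero (mul_ne_zero (F.c.ne _ _) (F.c.ne _ _)), ?_⟩
  refine Matrix.inv_eq_right_inv ?_
  rw [Matrix.mul_smul, F.mul, mul_inv_cancel, hR.one, smul_smul, smul_smul, mul_assoc,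
    inv_mul_cancel₀ (mul_ne_zero (F.c.ne _ _) (F.c.ne _ _)), one_smul]

/-- `(T a)⁻¹ * T b * T g` is a nonzero multiple of `T (a⁻¹ * b * g)`. -/
private theorem stw_abg (hR : Reg F A) (a b g : Q) :
    ∃ μ : ℂ, μ ≠ 0 ∧ (F.T a)⁻¹ * F.T b * F.T g = μ • F.T (a⁻¹ * b * g) := by
  obtain ⟨μ, h0, h1⟩ := stw_inv hR a
  refine ⟨μ * F.c.a a⁻¹ b * F.c.a (a⁻¹ * b) g,
    mul_ne_zero (mul_ne_zero h0 (F.c.ne _ _)) (F.c.ne _ _), ?_⟩
  rw [h1, Matrix.smul_mul, F.mul, smul_smul, Matrix.smul_mul, F.mul, smul_smul]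

private theorem stw_q (hR : Reg F A) (c : Q) (hc : c ∈ A) (h : Q) :
    ∃ μ : ℂ, μ ≠ 0 ∧ proj F A (F.T h) = μ • proj F A (F.T (c⁻¹ * h * c)) := by
  obtain ⟨μ, h0, h1⟩ := stw_abg hR c h c
  refine ⟨μ, h0, ?_⟩
  rw [← proj_conj hR c hc (F.T h), h1, proj_smul]

/-- The scalar for elements which commute. -/
private theorem stw_fix (hR : Reg F A) (c : Q) (hc : c ∈ A) (h : Q) (hch : h * c = c * h)
    (hne : proj F A (F.T h) ≠ 0) : pair F.c h c = 1 := by
  have h1 : (F.T c)⁻¹ * F.T h * F.T c = pair F.c h c • F.T h := by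
    rw [Matrix.mul_assoc, pair_comm F h c hch, Matrix.mul_smul, ← Matrix.mul_assoc,
      stw_inv_mul hR, Matrix.one_mul]
  have h2 := proj_conj hR c hc (F.T h)
  rw [h1, proj_smul] at h2
  have h3 : (pair F.c h c - 1) • proj F A (F.T h) = 0 := by
    rw [sub_smul, one_smul, h2, sub_self]
  rcases smul_eq_zero.mp h3 with h4 | h4
  · exact sub_eq_zero.mp h4
  · exact absurd h4 hne

/-- `(T a)⁻¹` and `T c`. -/
private theorem stw_ac (hR : Reg F A) (a c : Q) (h : c * a = a * c) :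
    (F.T a)⁻¹ * F.T c = pair F.c c a • (F.T c * (F.T a)⁻¹) := by
  have h1 := pair_comm F c a h
  calc (F.T a)⁻¹ * F.T c = (F.T a)⁻¹ * (F.T c * F.T a) * (F.T a)⁻¹ := by
        rw [Matrix.mul_assoc, Matrix.mul_assoc (F.T c), stw_mul_inv hR, Matrix.mul_one]
    _ = pair F.c c a • (F.T c * (F.T a)⁻¹) := by
        rw [h1, Matrix.mul_smul, Matrix.smul_mul, ← Matrix.mul_assoc, stw_inv_mul hR,
          Matrix.one_mul]

private theorem stw_r1a (hR : Reg F A) (g b c : Q) (hb : b ∈ A) (hc : c ∈ A) :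
    ∃ θ : ℂ, θ ≠ 0 ∧ F.T (b * (c * (g * c * g⁻¹)⁻¹)) * F.T g =
      θ • (F.T c * (F.T b * F.T g * (F.T c)⁻¹)) := by
  obtain ⟨μ, h0, h1⟩ := stw_inv hR c
  have e2 : c * (b * g * c⁻¹) = b * (c * (g * c * g⁻¹)⁻¹) * g := by
    have := hR.comm c hc b hb
    calc c * (b * g * c⁻¹) = (c * b) * (g * c⁻¹) := by group
      _ = (b * c) * (g * c⁻¹) := by rw [this]
      _ = b * (c * (g * c * g⁻¹)⁻¹) * g := by group
  have e1 : F.T c * (F.T b * F.T g * (F.T c)⁻¹) =
      (μ * (F.c.a b g * (F.c.a (b * g) c⁻¹ * F.c.a c (b * g * c⁻¹)))) •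
        F.T (c * (b * g * c⁻¹)) := by
    rw [h1, Matrix.mul_smul, Matrix.mul_smul, F.mul, Matrix.smul_mul, F.mul, Matrix.mul_smul,
      Matrix.mul_smul, F.mul, smul_smul, smul_smul, smul_smul]
    congr 1
    ring
  have hne : μ * (F.c.a b g * (F.c.a (b * g) c⁻¹ * F.c.a c (b * g * c⁻¹))) ≠ 0 :=
    mul_ne_zero h0 (mul_ne_zero (F.c.ne _ _) (mul_ne_zero (F.c.ne _ _) (F.c.ne _ _)))
  refine ⟨F.c.a (b * (c * (g * c * g⁻¹)⁻¹)) g *
    (μ * (F.c.a b g * (F.c.a (b * g) c⁻¹ * F.c.a c (b * g * c⁻¹))))⁻¹,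
    mul_ne_zero (F.c.ne _ _) (inv_ne_zero hne), ?_⟩
  rw [e1, smul_smul, inv_mul_cancel_right₀ hne, F.mul, e2]

private theorem stw_r1 (hR : Reg F A) (g b c : Q) (hb : b ∈ A) (hc : c ∈ A) :
    ∃ θ : ℂ, θ ≠ 0 ∧ ∀ a ∈ A,
      proj F A ((F.T a)⁻¹ * F.T (b * (c * (g * c * g⁻¹)⁻¹)) * F.T g) =
        (pair F.c c a * θ) • proj F A ((F.T a)⁻¹ * F.T b * F.T g) := by
  obtain ⟨θ, hθ, h2⟩ := stw_r1a hR g b c hb hc
  refine ⟨θ, hθ, fun a ha => ?_⟩
  have h3 : (F.T a)⁻¹ * F.T (b * (c * (g * c * g⁻¹)⁻¹)) * F.T g =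
      (pair F.c c a * θ) • (F.T c * ((F.T a)⁻¹ * F.T b * F.T g) * (F.T c)⁻¹) := by
    rw [Matrix.mul_assoc, h2, Matrix.mul_smul, ← Matrix.mul_assoc (F.T a)⁻¹,
      stw_ac hR a c (hR.comm c hc a ha), Matrix.smul_mul, smul_smul, mul_comm θ]
    simp only [Matrix.mul_assoc]
  have h4 : (F.T c)⁻¹ * (F.T c * ((F.T a)⁻¹ * F.T b * F.T g) * (F.T c)⁻¹) * F.T c =
      (F.T a)⁻¹ * F.T b * F.T g := by
    generalize (F.T a)⁻¹ * F.T b * F.T g = z
    calc (F.T c)⁻¹ * (F.T c * z * (F.T c)⁻¹) * F.T c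
        = ((F.T c)⁻¹ * F.T c) * z * ((F.T c)⁻¹ * F.T c) := by
          simp only [Matrix.mul_assoc]
      _ = z := by rw [stw_inv_mul hR, Matrix.one_mul, Matrix.mul_one]
  have h5 := proj_conj hR c hc (F.T c * ((F.T a)⁻¹ * F.T b * F.T g) * (F.T c)⁻¹)
  rw [h4] at h5
  rw [h3, proj_smul, h5]

/-- The pairing on the subgroup. -/
private theorem stw_hn (hn : ∀ a ∈ A, (∀ b ∈ A, F.c.a a b = F.c.a b a) → a = 1) (x : A)
    (h : ∀ y : A, pair F.c x y = 1) : x = 1 := by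
  refine Subtype.ext (hn x x.2 fun b hb => ?_)
  have h1 := h ⟨b, hb⟩
  rw [pair, div_eq_one_iff_eq (F.c.ne _ _)] at h1
  exact h1

/-- All projections of the coset are multiples of one. -/
private theorem stw_line (hR : Reg F A) (hn : ∀ a ∈ A, (∀ b ∈ A, F.c.a a b = F.c.a b a) → a = 1)
    (g : Q) : ∃ h₀ ∈ A, proj F A (F.T (h₀ * g)) ≠ 0 ∧
      ∀ h ∈ A, ∃ s : ℂ, proj F A (F.T (h * g)) = s • proj F A (F.T (h₀ * g)) := by
  classical
  have hex : ∃ h₀ ∈ A, proj F A (F.T (h₀ * g)) ≠ 0 := by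
    by_contra hcon
    push Not at hcon
    have h1 := proj_expand hR hn (F.T g)
    have h2 : F.T g = 0 := by
      rw [h1]
      refine Finset.sum_eq_zero fun a _ => ?_
      obtain ⟨μ, _, h3⟩ := stw_inv hR (a : Q)
      rw [h3, Matrix.smul_mul, F.mul, smul_smul, proj_smul,
        hcon _ (A.inv_mem a.2), smul_zero, Matrix.mul_zero]
    exact F.indep.ne_zero g h2
  obtain ⟨h₀, hm0, hne0⟩ := hex
  refine ⟨h₀, hm0, hne0, fun h hm => ?_⟩
  by_cases hz : proj F A (F.T (h * g)) = 0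
  · exact ⟨0, by rw [hz, zero_smul]⟩
  -- the fixed points pair trivially with `h * h₀⁻¹`
  have hp : ∀ b : A, (MulAut.conjNormal g) b = b → pair F.c (b : Q) (h * h₀⁻¹) = 1 := by
    intro b hb
    have hgb : g * b * g⁻¹ = b := by
      have := congrArg (Subtype.val) hb
      simpa [MulAut.conjNormal_apply] using this
    have hgb' : g * b = b * g := mul_inv_eq_iff_eq_mul.mp hgb
    have c1 : ∀ k ∈ A, k * b = b * k := fun k hk => hR.comm k hk b b.2
    have c2 : ∀ k ∈ A, k * g * b = b * (k * g) := by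
      intro k hk
      rw [mul_assoc, hgb', ← mul_assoc, c1 k hk, mul_assoc]
    have e1 := stw_fix hR b b.2 (h * g) (c2 h hm) hz
    have e2 := stw_fix hR b b.2 (h₀ * g) (c2 h₀ hm0) hne0
    rw [pair_mul_left F h g b (c1 h hm) hgb'] at e1
    rw [pair_mul_left F h₀ g b (c1 h₀ hm0) hgb'] at e2
    have e3 : pair F.c h b = pair F.c h₀ b := by
      have : pair F.c g b ≠ 0 := pair_ne _ _ _
      exact mul_right_cancel₀ this (e1.trans e2.symm)
    have e4 : pair F.c (h * h₀⁻¹) b * pair F.c h₀ b = pair F.c h b := by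
      rw [← pair_mul_left F (h * h₀⁻¹) h₀ b (c1 _ (A.mul_mem hm (A.inv_mem hm0))) (c1 h₀ hm0),
        inv_mul_cancel_right]
    have e5 : pair F.c (h * h₀⁻¹) b = 1 := by
      have h3 : pair F.c h₀ b ≠ 0 := pair_ne _ _ _
      refine mul_right_cancel₀ h3 ?_
      rw [e4, one_mul, e3]
    have e6 := pair_swap F.c (b : Q) (h * h₀⁻¹)
    rwa [e5, mul_one] at e6
  have hW : ∀ a b : A, a * b = b * a := fun a b => Subtype.ext (hR.comm a a.2 b b.2)
  obtain ⟨d, hd⟩ := mem_range_of_perp (W := A) hW (fun a b : A => pair F.c a b)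
    (fun x y z => pair_mul_left F x y z (hR.comm x x.2 z z.2) (hR.comm y y.2 z z.2))
    (fun x y z => pair_mul_right F x y z (hR.comm x x.2 y y.2) (hR.comm x x.2 z z.2))
    (fun x y => pair_ne _ _ _) (stw_hn hn) (MulAut.conjNormal g)
    (fun x y => by
      rw [MulAut.conjNormal_apply, MulAut.conjNormal_apply]
      exact pair_conj hR g x y (hR.comm x x.2 y y.2))
    ⟨h * h₀⁻¹, A.mul_mem hm (A.inv_mem hm0)⟩ hp
  have hd' : h * h₀⁻¹ = d * (g * d * g⁻¹)⁻¹ := by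
    have := congrArg (Subtype.val) hd
    simpa [MulAut.conjNormal_apply] using this
  obtain ⟨μ, _, h4⟩ := stw_q hR (d : Q) d.2 (h * g)
  refine ⟨μ, ?_⟩
  rw [h4]
  congr 3
  have h5 : h = h₀ * (d * (g * d * g⁻¹)⁻¹) := by
    have h6 : h = (h * h₀⁻¹) * h₀ := by group
    have hmem : d * (g * d * g⁻¹)⁻¹ ∈ A := hd' ▸ A.mul_mem hm (A.inv_mem hm0)
    rw [h6, hd']
    exact hR.comm _ hmem _ hm0
  have h7 : (d : Q)⁻¹ * h₀ = h₀ * (d : Q)⁻¹ := hR.comm _ (A.inv_mem d.2) _ hm0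
  rw [h5]
  calc (d : Q)⁻¹ * (h₀ * (d * (g * d * g⁻¹)⁻¹) * g) * d
      = ((d : Q)⁻¹ * h₀) * (d * (g * d * g⁻¹)⁻¹ * g * d) := by group
    _ = (h₀ * (d : Q)⁻¹) * (d * (g * d * g⁻¹)⁻¹ * g * d) := by rw [h7]
    _ = h₀ * g := by group

/-- PROOF. Write `P = proj F A`, `B a b = pair F.c a b`, `σ = MulAut.conjNormal g` (so
`σ c = g c g⁻¹`). First the function `p a = P ((T a)⁻¹ * T g)`, `a ∈ A`.
(1) For `c ∈ A`: by `proj_conj`, `p a = P ((T c)⁻¹ (T a)⁻¹ (T g) (T c))`, `T g * T c` is a nonzero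
multiple of `T (σ c) * T g`, and `(T c)⁻¹ (T a)⁻¹ T (σ c)` is a nonzero multiple of
`(T (a * c * (σ c)⁻¹))⁻¹`. So `p (a * c * (σ c)⁻¹)` is a nonzero multiple of `p a`.
(2) If `σ c = c`: the same computation keeping track of the scalar as a function of `a`:
`T g * T c = ν • T c * T g`, `(T c)⁻¹ (T a)⁻¹ T c = B c a • (T a)⁻¹` (from `pair_comm`), so
`p a = ν * B c a • p a`. So if `p a`, `p a'` are not zero then `B c (a' * a⁻¹) = 1` for all
`c` fixed by `σ`, so by `mem_range_of_perp` `a' * a⁻¹ = c * (σ c)⁻¹` for some `c` and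
`p a'` is a nonzero multiple of `p a` by (1).
By `proj_expand` for `z = T g ≠ 0` some `p a₀` is not zero; `v = p a₀`. All `p a` are multiples of `v`,
and so are all `P ((T a)⁻¹ * T b * T g)` since `(T a)⁻¹ * T b` is a nonzero multiple of
`(T (b⁻¹ * a))⁻¹` (`A` abelian); this defines `κ` and gives `r2` (use `T 1 = scalar`). `r1`:
`P ((T a)⁻¹ T b T g) = P ((T c) (T a)⁻¹ (T b) (T g) (T c)⁻¹)` (`proj_conj` for `c⁻¹`, or directly),
`T c * (T a)⁻¹ = B a c • (T a)⁻¹ * T c`-type relations (`B c a = (B a c)⁻¹`, careful with the side: check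
with the formula in `Kap`; if the sign comes out wrong use `c⁻¹` for `c`), and
`T c * T b * T g * (T c)⁻¹` is a nonzero multiple, independent of `a`, of
`T (b * (c * (σ c)⁻¹)) * T g`. `v` commutes with all `T a` by `proj_comm`; it is a combination of
the `T (a * g)`: `P` of an element of their span is in their span. Unit: `T g = (∑ₐ s a • T a) * v`
by `proj_expand`, `T g` is a unit, so `v` has a left inverse. -/
theorem exists_kappa (hR : Reg F A) (hn : ∀ a ∈ A, (∀ b ∈ A, F.c.a a b = F.c.a b a) → a = 1)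
    (g : Q) : ∃ (v : Matrix Q Q ℂ) (κ : A → A → ℂ),
      Kap (fun a b : A => pair F.c a b) (MulAut.conjNormal g) κ ∧
      (∀ a b : A, proj F A ((F.T a)⁻¹ * F.T b * F.T g) = κ a b • v) ∧ IsUnit v ∧
      (∀ a ∈ A, F.T a * v = v * F.T a) ∧ ∃ w : Q → ℂ, (∀ h, h * g⁻¹ ∉ A → w h = 0) ∧
        v = ∑ h, w h • F.T h := by
  classical
  obtain ⟨h₀, hm0, hne0, hline⟩ := stw_line hR hn g
  set v := proj F A (F.T (h₀ * g)) with hv
  -- the multiples
  have hk : ∀ a b : A, ∃ s : ℂ, proj F A ((F.T a)⁻¹ * F.T b * F.T g) = s • v := by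
    intro a b
    obtain ⟨μ, _, h1⟩ := stw_abg hR (a : Q) b g
    obtain ⟨s, h2⟩ := hline ((a : Q)⁻¹ * b) (A.mul_mem (A.inv_mem a.2) b.2)
    exact ⟨μ * s, by rw [h1, proj_smul, h2, smul_smul]⟩
  choose κ hκ using hk
  have hinj : ∀ s t : ℂ, s • v = t • v → s = t := fun s t h =>
    smul_left_injective ℂ hne0 h
  have hW : ∀ a b : A, a * b = b * a := fun a b => Subtype.ext (hR.comm a a.2 b b.2)
  refine ⟨v, κ, ?_, hκ, ?_, ?_, ?_⟩
  · refine ⟨hW,
      (fun x y z => pair_mul_left F x y z (hR.comm x x.2 z z.2) (hR.comm y y.2 z z.2)),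
      (fun x y z => pair_mul_right F x y z (hR.comm x x.2 y y.2) (hR.comm x x.2 z z.2)),
      (fun x y => pair_ne _ _ _), stw_hn hn, fun x y => pair_swap _ _ _,
      (fun x y => by
        rw [MulAut.conjNormal_apply, MulAut.conjNormal_apply]
        exact pair_conj hR g x y (hR.comm x x.2 y y.2)), ?_, ?_⟩
    · intro b c
      obtain ⟨θ, hθ, h1⟩ := stw_r1 hR g b c b.2 c.2
      refine ⟨θ, hθ, fun a => ?_⟩
      have h2 := h1 a a.2
      have h3 := hκ a (b * (c * (MulAut.conjNormal g c)⁻¹))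
      have h4 : ((b * (c * (MulAut.conjNormal g c)⁻¹) : A) : Q) =
          b * (c * (g * c * g⁻¹)⁻¹) := by
        simp [MulAut.conjNormal_apply]
      rw [h4, h2, hκ a b, smul_smul] at h3
      exact (hinj _ _ h3).symm
    · intro a b
      obtain ⟨μ, hμ, h1⟩ := stw_abg hR (a : Q) b g
      obtain ⟨μ', hμ', h2⟩ := stw_abg hR ((b⁻¹ * a : A) : Q) ((1 : A) : Q) g
      have h3 : ((b⁻¹ * a : A) : Q)⁻¹ * ((1 : A) : Q) * g = (a : Q)⁻¹ * b * g := by
        simp
      rw [h3] at h2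
      have h4 := hκ a b
      have h5 := hκ (b⁻¹ * a) 1
      rw [h1, proj_smul] at h4
      rw [h2, proj_smul] at h5
      refine ⟨μ * μ'⁻¹, mul_ne_zero hμ (inv_ne_zero hμ'), hinj _ _ ?_⟩
      rw [← h4, mul_smul, ← h5, smul_smul, mul_assoc μ, inv_mul_cancel₀ hμ', mul_one]
  · -- unit
    have h1 := proj_expand hR hn (F.T g)
    have h2 : F.T g = (∑ a : A, κ a 1 • ((F.c.a 1 1)⁻¹ • F.T a)) * v := by
      rw [Finset.sum_mul]
      refine h1.trans (Finset.sum_congr rfl fun a _ => ?_)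
      have h3 := hκ a 1
      have h4 : (F.T a)⁻¹ * F.T ((1 : A) : Q) * F.T g =
          F.c.a 1 1 • ((F.T a)⁻¹ * F.T g) := by
        rw [show (((1 : A) : Q)) = 1 from rfl, hR.one, Matrix.mul_smul, Matrix.mul_one,
          Matrix.smul_mul]
      rw [h4, proj_smul] at h3
      have h5 : proj F A ((F.T a)⁻¹ * F.T g) = (F.c.a 1 1)⁻¹ • (κ a 1 • v) := by
        rw [← h3, smul_smul, inv_mul_cancel₀ (F.c.ne _ _), one_smul]
      rw [h5, Matrix.mul_smul, Matrix.mul_smul, Matrix.smul_mul, Matrix.smul_mul, smul_comm]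
    have h3 : ((F.T g)⁻¹ * (∑ a : A, κ a 1 • ((F.c.a 1 1)⁻¹ • F.T a))) * v = 1 := by
      rw [Matrix.mul_assoc, ← h2, stw_inv_mul hR]
    exact (Matrix.isUnit_iff_isUnit_det _).mpr (Matrix.isUnit_det_of_left_inverse h3)
  · intro a ha
    exact proj_comm hR a ha _
  · -- the span
    have hspan : ∀ a : A, ∃ s : ℂ, F.T a * F.T (h₀ * g) * (F.T a)⁻¹ =
        s • F.T (a * (h₀ * g) * (a : Q)⁻¹) := by
      intro a
      obtain ⟨μ, _, h1⟩ := stw_inv hR (a : Q)
      exact ⟨_, by rw [h1, Matrix.mul_smul, F.mul, Matrix.smul_mul, F.mul, smul_smul,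
        smul_smul]⟩
    choose s hs using hspan
    refine ⟨fun h => (Nat.card A : ℂ)⁻¹ * ∑ a : A,
      if a * (h₀ * g) * (a : Q)⁻¹ = h then s a else 0, fun h hh => ?_, ?_⟩
    · simp only
      rw [Finset.sum_eq_zero, mul_zero]
      intro a _
      rw [if_neg]
      intro heq
      apply hh
      rw [← heq]
      have : (a : Q) * (h₀ * g) * (a : Q)⁻¹ * g⁻¹ = (a * h₀) * (g * (a : Q)⁻¹ * g⁻¹) := by
        group
      rw [this]
      exact A.mul_mem (A.mul_mem a.2 hm0)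
        (‹A.Normal›.conj_mem _ (A.inv_mem a.2) g)
    · have e1 : v = (Nat.card A : ℂ)⁻¹ • ∑ a : A, F.T a * F.T (h₀ * g) * (F.T a)⁻¹ := by
        rw [hv, proj]
      rw [e1]
      simp_rw [hs, mul_smul, Finset.sum_smul]
      rw [← Finset.smul_sum, Finset.sum_comm]
      congr 1
      refine Finset.sum_congr rfl fun a _ => ?_
      simp_rw [ite_smul, zero_smul]
      rw [Finset.sum_ite_eq Finset.univ, if_pos (Finset.mem_univ _)]

/-- PROOF. Take `v`, `κ` from `exists_kappa` for the representatives `x.out` of the cosets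
`x : Q ⧸ A`. `hmul`: `v x * v y` commutes with the `T a`, so it is fixed by `proj` (`proj_fix`), it is a
combination of `T h` with `h` in the coset `x y`, and each `proj (T h)` is a multiple of `v (x y)`
(write `h = b * (x y).out`, `T h` is a multiple of `(T 1)⁻¹ * T b * T (x y).out`); it is not zero since
it is a unit (if `Q ≠ ∅`). Independence: `v x ≠ 0` is a combination of the `T h` with `h` in the coset
`x`, and these are disjoint for different `x`. Then `exists_tfam`. -/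
theorem exists_fam (hR : Reg F A) (hn : ∀ a ∈ A, (∀ b ∈ A, F.c.a a b = F.c.a b a) → a = 1) :
    ∃ (F' : TFam (Q ⧸ A) Q) (κ : Q ⧸ A → A → A → ℂ),
      (∀ x, Kap (fun a b : A => pair F.c a b) (MulAut.conjNormal x.out) (κ x)) ∧
      (∀ x (a b : A), proj F A ((F.T a)⁻¹ * F.T b * F.T x.out) = κ x a b • F'.T x) ∧
      (∀ x, ∀ a ∈ A, F.T a * F'.T x = F'.T x * F.T a) ∧
      (∀ x, IsUnit (F'.T x)) ∧
      (∀ x, ∃ w : Q → ℂ, F'.T x = ∑ h, w h • F.T h) := by
  classical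
  have hQ : Nonempty Q := ⟨1⟩
  choose v κ hK hκ hu hc w hw0 hw using fun x : Q ⧸ A => exists_kappa hR hn x.out
  have hvne : ∀ x, v x ≠ 0 := fun x => (hu x).ne_zero
  -- cosets
  have hcos : ∀ (x : Q ⧸ A) (h : Q), (h : Q ⧸ A) = x ↔ h * x.out⁻¹ ∈ A := by
    intro x h
    have h1 : ((x.out : Q) : Q ⧸ A) = x := Quotient.out_eq' x
    conv_lhs => rw [← h1]
    rw [QuotientGroup.eq]
    constructor
    · intro h2
      have h3 := ‹A.Normal›.mem_comm h2
      have h4 := A.inv_mem h3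
      rwa [_root_.mul_inv_rev, inv_inv] at h4
    · intro h2
      have h3 := A.inv_mem h2
      rw [_root_.mul_inv_rev, inv_inv] at h3
      exact ‹A.Normal›.mem_comm h3
  have hmem : ∀ (x : Q ⧸ A) (h : Q), w x h ≠ 0 → (h : Q ⧸ A) = x := by
    intro x h hne
    rw [hcos]
    by_contra hcon
    exact hne (hw0 x h hcon)
  have hproj : ∀ (x : Q ⧸ A) (h : Q), (h : Q ⧸ A) = x → ∃ s : ℂ, proj F A (F.T h) = s • v x := by
    intro x h hx
    have hb := (hcos x h).mp hx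
    obtain ⟨μ, hμ, h1⟩ := stw_abg hR (((1 : A) : Q)) (h * x.out⁻¹) x.out
    have h2 := hκ x 1 ⟨h * x.out⁻¹, hb⟩
    have h3 : (((1 : A) : Q))⁻¹ * (h * x.out⁻¹) * x.out = h := by simp
    rw [h3] at h1
    rw [h1, proj_smul] at h2
    refine ⟨μ⁻¹ * κ x 1 ⟨h * x.out⁻¹, hb⟩, ?_⟩
    rw [mul_smul, ← h2, smul_smul, inv_mul_cancel₀ hμ, one_smul]
  have hmul : ∀ x y, ∃ a : ℂ, a ≠ 0 ∧ v x * v y = a • v (x * y) := by
    intro x y
    have hs : ∀ h k : Q, ∃ s : ℂ,
        (w x h * (w y k * F.c.a h k)) • proj F A (F.T (h * k)) = s • v (x * y) := by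
      intro h k
      by_cases h1 : w x h = 0
      · exact ⟨0, by rw [h1, zero_mul, zero_smul, zero_smul]⟩
      by_cases h2 : w y k = 0
      · exact ⟨0, by rw [h2, zero_mul, mul_zero, zero_smul, zero_smul]⟩
      have h3 : ((h * k : Q) : Q ⧸ A) = x * y := by
        rw [QuotientGroup.mk_mul, hmem x h h1, hmem y k h2]
      obtain ⟨s, hs⟩ := hproj (x * y) (h * k) h3
      exact ⟨_, by rw [hs, smul_smul]⟩
    choose s hs using hs
    have hfix : proj F A (v x * v y) = v x * v y := by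
      refine proj_fix hR _ fun b hb => ?_
      rw [← Matrix.mul_assoc, hc x b hb, Matrix.mul_assoc, hc y b hb, Matrix.mul_assoc]
    have hexp : v x * v y = ∑ h, ∑ k, (w x h * (w y k * F.c.a h k)) • F.T (h * k) := by
      conv_lhs => rw [hw x, hw y]
      rw [Finset.sum_mul]
      refine Finset.sum_congr rfl fun h _ => ?_
      rw [Finset.mul_sum]
      refine Finset.sum_congr rfl fun k _ => ?_
      rw [Matrix.smul_mul, Matrix.mul_smul, F.mul, smul_smul, smul_smul, mul_assoc]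
    have hres : v x * v y = (∑ h, ∑ k, s h k) • v (x * y) := by
      rw [← hfix, hexp, proj_sum, Finset.sum_smul]
      refine Finset.sum_congr rfl fun h _ => ?_
      rw [proj_sum, Finset.sum_smul]
      refine Finset.sum_congr rfl fun k _ => ?_
      rw [proj_smul, hs]
    refine ⟨_, ?_, hres⟩
    intro h0
    rw [h0, zero_smul] at hres
    exact ((hu x).mul (hu y)).ne_zero hres
  have hind : LinearIndependent ℂ v := by
    rw [linearIndependent_iff']
    intro S g hg x hx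
    have h1 : ∑ h, (∑ y ∈ S, g y * w y h) • F.T h = 0 := by
      rw [← hg]
      simp_rw [Finset.sum_smul]
      rw [Finset.sum_comm]
      refine Finset.sum_congr rfl fun y _ => ?_
      conv_rhs => rw [hw y, Finset.smul_sum]
      refine Finset.sum_congr rfl fun h _ => ?_
      rw [smul_smul]
    have h2 := Fintype.linearIndependent_iff.mp F.indep _ h1
    obtain ⟨h, hh⟩ : ∃ h, w x h ≠ 0 := by
      by_contra hcon
      push Not at hcon
      apply hvne x
      rw [hw x]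
      exact Finset.sum_eq_zero fun h _ => by rw [hcon h, zero_smul]
    have h3 := h2 h
    rw [Finset.sum_eq_single x] at h3
    · exact (mul_eq_zero.mp h3).resolve_right hh
    · intro y _ hyx
      by_cases h4 : w y h = 0
      · rw [h4, mul_zero]
      · exact absurd ((hmem y h h4).symm.trans (hmem x h hh)) hyx
    · intro h4
      exact absurd hx h4
  obtain ⟨F', hF'⟩ := exists_tfam v hind hmul
  refine ⟨F', κ, hK, ?_, ?_, ?_, ?_⟩
  · intro x a b
    rw [hF']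
    exact hκ x a b
  · intro x a ha
    rw [hF']
    exact hc x a ha
  · intro x
    rw [hF']
    exact hu x
  · intro x
    exact ⟨w x, by rw [hF']; exact hw x⟩

end

end MP0775d3.Solv
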